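import Mathlib

/-!
Exact lemmas on products of few surjective homomorphisms onto a prime group
(MP_551747_al, coset identities).
-/

set_option autoImplicit false

namespace Pool.Agent.H32.CI

/-- A group in which `a` commutes with all conjugates of `b` only if `a = 1` or `b = 1`. -/
def PrimeGrp (Q : Type*) [Group Q] : Prop :=
  ∀ a b : Q, (∀ q : Q, a * (q * b * q⁻¹) = (q * b * q⁻¹) * a) → a = 1 ∨ b = 1

section
variable {Q H : Type*} [Group Q] [Group H]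

theorem PrimeGrp.not_comm (hP : PrimeGrp Q) [Nontrivial Q] (hab : ∀ a b : Q, a * b = b * a) :
    False := by
  obtain ⟨a, ha⟩ := exists_ne (1 : Q)
  rcases hP a a (fun q => hab _ _) with h | h <;> exact ha h

theorem PrimeGrp.central (hP : PrimeGrp Q) [Nontrivial Q] {a : Q} (ha : ∀ b : Q, a * b = b * a) :
    a = 1 := by
  obtain ⟨b, hb⟩ := exists_ne (1 : Q)
  rcases hP a b (fun q => ha _) with h | h
  · exact h
  · exact absurd h hb

/-- No two surjective homomorphisms onto a prime group are inverse to each other. -/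
theorem no_two (hP : PrimeGrp Q) [Nontrivial Q] {ψ₁ ψ₂ : H →* Q}
    (h1 : Function.Surjective ψ₁) (h : ∀ k, ψ₁ k * ψ₂ k = 1) : False := by
  apply hP.not_comm
  intro a b
  obtain ⟨k, rfl⟩ := h1 a
  obtain ⟨l, rfl⟩ := h1 b
  have e1 := h (k * l)
  rw [map_mul, map_mul, eq_inv_of_mul_eq_one_right (h k), eq_inv_of_mul_eq_one_right (h l)] at e1
  calc ψ₁ k * ψ₁ l = (ψ₁ k * ψ₁ l * ((ψ₁ k)⁻¹ * (ψ₁ l)⁻¹)) * (ψ₁ l * ψ₁ k) := by group
    _ = ψ₁ l * ψ₁ k := by rw [e1, one_mul]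

/-- The product of two surjective homomorphisms onto a prime group is not a homomorphism. -/
theorem no_prod_two (hP : PrimeGrp Q) [Nontrivial Q] {ψ₁ ψ₂ ψ₃ : H →* Q}
    (h1 : Function.Surjective ψ₁) (h2 : Function.Surjective ψ₂)
    (h : ∀ k, ψ₁ k * ψ₂ k = ψ₃ k) : False := by
  apply hP.not_comm
  intro a b
  obtain ⟨l, rfl⟩ := h1 a
  obtain ⟨k, rfl⟩ := h2 b
  have e1 := h (k * l)
  rw [map_mul, map_mul, map_mul, ← h k, ← h l] at e1
  have e2 := congrArg (fun z => (ψ₁ k)⁻¹ * z * (ψ₂ l)⁻¹) e1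
  simpa [mul_assoc] using e2

/-- `ψ₁ ψ₂ = ψ₃ ψ₄` pointwise forces `ψ₁ = ψ₃` and `ψ₂ = ψ₄`. -/
theorem two_two (hP : PrimeGrp Q) [Nontrivial Q] {ψ₁ ψ₂ ψ₃ ψ₄ : H →* Q}
    (h1 : Function.Surjective ψ₁) (h2 : Function.Surjective ψ₂)
    (h : ∀ k, ψ₁ k * ψ₂ k = ψ₃ k * ψ₄ k) : ψ₁ = ψ₃ ∧ ψ₂ = ψ₄ := by
  have key : ψ₁ = ψ₃ := by
    set c : H → Q := fun k => (ψ₁ k)⁻¹ * ψ₃ k with hc
    have hc' : ∀ k, c k = ψ₂ k * (ψ₄ k)⁻¹ := by
      intro k
      have := congrArg (fun z => (ψ₁ k)⁻¹ * z * (ψ₄ k)⁻¹) (h k)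
      simp only [mul_assoc, inv_mul_cancel_left, mul_inv_cancel, mul_one] at this
      rw [this]
    have hc1 : ∀ k l, c (k * l) = (ψ₁ l)⁻¹ * c k * ψ₁ l * c l := by
      intro k l
      simp only [hc, map_mul]
      group
    have hc2 : ∀ k l, c (k * l) = ψ₂ k * c l * (ψ₂ k)⁻¹ * c k := by
      intro k l
      rw [hc' (k * l), hc' l, hc' k, map_mul, map_mul]
      group
    have hI : ∀ k l, (ψ₁ l)⁻¹ * c k * ψ₁ l * c l = ψ₂ k * c l * (ψ₂ k)⁻¹ * c k :=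
      fun k l => (hc1 k l).symm.trans (hc2 k l)
    have hcomm : ∀ k l m, (ψ₁ m)⁻¹ * ψ₂ k * c l * (ψ₂ k)⁻¹ * ψ₁ m
        = ψ₂ k * (ψ₁ m)⁻¹ * c l * ψ₁ m * (ψ₂ k)⁻¹ := by
      intro k l m
      have e0 := hI k (l * m)
      rw [hc1 l m, map_mul] at e0
      have e1 := hI k l
      have e2 := hI k m
      generalize hL : ψ₁ l = L at *
      generalize hM : ψ₁ m = M at *
      generalize hB : ψ₂ k = B at *
      generalize c k = ck at *
      generalize c l = cl at *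
      generalize c m = cm at *
      have e3 : (L * M)⁻¹ * ck * (L * M) * (M⁻¹ * cl * M * cm)
          = M⁻¹ * (L⁻¹ * ck * L * cl) * M * cm := by group
      rw [e3, e1] at e0
      have e4 : M⁻¹ * (B * cl * B⁻¹ * ck) * M * cm
          = M⁻¹ * B * cl * B⁻¹ * M * (M⁻¹ * ck * M * cm) := by group
      rw [e4, e2] at e0
      have e5 := congrArg (fun z => z * (cm * B⁻¹ * ck)⁻¹ * B⁻¹) e0
      have e6 : M⁻¹ * B * cl * B⁻¹ * M * (B * cm * B⁻¹ * ck) * (cm * B⁻¹ * ck)⁻¹ * B⁻¹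
          = M⁻¹ * B * cl * B⁻¹ * M := by group
      have e7 : B * (M⁻¹ * cl * M * cm) * B⁻¹ * ck * (cm * B⁻¹ * ck)⁻¹ * B⁻¹
          = B * M⁻¹ * cl * M * B⁻¹ := by group
      simp only [e6, e7] at e5
      exact e5
    have hcc : ∀ l (a b : Q), c l * (a * b * a⁻¹ * b⁻¹) = (a * b * a⁻¹ * b⁻¹) * c l := by
      intro l a b
      obtain ⟨m, rfl⟩ := h1 a
      obtain ⟨k, hk⟩ := h2 b⁻¹
      have := hcomm k l m
      rw [hk] at this
      generalize ψ₁ m = M at *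
      generalize c l = cl at *
      have e := congrArg (fun z => (b * M) * z * (M⁻¹ * b⁻¹)) this
      have e1 : (b * M) * (M⁻¹ * b⁻¹ * cl * b⁻¹⁻¹ * M) * (M⁻¹ * b⁻¹) = cl := by group
      have e2 : (b * M) * (b⁻¹ * M⁻¹ * cl * M * b⁻¹⁻¹) * (M⁻¹ * b⁻¹)
          = (M * b * M⁻¹ * b⁻¹)⁻¹ * cl * (M * b * M⁻¹ * b⁻¹) := by group
      simp only [e1, e2] at e
      rw [mul_assoc, eq_inv_mul_iff_mul_eq] at e
      exact e.symm
    ext l
    by_contra hne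
    have hcl : c l ≠ 1 := by
      intro h0
      apply hne
      have h0' : (ψ₁ l)⁻¹ * ψ₃ l = 1 := h0
      exact (inv_mul_eq_one.1 h0')
    apply hP.not_comm
    intro a b
    rcases hP (c l) (a * b * a⁻¹ * b⁻¹) (fun q => by
      have := hcc l (q * a * q⁻¹) (q * b * q⁻¹)
      have e1 : q * a * q⁻¹ * (q * b * q⁻¹) * (q * a * q⁻¹)⁻¹ * (q * b * q⁻¹)⁻¹
          = q * (a * b * a⁻¹ * b⁻¹) * q⁻¹ := by group
      rwa [e1] at this) with h' | h'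
    · exact absurd h' hcl
    · calc a * b = (a * b * a⁻¹ * b⁻¹) * (b * a) := by group
        _ = b * a := by rw [h', one_mul]
  refine ⟨key, ?_⟩
  ext k
  have := h k
  rw [key] at this
  exact mul_left_cancel this

/-- conjugate of a homomorphism by an element of the target -/
def cj (b : Q) (ψ : H →* Q) : H →* Q := (MulAut.conj b).toMonoidHom.comp ψ

@[simp] theorem cj_apply (b : Q) (ψ : H →* Q) (k : H) : cj b ψ k = b * ψ k * b⁻¹ := rfl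

theorem cj_surj (b : Q) {ψ : H →* Q} (h : Function.Surjective ψ) :
    Function.Surjective (cj b ψ) := by
  intro q
  obtain ⟨k, hk⟩ := h (b⁻¹ * q * b)
  refine ⟨k, ?_⟩
  rw [cj_apply, hk]
  group

/-- The product of three surjective homomorphisms onto a prime group is not a homomorphism. -/
theorem no_prod_three (hP : PrimeGrp Q) [Nontrivial Q] {ψ₁ ψ₂ ψ₃ ψ₄ : H →* Q}
    (h1 : Function.Surjective ψ₁) (h2 : Function.Surjective ψ₂)
    (h : ∀ k, ψ₁ k * ψ₂ k * ψ₃ k = ψ₄ k) : False := by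
  apply no_two hP (ψ₁ := ψ₂) (ψ₂ := ψ₃) h2
  intro k
  have hk : ∀ l, cj (ψ₂ k)⁻¹ ψ₁ l * ψ₂ l = cj (ψ₃ k) ψ₁ l * cj (ψ₃ k) ψ₂ l := by
    intro l
    have e := h (k * l)
    rw [map_mul, map_mul, map_mul, map_mul, ← h k, ← h l] at e
    simp only [cj_apply]
    have e2 := congrArg (fun z => (ψ₂ k)⁻¹ * (ψ₁ k)⁻¹ * z * (ψ₃ l)⁻¹ * (ψ₃ k)⁻¹) e
    generalize ψ₁ l = L1 at *
    generalize ψ₂ l = L2 at *
    generalize ψ₃ l = L3 at *
    generalize ψ₁ k = A at *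
    generalize ψ₂ k = B at *
    generalize ψ₃ k = C at *
    have e3 : B⁻¹ * A⁻¹ * (A * L1 * (B * L2) * (C * L3)) * L3⁻¹ * C⁻¹
        = B⁻¹ * L1 * B⁻¹⁻¹ * L2 := by group
    have e4 : B⁻¹ * A⁻¹ * (A * B * C * (L1 * L2 * L3)) * L3⁻¹ * C⁻¹
        = C * L1 * C⁻¹ * (C * L2 * C⁻¹) := by group
    simp only [e3, e4] at e2
    exact e2
  have h3 := (two_two hP (cj_surj _ h1) h2 hk).1
  apply hP.central
  intro b
  obtain ⟨l, rfl⟩ := h1 b
  have h4 := DFunLike.congr_fun h3 l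
  simp only [cj_apply] at h4
  have h5 := congrArg (fun z => ψ₂ k * z * ψ₃ k) h4
  have e1 : ψ₂ k * ((ψ₂ k)⁻¹ * ψ₁ l * (ψ₂ k)⁻¹⁻¹) * ψ₃ k = ψ₁ l * (ψ₂ k * ψ₃ k) := by group
  have e2 : ψ₂ k * (ψ₃ k * ψ₁ l * (ψ₃ k)⁻¹) * ψ₃ k = ψ₂ k * ψ₃ k * ψ₁ l := by group
  simp only [e1, e2] at h5
  exact h5.symm

/-- If a product of three homomorphisms is trivial, every element of the image of the first one
commutes with all its conjugates. -/
theorem comm_conj_of_three {ψ₁ ψ₂ ψ₃ : H →* Q} (h : ∀ k, ψ₁ k * ψ₂ k * ψ₃ k = 1) (k l : H) :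
    ψ₁ k * ((ψ₁ l)⁻¹ * ψ₁ k * ψ₁ l) = ((ψ₁ l)⁻¹ * ψ₁ k * ψ₁ l) * ψ₁ k := by
  have hf : ∀ k l, ψ₁ k * ψ₁ l * (ψ₂ k * ψ₂ l) = ψ₁ l * ψ₂ l * (ψ₁ k * ψ₂ k) := by
    intro k l
    have ek := eq_inv_of_mul_eq_one_left (h k)
    have el := eq_inv_of_mul_eq_one_left (h l)
    have e := eq_inv_of_mul_eq_one_left (h (k * l))
    rw [map_mul, map_mul, map_mul, mul_inv_rev, ← ek, ← el] at e
    exact e
  have h1 := hf k l
  have h2 := hf k (l * k)
  have h3 := hf k k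
  simp only [map_mul] at h2
  generalize ψ₁ k = A at *
  generalize ψ₁ l = L at *
  generalize ψ₂ k = B at *
  generalize ψ₂ l = M at *
  have hAB : B * A = A * B := by
    have := congrArg (fun z => A⁻¹ * z * B⁻¹) h3
    have e1 : A⁻¹ * (A * A * (B * B)) * B⁻¹ = A * B := by group
    have e2 : A⁻¹ * (A * B * (A * B)) * B⁻¹ = B * A := by group
    simp only [e1, e2] at this
    exact this.symm
  have e1 : B * M = L⁻¹ * A⁻¹ * (L * M * (A * B)) := by rw [← h1]; group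
  have e2 : A * (L * A) * (B * (M * B)) = A * L * A * (B * M) * B := by group
  have e3 : L * A * (M * B) * (A * B) = L * A * M * (B * A) * B := by group
  rw [e2, e1, e3, hAB] at h2
  have h4 := congrArg (fun z => L⁻¹ * z * (M * (A * B) * B)⁻¹ * (L⁻¹ * A * L)) h2
  have e4 : L⁻¹ * (A * L * A * (L⁻¹ * A⁻¹ * (L * M * (A * B))) * B) * (M * (A * B) * B)⁻¹
      * (L⁻¹ * A * L) = L⁻¹ * A * L * A := by group
  have e5 : L⁻¹ * (L * A * M * (A * B) * B) * (M * (A * B) * B)⁻¹ * (L⁻¹ * A * L)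
      = A * (L⁻¹ * A * L) := by group
  simp only [e4, e5] at h4
  exact h4.symm

theorem no_three_one (hP : PrimeGrp Q) [Nontrivial Q] {ψ₁ ψ₂ ψ₃ : H →* Q}
    (h1 : Function.Surjective ψ₁) (h : ∀ k, ψ₁ k * ψ₂ k * ψ₃ k = 1) : False := by
  obtain ⟨a, ha⟩ := exists_ne (1 : Q)
  rcases hP a a (fun q => by
    obtain ⟨k, rfl⟩ := h1 a
    obtain ⟨l, hl⟩ := h1 q⁻¹
    have := comm_conj_of_three h k l
    rwa [hl, inv_inv] at this) with h' | h' <;> exact ha h'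

/-- alternating product of four -/
theorem alt_four (hP : PrimeGrp Q) {ψ₁ ψ₂ ψ₃ ψ₄ : H →* Q}
    (h1 : Function.Surjective ψ₁)
    (h : ∀ k, (ψ₁ k)⁻¹ * ψ₂ k * (ψ₃ k)⁻¹ * ψ₄ k = 1) : ψ₁ = ψ₂ ∨ ψ₂ = ψ₃ := by
  by_cases h12 : ψ₁ = ψ₂
  · exact Or.inl h12
  right
  have : ∃ k, ψ₁ k ≠ ψ₂ k := by
    by_contra hcon
    push Not at hcon
    exact h12 (MonoidHom.ext hcon)
  obtain ⟨k, hk⟩ := this
  have hc : ∀ l m, (ψ₁ m)⁻¹ * ((ψ₁ l)⁻¹ * ψ₂ l) * ψ₁ m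
      = (ψ₄ m)⁻¹ * ((ψ₁ l)⁻¹ * ψ₂ l) * ψ₄ m := by
    intro l m
    have el := h l
    have em := h m
    have e := h (l * m)
    simp only [map_mul] at e
    generalize ψ₁ l = A at *
    generalize ψ₂ l = B at *
    generalize ψ₃ l = C at *
    generalize ψ₄ l = D at *
    generalize ψ₁ m = A' at *
    generalize ψ₂ m = B' at *
    generalize ψ₃ m = C' at *
    generalize ψ₄ m = D' at *
    have h1 : C = D * (A⁻¹ * B) := by
      have h2 : D = C * B⁻¹ * A := by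
        have := eq_inv_of_mul_eq_one_right el
        rw [this]; group
      rw [h2]; group
    have h2 : C' = D' * (A'⁻¹ * B') := by
      have h2 : D' = C' * B'⁻¹ * A' := by
        have := eq_inv_of_mul_eq_one_right em
        rw [this]; group
      rw [h2]; group
    rw [h1, h2] at e
    have e2 : (A * A')⁻¹ * (B * B') * (D * (A⁻¹ * B) * (D' * (A'⁻¹ * B')))⁻¹ * (D * D')
        = (A'⁻¹ * (A⁻¹ * B) * A') * ((A'⁻¹ * B') * (A'⁻¹ * B')⁻¹)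
          * (D'⁻¹ * (A⁻¹ * B)⁻¹ * D') := by group
    rw [e2, mul_inv_cancel, mul_one] at e
    have e3 := eq_inv_of_mul_eq_one_left e
    rw [e3]; group
  have h41 : ∀ m, ψ₄ m = ψ₁ m := by
    intro m
    have hq : ∀ q : Q, (ψ₄ m * (ψ₁ m)⁻¹) * (q * ((ψ₁ k)⁻¹ * ψ₂ k) * q⁻¹)
        = (q * ((ψ₁ k)⁻¹ * ψ₂ k) * q⁻¹) * (ψ₄ m * (ψ₁ m)⁻¹) := by
      intro q
      obtain ⟨l, hl⟩ := h1 q⁻¹
      -- conjugate of c k by ψ₁ l is c (k l) (c l)⁻¹
      have e1 : q * ((ψ₁ k)⁻¹ * ψ₂ k) * q⁻¹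
          = ((ψ₁ (k * l))⁻¹ * ψ₂ (k * l)) * ((ψ₁ l)⁻¹ * ψ₂ l)⁻¹ := by
        rw [map_mul, map_mul, hl]; group
      have c1 : ∀ l, (ψ₄ m * (ψ₁ m)⁻¹) * ((ψ₁ l)⁻¹ * ψ₂ l)
          = ((ψ₁ l)⁻¹ * ψ₂ l) * (ψ₄ m * (ψ₁ m)⁻¹) := by
        intro l
        have := congrArg (fun z => ψ₄ m * z * (ψ₁ m)⁻¹) (hc l m)
        generalize (ψ₁ l)⁻¹ * ψ₂ l = X at *
        have a1 : ψ₄ m * ((ψ₁ m)⁻¹ * X * ψ₁ m) * (ψ₁ m)⁻¹ = (ψ₄ m * (ψ₁ m)⁻¹) * X := by group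
        have a2 : ψ₄ m * ((ψ₄ m)⁻¹ * X * ψ₄ m) * (ψ₁ m)⁻¹ = X * (ψ₄ m * (ψ₁ m)⁻¹) := by group
        simp only [a1, a2] at this
        exact this
      rw [e1]
      have c2 := c1 (k * l)
      have c3 := c1 l
      generalize ψ₄ m * (ψ₁ m)⁻¹ = D at *
      generalize (ψ₁ (k * l))⁻¹ * ψ₂ (k * l) = X at *
      generalize (ψ₁ l)⁻¹ * ψ₂ l = Y at *
      have c4 : D * Y⁻¹ = Y⁻¹ * D := (Commute.inv_right (show Commute D Y from c3))
      rw [← mul_assoc, c2, mul_assoc, c4, mul_assoc]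
    rcases hP _ _ hq with h' | h'
    · exact (mul_inv_eq_one.1 h')
    · exact absurd (inv_mul_eq_one.1 h') hk
  ext m
  have := h m
  rw [h41 m] at this
  generalize ψ₁ m = A at *
  generalize ψ₂ m = B at *
  generalize ψ₃ m = C at *
  have e : B * C⁻¹ = 1 := by
    have := congrArg (fun z => A * z * A⁻¹) this
    have e1 : A * (A⁻¹ * B * C⁻¹ * A) * A⁻¹ = B * C⁻¹ := by group
    simpa only [e1, mul_one, mul_inv_cancel] using this
  exact mul_inv_eq_one.1 e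

end

end Pool.Agent.H32.CI
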