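import Mathlib
import Pool.Agent.H32.CI.Prime

/-!
Small sets (finite unions of cosets of subgroups of infinite index) and prime groups
(MP_551747_al, coset identities).
-/

set_option autoImplicit false

namespace Pool.Agent.H32.CI

open scoped Pointwise

section
variable {Q H : Type*} [Group Q] [Group H]

/-- `S` is covered by finitely many left cosets of subgroups of infinite index. -/
def Small (S : Set H) : Prop :=
  ∃ F : Finset (H × Subgroup H), (∀ x ∈ F, ¬ x.2.FiniteIndex) ∧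
    S ⊆ ⋃ x ∈ F, x.1 • (x.2 : Set H)

theorem Small.mono {S T : Set H} (h : Small T) (hST : S ⊆ T) : Small S := by
  obtain ⟨F, h1, h2⟩ := h
  exact ⟨F, h1, hST.trans h2⟩

theorem small_empty : Small (∅ : Set H) := ⟨∅, by simp, by simp⟩

theorem Small.union {S T : Set H} (hS : Small S) (hT : Small T) : Small (S ∪ T) := by
  classical
  obtain ⟨F, h1, h2⟩ := hS
  obtain ⟨F', h1', h2'⟩ := hT
  refine ⟨F ∪ F', ?_, ?_⟩
  · intro x hx
    rcases Finset.mem_union.1 hx with h | h
    · exact h1 x h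
    · exact h1' x h
  · rintro x (hx | hx)
    · obtain ⟨y, hy, hxy⟩ := Set.mem_iUnion₂.1 (h2 hx)
      exact Set.mem_iUnion₂.2 ⟨y, Finset.mem_union_left _ hy, hxy⟩
    · obtain ⟨y, hy, hxy⟩ := Set.mem_iUnion₂.1 (h2' hx)
      exact Set.mem_iUnion₂.2 ⟨y, Finset.mem_union_right _ hy, hxy⟩

theorem small_subgroup {K : Subgroup H} (hK : ¬ K.FiniteIndex) : Small (K : Set H) := by
  refine ⟨{(1, K)}, by simpa using hK, ?_⟩
  intro x hx
  simpa using hx

theorem Small.smul {S : Set H} (hS : Small S) (g : H) : Small (g • S) := by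
  classical
  obtain ⟨F, h1, h2⟩ := hS
  refine ⟨F.image (fun x => (g * x.1, x.2)), ?_, ?_⟩
  · intro x hx
    obtain ⟨y, hy, rfl⟩ := Finset.mem_image.1 hx
    exact h1 y hy
  · rintro _ ⟨s, hs, rfl⟩
    obtain ⟨y, hy, hxy⟩ := Set.mem_iUnion₂.1 (h2 hs)
    refine Set.mem_iUnion₂.2 ⟨(g * y.1, y.2), Finset.mem_image_of_mem _ hy, ?_⟩
    change g • s ∈ (g * y.1) • (y.2 : Set H)
    rw [mul_smul]
    exact Set.smul_mem_smul_set hxy

theorem Small.finiteIndex {S : Set H} (hS : Small S) {K : Subgroup H}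
    (h : ∀ x, x ∈ K ∨ x ∈ S) : K.FiniteIndex := by
  classical
  obtain ⟨F, h1, h2⟩ := hS
  by_contra hK
  obtain ⟨x, hx, hfi⟩ := Subgroup.exists_finiteIndex_of_leftCoset_cover
    (s := insert (1, K) F) (g := fun x : H × Subgroup H => x.1)
    (H := fun x : H × Subgroup H => x.2) (by
      rw [Set.eq_univ_iff_forall]
      intro y
      rcases h y with hy | hy
      · refine Set.mem_iUnion₂.2 ⟨(1, K), Finset.mem_insert_self _ _, ?_⟩
        simpa using hy
      · obtain ⟨z, hz, hyz⟩ := Set.mem_iUnion₂.1 (h2 hy)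
        exact Set.mem_iUnion₂.2 ⟨z, Finset.mem_insert_of_mem hz, hyz⟩)
  rcases Finset.mem_insert.1 hx with h' | h'
  · subst h'
    exact hK hfi
  · exact h1 x h' hfi

theorem not_small_univ [Infinite H] : ¬ Small (Set.univ : Set H) := by
  intro h
  have : (⊥ : Subgroup H).FiniteIndex := h.finiteIndex (fun x => Or.inr (Set.mem_univ x))
  have h2 := this.index_ne_zero
  rw [Subgroup.index_bot] at h2
  exact h2 (Nat.card_eq_zero_of_infinite)

/-- the FC-centre of an infinite prime group is trivial -/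
theorem PrimeGrp.fc (hP : PrimeGrp Q) [Infinite Q] {c : Q}
    (hc : (Subgroup.centralizer {c}).FiniteIndex) : c = 1 := by
  by_contra hc1
  have hK : (Subgroup.centralizer {c}).normalCore ≠ ⊥ := by
    intro h0
    have hfi : (Subgroup.centralizer {c}).normalCore.FiniteIndex := inferInstance
    rw [h0] at hfi
    have h2 := hfi.index_ne_zero
    rw [Subgroup.index_bot] at h2
    exact h2 (Nat.card_eq_zero_of_infinite)
  obtain ⟨k, hk, hk1⟩ := (Subgroup.bot_or_exists_ne_one
    (Subgroup.centralizer {c}).normalCore).resolve_left hK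
  rcases hP c k (fun q => by
    have h1 : q * k * q⁻¹ ∈ (Subgroup.centralizer {c}).normalCore :=
      Subgroup.Normal.conj_mem inferInstance k hk q
    have h2 := Subgroup.normalCore_le _ h1
    rw [Subgroup.mem_centralizer_singleton_iff] at h2
    exact h2.symm) with h | h
  · exact hc1 h
  · exact hk1 h

theorem PrimeGrp.eqLocus (hP : PrimeGrp Q) [Infinite Q] {ψ₁ ψ₂ : H →* Q}
    (h1 : Function.Surjective ψ₁) (h : (MonoidHom.eqLocus ψ₁ ψ₂).FiniteIndex) : ψ₁ = ψ₂ := by
  ext q
  set d : Q := (ψ₂ q)⁻¹ * ψ₁ q with hd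
  have hd1 : d = 1 := by
    apply hP.fc
    have hle : (MonoidHom.eqLocus ψ₁ ψ₂).normalCore ≤
        (Subgroup.centralizer {d}).comap ψ₁ := by
      intro k hk
      rw [Subgroup.mem_comap, Subgroup.mem_centralizer_singleton_iff]
      have h2 : q * k * q⁻¹ ∈ (MonoidHom.eqLocus ψ₁ ψ₂).normalCore :=
        Subgroup.Normal.conj_mem inferInstance k hk q
      have h3 : ψ₁ (q * k * q⁻¹) = ψ₂ (q * k * q⁻¹) := Subgroup.normalCore_le _ h2
      have h4 : ψ₁ k = ψ₂ k := Subgroup.normalCore_le _ hk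
      simp only [map_mul, map_inv, ← h4] at h3
      rw [hd]
      have h5 := congrArg (fun z => (ψ₂ q)⁻¹ * z * ψ₁ q) h3
      have e1 : (ψ₂ q)⁻¹ * (ψ₁ q * ψ₁ k * (ψ₁ q)⁻¹) * ψ₁ q = (ψ₂ q)⁻¹ * ψ₁ q * ψ₁ k := by group
      have e2 : (ψ₂ q)⁻¹ * (ψ₂ q * ψ₁ k * (ψ₂ q)⁻¹) * ψ₁ q = ψ₁ k * ((ψ₂ q)⁻¹ * ψ₁ q) := by group
      simp only [e1, e2] at h5
      exact h5.symm
    have h6 : ((Subgroup.centralizer {d}).comap ψ₁).FiniteIndex := Subgroup.finiteIndex_of_le hle
    constructor
    rw [← Subgroup.index_comap_of_surjective _ h1]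
    exact h6.index_ne_zero
  exact (inv_mul_eq_one.1 hd1).symm

theorem ker_not_finiteIndex [Infinite Q] {ψ : H →* Q} (h : Function.Surjective ψ) :
    ¬ ψ.ker.FiniteIndex := by
  intro hfi
  have h1 := hfi.index_ne_zero
  rw [Subgroup.index_ker] at h1
  apply h1
  rw [MonoidHom.range_eq_top.2 h]
  rw [Subgroup.card_top]
  exact Nat.card_eq_zero_of_infinite

theorem PrimeGrp.comm_small (hP : PrimeGrp Q) [Infinite Q] {ψ : H →* Q}
    (h1 : Function.Surjective ψ) {T : Set H} (hT : Small T) {c : Q}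
    (h : ∀ l, l ∉ T → c * ψ l = ψ l * c) : c = 1 := by
  apply hP.fc
  have h6 : ((Subgroup.centralizer {c}).comap ψ).FiniteIndex := by
    apply hT.finiteIndex
    intro x
    by_cases hx : x ∈ T
    · exact Or.inr hx
    · left
      rw [Subgroup.mem_comap, Subgroup.mem_centralizer_singleton_iff]
      exact (h x hx).symm
  constructor
  rw [← Subgroup.index_comap_of_surjective _ h1]
  exact h6.index_ne_zero

/-- alternating products of three cannot be trivial on the complement of a small set -/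
theorem alt_three (hP : PrimeGrp Q) [Infinite Q] {ψ₁ ψ₂ ψ₃ : H →* Q}
    (h1 : Function.Surjective ψ₁) (h3 : Function.Surjective ψ₃) {T : Set H} (hT : Small T)
    (h : ∀ k, k ∉ T → ψ₁ k * (ψ₂ k)⁻¹ * ψ₃ k = 1) : False := by
  have key : ∀ k, k ∉ T → ψ₁ k = 1 := by
    intro k hk
    apply hP.comm_small h3 (hT.union (hT.smul k⁻¹))
    intro l hl
    have hl1 : l ∉ T := fun h => hl (Or.inl h)
    have hl2 : k * l ∉ T := fun h => hl (Or.inr (by
      rw [Set.mem_smul_set_iff_inv_smul_mem, inv_inv]; exact h))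
    have ek := h k hk
    have el := h l hl1
    have e := h _ hl2
    simp only [map_mul] at e
    generalize ψ₁ k = A at *
    generalize ψ₂ k = B at *
    generalize ψ₃ k = C at *
    generalize ψ₁ l = A' at *
    generalize ψ₂ l = B' at *
    generalize ψ₃ l = C' at *
    have e1 : A * A' * (B * B')⁻¹ * (C * C') = A * (A' * B'⁻¹ * C') * C'⁻¹ * A⁻¹
        * (A * B⁻¹ * C) * C' := by group
    rw [e1, ek, el] at e
    have e2 := congrArg (fun z => z * (C'⁻¹ * A * C')) e
    have e3 : A * 1 * C'⁻¹ * A⁻¹ * 1 * C' * (C'⁻¹ * A * C') = A := by group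
    simp only [e3] at e2
    have e4 := congrArg (fun z => C' * z) e2
    have e5 : C' * (1 * (C'⁻¹ * A * C')) = A * C' := by group
    simp only [e5] at e4
    exact e4.symm
  apply ker_not_finiteIndex h1
  apply hT.finiteIndex
  intro x
  by_cases hx : x ∈ T
  · exact Or.inr hx
  · exact Or.inl (key x hx)

theorem alt_three' (hP : PrimeGrp Q) [Infinite Q] {ψ₁ ψ₂ ψ₃ : H →* Q}
    (h1 : Function.Surjective ψ₁) (h3 : Function.Surjective ψ₃) {T : Set H} (hT : Small T)
    (h : ∀ k, k ∉ T → (ψ₁ k)⁻¹ * ψ₂ k * (ψ₃ k)⁻¹ = 1) : False := by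
  have key : ∀ k, k ∉ T → ψ₃ k = 1 := by
    intro k hk
    apply hP.comm_small h1 (hT.union (hT.smul k⁻¹))
    intro l hl
    have hl1 : l ∉ T := fun h => hl (Or.inl h)
    have hl2 : k * l ∉ T := fun h => hl (Or.inr (by
      rw [Set.mem_smul_set_iff_inv_smul_mem, inv_inv]; exact h))
    have ek := h k hk
    have el := h l hl1
    have e := h _ hl2
    simp only [map_mul] at e
    generalize ψ₁ k = A at *
    generalize ψ₂ k = B at *
    generalize ψ₃ k = C at *
    generalize ψ₁ l = A' at *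
    generalize ψ₂ l = B' at *
    generalize ψ₃ l = C' at *
    have e1 : (A * A')⁻¹ * (B * B') * (C * C')⁻¹ = A'⁻¹ * (A⁻¹ * B * C⁻¹) * C * A'
        * (A'⁻¹ * B' * C'⁻¹) * C⁻¹ := by group
    rw [e1, ek, el] at e
    have e2 := congrArg (fun z => A' * z * C) e
    have e3 : A' * (A'⁻¹ * 1 * C * A' * 1 * C⁻¹) * C = C * A' := by group
    have e4 : A' * 1 * C = A' * C := by group
    simp only [e3, e4] at e2
    exact e2
  apply ker_not_finiteIndex h3
  apply hT.finiteIndex
  intro x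
  by_cases hx : x ∈ T
  · exact Or.inr hx
  · exact Or.inl (key x hx)

end

end Pool.Agent.H32.CI
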