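import Mathlib
import Pool.Agent.H32.CI.Small

/-!
The action of `G` on homomorphisms `H →* Q`, words, and the insertion formula
(MP_551747_al, coset identities).
-/

set_option autoImplicit false
set_option linter.unusedSectionVars false
set_option linter.unusedSimpArgs false

namespace Pool.Agent.H32.CI

section
variable {G Q : Type*} [Group G] [Group Q] {H : Subgroup G} [H.Normal]

/-- `G` acts on homomorphisms `H →* Q` : `(act g φ) k = φ (g⁻¹ k g)`. -/
def act (g : G) (φ : H →* Q) : H →* Q := φ.comp (MulAut.conjNormal g⁻¹).toMonoidHom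

theorem act_apply (g : G) (φ : H →* Q) (k : H) : act g φ k = φ (MulAut.conjNormal g⁻¹ k) := rfl

@[simp] theorem act_one (φ : H →* Q) : act (1 : G) φ = φ := by
  ext k
  rw [act_apply, inv_one, map_one]
  rfl

theorem act_mul (g h : G) (φ : H →* Q) : act (g * h) φ = act g (act h φ) := by
  ext k
  rw [act_apply, act_apply, act_apply, mul_inv_rev, map_mul]
  rfl

theorem act_surj (g : G) {φ : H →* Q} (h : Function.Surjective φ) :
    Function.Surjective (act g φ) := by
  intro q
  obtain ⟨k, rfl⟩ := h q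
  refine ⟨MulAut.conjNormal g k, ?_⟩
  rw [act_apply]
  congr 1
  ext
  simp [MulAut.conjNormal_apply, mul_assoc]

theorem act_inv_eq_iff {g : G} {φ ψ : H →* Q} : act g⁻¹ φ = ψ ↔ φ = act g ψ := by
  constructor
  · rintro rfl
    rw [← act_mul, mul_inv_cancel, act_one]
  · rintro rfl
    rw [← act_mul, inv_mul_cancel, act_one]

theorem act_inj (g : G) {φ ψ : H →* Q} : act g φ = act g ψ ↔ φ = ψ := by
  constructor
  · intro h
    have := congrArg (act g⁻¹) h
    rwa [← act_mul, ← act_mul, inv_mul_cancel, act_one, act_one] at this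
  · rintro rfl; rfl

theorem act_coe (h : H) (φ : H →* Q) (k : H) : act (h : G) φ k = (φ h)⁻¹ * φ k * φ h := by
  rw [act_apply, ← map_inv, ← map_mul, ← map_mul]
  congr 1
  ext
  simp [MulAut.conjNormal_apply]

theorem act_coe_eq_iff (hP : PrimeGrp Q) [Nontrivial Q] {φ : H →* Q}
    (hφ : Function.Surjective φ) (h : H) : act (h : G) φ = φ ↔ φ h = 1 := by
  constructor
  · intro he
    apply hP.central
    intro b
    obtain ⟨k, rfl⟩ := hφ b
    have := DFunLike.congr_fun he k
    rw [act_coe] at this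
    have h2 := congrArg (fun z => φ h * z) this
    have e1 : φ h * ((φ h)⁻¹ * φ k * φ h) = φ k * φ h := by group
    simp only [e1] at h2
    exact h2.symm
  · intro he
    ext k
    rw [act_coe, he]
    simp

/-- same `H`-orbit -/
def Orb (φ ψ : H →* Q) : Prop := ∃ h : H, ψ = act (h : G) φ

theorem Orb.refl (φ : H →* Q) : Orb φ φ := ⟨1, by simp⟩

theorem Orb.symm {φ ψ : H →* Q} (h : Orb φ ψ) : Orb ψ φ := by
  obtain ⟨h, rfl⟩ := h
  refine ⟨h⁻¹, ?_⟩
  rw [Subgroup.coe_inv, ← act_mul, inv_mul_cancel, act_one]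

theorem Orb.trans {φ ψ χ : H →* Q} (h1 : Orb φ ψ) (h2 : Orb ψ χ) : Orb φ χ := by
  obtain ⟨h, rfl⟩ := h1
  obtain ⟨k, rfl⟩ := h2
  exact ⟨k * h, by rw [Subgroup.coe_mul, act_mul]⟩

theorem Orb.mact {φ ψ : H →* Q} (h : Orb φ ψ) (g : G) : Orb (act g φ) (act g ψ) := by
  obtain ⟨h, rfl⟩ := h
  refine ⟨MulAut.conjNormal g h, ?_⟩
  rw [MulAut.conjNormal_apply, ← act_mul, ← act_mul]
  congr 1
  group

theorem Orb.fix {φ ψ : H →* Q} (h : Orb φ ψ) {g : G} (hg : act g φ = φ) : act g ψ = ψ := by
  obtain ⟨h, rfl⟩ := h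
  have hu : (g⁻¹ * (h : G)⁻¹ * g * h : G) ∈ H := by
    have h1 : g⁻¹ * (h : G)⁻¹ * g⁻¹⁻¹ ∈ H :=
      Subgroup.Normal.conj_mem inferInstance _ (H.inv_mem h.2) g⁻¹
    rw [inv_inv] at h1
    exact H.mul_mem h1 h.2
  have e1 : g * (h : G) = h * (g * (g⁻¹ * (h : G)⁻¹ * g * h)) := by group
  rw [← act_mul, e1, act_mul, act_mul]
  congr 1
  have e2 : act (g⁻¹ * (h : G)⁻¹ * g * h) φ = φ := by
    have h3 : φ ⟨g⁻¹ * (h : G)⁻¹ * g * h, hu⟩ = 1 := by
      have h4 : (⟨g⁻¹ * (h : G)⁻¹ * g * h, hu⟩ : H)
          = (MulAut.conjNormal g⁻¹ h⁻¹) * h := by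
        ext
        simp [MulAut.conjNormal_apply, mul_assoc]
      rw [h4, map_mul, ← act_apply, hg, map_inv, inv_mul_cancel]
    ext k
    have h5 := act_coe (G := G) (⟨g⁻¹ * (h : G)⁻¹ * g * h, hu⟩ : H) φ k
    rw [h3] at h5
    simpa using h5
  rw [e2, hg]

theorem Orb.fix_iff {φ ψ : H →* Q} (h : Orb φ ψ) {g : G} : act g φ = φ ↔ act g ψ = ψ :=
  ⟨h.fix, h.symm.fix⟩

/-! ### words -/

variable {ι : Type*}

/-- value of a letter -/
def ev (y : ι → G) (l : ι × Bool) : G := if l.2 then y l.1 else (y l.1)⁻¹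

/-- value of a word -/
def evL (y : ι → G) (L : List (ι × Bool)) : G := (L.map (ev y)).prod

@[simp] theorem evL_nil (y : ι → G) : evL y [] = 1 := rfl

@[simp] theorem evL_cons (y : ι → G) (l : ι × Bool) (L : List (ι × Bool)) :
    evL y (l :: L) = ev y l * evL y L := by simp [evL]

@[simp] theorem evL_append (y : ι → G) (L M : List (ι × Bool)) :
    evL y (L ++ M) = evL y L * evL y M := by simp [evL]

/-- `y` is a point of the product of the cosets `g i H` -/
def Adm (H : Subgroup G) (g y : ι → G) : Prop := ∀ i, (g i)⁻¹ * y i ∈ H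

theorem Adm.evk {g y : ι → G} (h : Adm H g y) (l : ι × Bool) : ∃ k : H, ev y l = ev g l * k := by
  rcases l with ⟨i, b⟩
  cases b
  · have h1 := h i
    have h2 : (g i) * ((g i)⁻¹ * y i) * (g i)⁻¹ ∈ H :=
      Subgroup.Normal.conj_mem inferInstance _ h1 (g i)
    refine ⟨⟨g i * (y i)⁻¹, ?_⟩, ?_⟩
    · have := H.inv_mem h2
      have e : (g i * ((g i)⁻¹ * y i) * (g i)⁻¹)⁻¹ = g i * (y i)⁻¹ := by group
      rwa [e] at this
    · simp [ev]
  · exact ⟨⟨_, h i⟩, by simp [ev]⟩

theorem Adm.orb_ev {g y : ι → G} (h : Adm H g y) (l : ι × Bool) (φ : H →* Q) :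
    Orb (act (ev g l)⁻¹ φ) (act (ev y l)⁻¹ φ) := by
  obtain ⟨k, hk⟩ := h.evk l
  refine ⟨k⁻¹, ?_⟩
  rw [hk, mul_inv_rev, act_mul, Subgroup.coe_inv]

theorem Adm.orb_evL {g y : ι → G} (h : Adm H g y) (L : List (ι × Bool)) (φ : H →* Q) :
    Orb (act (evL g L)⁻¹ φ) (act (evL y L)⁻¹ φ) := by
  induction L generalizing φ with
  | nil => exact Orb.refl _
  | cons l L ih =>
    rw [evL_cons, evL_cons, mul_inv_rev, mul_inv_rev, act_mul, act_mul]
    exact (ih _).trans ((h.orb_ev l φ).mact _)

variable [DecidableEq ι]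

/-- multiply the value of the variable `v` by `k` on the right -/
def upd (y : ι → G) (v : ι) (k : G) : ι → G := Function.update y v (y v * k)

theorem ev_upd_ne {y : ι → G} {v : ι} {k : G} {l : ι × Bool} (h : l.1 ≠ v) :
    ev (upd y v k) l = ev y l := by
  simp [ev, upd, Function.update_of_ne h]

theorem evL_upd_ne {y : ι → G} {v : ι} {k : G} {L : List (ι × Bool)} (h : ∀ l ∈ L, l.1 ≠ v) :
    evL (upd y v k) L = evL y L := by
  induction L with
  | nil => rfl
  | cons l L ih =>
    rw [evL_cons, evL_cons, ev_upd_ne (h l (by simp)), ih (fun x hx => h x (by simp [hx]))]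

theorem Adm.updk {g y : ι → G} (h : Adm H g y) (v : ι) (k : H) : Adm H g (upd y v k) := by
  intro i
  by_cases hi : i = v
  · subst hi
    rw [upd, Function.update_self, ← mul_assoc]
    exact H.mul_mem (h i) k.2
  · rw [upd, Function.update_of_ne hi]
    exact h i

/-- entry attached to a letter -/
def entry (y : ι → G) (φ : H →* Q) (l : ι × Bool) : (H →* Q) × Bool :=
  if l.2 then (act (ev y l)⁻¹ φ, true) else (φ, false)

/-- the list of twisted homomorphisms attached to the occurrences of the variable `v` -/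
def psis (v : ι) (y : ι → G) : (H →* Q) → List (ι × Bool) → List ((H →* Q) × Bool)
  | _, [] => []
  | φ, l :: L =>
    if l.1 = v then entry y φ l :: psis v y (act (ev y l)⁻¹ φ) L
    else psis v y (act (ev y l)⁻¹ φ) L

/-- product of values -/
def pr (P : List ((H →* Q) × Bool)) (k : H) : Q :=
  (P.map (fun x => if x.2 then x.1 k else (x.1 k)⁻¹)).prod

@[simp] theorem pr_nil (k : H) : pr ([] : List ((H →* Q) × Bool)) k = 1 := rfl

@[simp] theorem pr_cons (x : (H →* Q) × Bool) (P : List ((H →* Q) × Bool)) (k : H) :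
    pr (x :: P) k = (if x.2 then x.1 k else (x.1 k)⁻¹) * pr P k := by simp [pr]

theorem act_inv_apply (g : G) (φ : H →* Q) (E : H) :
    act g⁻¹ φ E = φ (MulAut.conjNormal g E) := by
  rw [act_apply, inv_inv]

/-- insertion formula -/
theorem insertion (v : ι) (y : ι → G) (k : H) (L : List (ι × Bool)) (φ : H →* Q) :
    ∃ E : H, evL (upd y v k) L = E * evL y L ∧ φ E = pr (psis v y φ L) k := by
  induction L generalizing φ with
  | nil => exact ⟨1, by simp, by simp [psis]⟩
  | cons l L ih =>
    obtain ⟨E, h1, h2⟩ := ih (act (ev y l)⁻¹ φ)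
    rw [act_inv_apply] at h2
    by_cases hl : l.1 = v
    · rcases l with ⟨i, b⟩
      simp only at hl
      subst hl
      cases b
      · refine ⟨k⁻¹ * MulAut.conjNormal (ev y (i, false)) E, ?_, ?_⟩
        · rw [evL_cons, evL_cons, h1, Subgroup.coe_mul, MulAut.conjNormal_apply]
          simp only [ev, upd, Function.update_self, Subgroup.coe_inv]
          simp [mul_assoc]
        · rw [map_mul, h2, psis, if_pos rfl, pr_cons, entry]
          simp
      · refine ⟨MulAut.conjNormal (ev y (i, true)) (k * E), ?_, ?_⟩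
        · rw [evL_cons, evL_cons, h1, MulAut.conjNormal_apply, Subgroup.coe_mul]
          simp only [ev, upd, Function.update_self]
          simp [mul_assoc]
        · rw [map_mul, map_mul, h2, psis, if_pos rfl, pr_cons, entry]
          simp only [if_true]
          rw [act_inv_apply]
    · refine ⟨MulAut.conjNormal (ev y l) E, ?_, ?_⟩
      · rw [evL_cons, evL_cons, h1, ev_upd_ne hl, MulAut.conjNormal_apply]
        simp [mul_assoc]
      · rw [h2, psis, if_neg hl]

theorem fix_upd_iff (hP : PrimeGrp Q) [Nontrivial Q] {v : ι} {y : ι → G} {φ : H →* Q}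
    (hφ : Function.Surjective φ) {L : List (ι × Bool)} (h : act (evL y L) φ = φ) (k : H) :
    act (evL (upd y v k) L) φ = φ ↔ pr (psis v y φ L) k = 1 := by
  obtain ⟨E, h1, h2⟩ := insertion v y k L φ
  rw [h1, act_mul, h, act_coe_eq_iff hP hφ, h2]

theorem psis_surj {v : ι} {y : ι → G} {L : List (ι × Bool)} {φ : H →* Q}
    (hφ : Function.Surjective φ) : ∀ x ∈ psis v y φ L, Function.Surjective x.1 := by
  induction L generalizing φ with
  | nil => simp [psis]
  | cons l L ih =>
    intro x hx
    rw [psis] at hx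
    split_ifs at hx with h
    · rcases List.mem_cons.1 hx with rfl | hx
      · rw [entry]
        split_ifs
        · exact act_surj _ hφ
        · exact hφ
      · exact ih (act_surj _ hφ) x hx
    · exact ih (act_surj _ hφ) x hx

theorem psis_snd {v : ι} {y : ι → G} {L : List (ι × Bool)} {φ : H →* Q} :
    (psis v y φ L).map Prod.snd = (L.filter (fun l => l.1 = v)).map Prod.snd := by
  induction L generalizing φ with
  | nil => simp [psis]
  | cons l L ih =>
    rw [psis]
    split_ifs with h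
    · rw [List.filter_cons_of_pos (by simpa using h), List.map_cons, List.map_cons, ih]
      congr 1
      rw [entry]
      split_ifs with h2
      · simpa using h2.symm
      · simpa using h2
    · rw [List.filter_cons_of_neg (by simpa using h), ih]

theorem psis_length {v : ι} {y : ι → G} {L : List (ι × Bool)} {φ : H →* Q} :
    (psis v y φ L).length = L.countP (fun l => l.1 = v) := by
  have := congrArg List.length (psis_snd (v := v) (y := y) (L := L) (φ := φ))
  rw [List.length_map, List.length_map, ← List.countP_eq_length_filter] at this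
  exact this

end

end Pool.Agent.H32.CI
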