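import Mathlib
import Pool.Agent.H32.CI.Act

/-!
Blocks of a word between consecutive occurrences of a variable
(MP_551747_al, coset identities).
-/

set_option autoImplicit false
set_option linter.unusedSectionVars false
set_option linter.unusedSimpArgs false

namespace Pool.Agent.H32.CI

section
variable {G Q : Type*} [Group G] [Group Q] {H : Subgroup G} [H.Normal]
variable {ι : Type*} [DecidableEq ι]

/-- consecutive entries have different signs and different homomorphisms -/
def Red (P : List ((H →* Q) × Bool)) : Prop :=
  P.IsChain (fun a b => a.2 ≠ b.2 ∧ a.1 ≠ b.1)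

/-- the signs of the variable `v` alternate in the word `L` -/
def Alt (v : ι) (L : List (ι × Bool)) : Prop :=
  ((L.filter (fun l => l.1 = v)).map Prod.snd).IsChain (· ≠ ·)

/-- the interior `v`-blocks of `L` move the points reached by the path starting at `φ` -/
def NB (v : ι) (y : ι → G) (φ : H →* Q) (L : List (ι × Bool)) : Prop :=
  ∀ (u : List (ι × Bool)) (l : ι × Bool) (b : List (ι × Bool)) (l' : ι × Bool)
    (w : List (ι × Bool)), L = u ++ l :: (b ++ l' :: w) → l.1 = v → l'.1 = v →
    (∀ x ∈ b, x.1 ≠ v) →
    act (evL y b) (act (evL y (u ++ [l]))⁻¹ φ) ≠ act (evL y (u ++ [l]))⁻¹ φ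

theorem psis_append_of_ne {v : ι} {y : ι → G} {b : List (ι × Bool)} (hb : ∀ x ∈ b, x.1 ≠ v)
    (φ : H →* Q) (L : List (ι × Bool)) :
    psis v y φ (b ++ L) = psis v y (act (evL y b)⁻¹ φ) L := by
  induction b generalizing φ with
  | nil => simp
  | cons l b ih =>
    rw [List.cons_append, psis, if_neg (hb l (by simp)), ih (fun x hx => hb x (by simp [hx])),
      evL_cons, mul_inv_rev, act_mul]

theorem psis_of_ne {v : ι} {y : ι → G} {b : List (ι × Bool)} (hb : ∀ x ∈ b, x.1 ≠ v)
    (φ : H →* Q) : psis v y φ b = [] := by
  have := psis_append_of_ne (y := y) hb φ []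
  rw [List.append_nil] at this
  rw [this, psis]

theorem first_occ (v : ι) (L : List (ι × Bool)) :
    (∀ x ∈ L, x.1 ≠ v) ∨ ∃ b l w, L = b ++ l :: w ∧ (∀ x ∈ b, x.1 ≠ v) ∧ l.1 = v := by
  induction L with
  | nil => left; simp
  | cons l L ih =>
    by_cases hl : l.1 = v
    · right
      exact ⟨[], l, L, rfl, by simp, hl⟩
    · rcases ih with h | ⟨b, l', w, h1, h2, h3⟩
      · left
        intro x hx
        rcases List.mem_cons.1 hx with rfl | hx
        · exact hl
        · exact h x hx
      · right
        refine ⟨l :: b, l', w, by rw [h1]; rfl, ?_, h3⟩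
        intro x hx
        rcases List.mem_cons.1 hx with rfl | hx
        · exact hl
        · exact h2 x hx

theorem filter_of_ne {v : ι} {b : List (ι × Bool)} (hb : ∀ x ∈ b, x.1 ≠ v) :
    b.filter (fun l => l.1 = v) = [] := by
  rw [List.filter_eq_nil_iff]
  intro x hx
  simpa using hb x hx

theorem red_psis {v : ι} {y : ι → G} {φ : H →* Q} {L : List (ι × Bool)} (hA : Alt v L)
    (hN : NB v y φ L) : Red (psis v y φ L) := by
  induction L generalizing φ with
  | nil => rw [psis]; exact List.isChain_nil
  | cons l L ih =>
    have hN' : NB v y (act (ev y l)⁻¹ φ) L := by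
      intro u l1 b l2 w h1 h2 h3 h4
      have := hN (l :: u) l1 b l2 w (by rw [h1]; rfl) h2 h3 h4
      rwa [List.cons_append, evL_cons, mul_inv_rev, act_mul] at this
    by_cases hl : l.1 = v
    · have hA' : Alt v L := by
        unfold Alt at hA ⊢
        rw [List.filter_cons_of_pos (by simpa using hl), List.map_cons] at hA
        exact hA.tail
      have hR := ih hA' hN'
      rw [psis, if_pos hl]
      rcases first_occ v L with h | ⟨b, l', w, h1, h2, h3⟩
      · rw [psis_of_ne h]
        exact List.isChain_singleton _
      · have e1 : psis v y (act (ev y l)⁻¹ φ) L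
            = entry y (act (evL y b)⁻¹ (act (ev y l)⁻¹ φ)) l' ::
              psis v y (act (ev y l')⁻¹ (act (evL y b)⁻¹ (act (ev y l)⁻¹ φ))) w := by
          rw [h1, psis_append_of_ne h2, psis, if_pos h3]
        rw [e1] at hR ⊢
        refine List.IsChain.cons_cons ?_ hR
        have hs : l.2 ≠ l'.2 := by
          unfold Alt at hA
          rw [List.filter_cons_of_pos (by simpa using hl), h1, List.filter_append,
            filter_of_ne h2, List.nil_append, List.filter_cons_of_pos (by simpa using h3),
            List.map_cons, List.map_cons, List.isChain_cons_cons] at hA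
          exact hA.1
        have hne := hN [] l b l' w (by rw [h1]; rfl) hl h3 h2
        rw [List.nil_append, evL_cons, evL_nil, mul_one] at hne
        rcases l with ⟨i, s⟩
        rcases l' with ⟨i', s'⟩
        simp only at hl h3 hs
        subst hl
        subst h3
        cases s <;> cases s' <;> simp only [entry, if_true, Bool.false_eq_true, if_false]
        · exact absurd rfl hs
        · refine ⟨by simp, fun h => hne ?_⟩
          have e2 : act (ev y (i', false)) (act (ev y (i', false))⁻¹ φ) = φ := by
            rw [← act_mul, mul_inv_cancel, act_one]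
          have e3 : (ev y (i', true))⁻¹ = ev y (i', false) := by simp [ev]
          rw [e3] at h
          have h' : act (ev y (i', false)) (act (ev y (i', false))⁻¹ φ)
              = act (ev y (i', false)) (act (evL y b)⁻¹ (act (ev y (i', false))⁻¹ φ)) :=
            e2.trans h
          rw [act_inj] at h'
          exact (act_inv_eq_iff.1 h'.symm).symm
        · refine ⟨by simp, fun h => hne ?_⟩
          exact (act_inv_eq_iff.1 h.symm).symm
        · exact absurd rfl hs
    · have hA' : Alt v L := by
        unfold Alt at hA ⊢
        rwa [List.filter_cons_of_neg (by simpa using hl)] at hA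
      rw [psis, if_neg hl]
      exact ih hA' hN'

end

end Pool.Agent.H32.CI
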