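import Mathlib
import Pool.Agent.H32.CI.Block

/-!
The sets of bad values of one variable (MP_551747_al, coset identities).
-/

set_option autoImplicit false
set_option linter.unusedSectionVars false
set_option linter.unusedSimpArgs false

namespace Pool.Agent.H32.CI

open scoped Pointwise

section
variable {G Q : Type*} [Group G] [Group Q] {H : Subgroup G} [H.Normal]

theorem small_pr (hP : PrimeGrp Q) [Infinite Q] {P : List ((H →* Q) × Bool)} (hR : Red P)
    (hs : ∀ x ∈ P, Function.Surjective x.1) (h1 : 1 ≤ P.length) (h2 : P.length ≤ 2) :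
    Small {k | pr P k = 1} := by
  match P, h1, h2, hR, hs with
  | [(a, s)], _, _, _, hs =>
    refine (small_subgroup (ker_not_finiteIndex (hs (a, s) (by simp)))).mono ?_
    intro k hk
    have hk' : pr [(a, s)] k = 1 := hk
    rw [pr_cons, pr_nil, mul_one] at hk'
    cases s
    · simpa using hk'
    · simpa using hk'
  | [(a, s), (b, t)], _, _, hR, hs =>
    have hR' := (List.isChain_cons_cons.1 hR).1
    have hne : ¬ (MonoidHom.eqLocus a b).FiniteIndex := fun h =>
      hR'.2 (hP.eqLocus (hs (a, s) (by simp)) h)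
    refine (small_subgroup hne).mono ?_
    intro k hk
    have hk' : pr [(a, s), (b, t)] k = 1 := hk
    rw [pr_cons, pr_cons, pr_nil, mul_one] at hk'
    change a k = b k
    cases s <;> cases t
    · exact absurd rfl hR'.1
    · simp only [Bool.false_eq_true, if_false, if_true] at hk'
      exact inv_mul_eq_one.1 hk'
    · simp only [Bool.false_eq_true, if_false, if_true] at hk'
      exact mul_inv_eq_one.1 hk'
    · exact absurd rfl hR'.1

theorem three_pr (hP : PrimeGrp Q) [Infinite Q] {P : List ((H →* Q) × Bool)} (hR : Red P)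
    (hs : ∀ x ∈ P, Function.Surjective x.1) (h3 : P.length = 3) {T : Set H} (hT : Small T) :
    ∃ k, k ∉ T ∧ pr P k ≠ 1 := by
  by_contra hcon
  push Not at hcon
  match P, h3, hR, hs, hcon with
  | [(a, s), (b, t), (c, r)], _, hR, hs, hcon =>
    have h1 := List.isChain_cons_cons.1 hR
    have h2 := List.isChain_cons_cons.1 h1.2
    have hst : s ≠ t := h1.1.1
    have htr : t ≠ r := h2.1.1
    have ha := hs (a, s) (by simp)
    have hc := hs (c, r) (by simp)
    cases s <;> cases t <;> cases r <;> simp only [ne_eq, not_true_eq_false] at hst htr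
    · exact alt_three' hP ha hc hT (ψ₂ := b) (fun k hk => by
        have := hcon k hk
        simpa [mul_assoc] using this)
    · exact alt_three hP ha hc hT (ψ₂ := b) (fun k hk => by
        have := hcon k hk
        simpa [mul_assoc] using this)

theorem four_pr (hP : PrimeGrp Q) {P : List ((H →* Q) × Bool)} (hR : Red P)
    (hs : ∀ x ∈ P, Function.Surjective x.1) (h4 : P.length = 4) :
    ∃ k, pr P k ≠ 1 := by
  by_contra hcon
  push Not at hcon
  match P, h4, hR, hs, hcon with
  | [(a, s), (b, t), (c, r), (d, q)], _, hR, hs, hcon =>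
    have h1 := List.isChain_cons_cons.1 hR
    have h2 := List.isChain_cons_cons.1 h1.2
    have h3 := List.isChain_cons_cons.1 h2.2
    have hst : s ≠ t := h1.1.1
    have htr : t ≠ r := h2.1.1
    have hrq : r ≠ q := h3.1.1
    have hab : a ≠ b := h1.1.2
    have hbc : b ≠ c := h2.1.2
    have ha := hs (a, s) (by simp)
    have key : ∀ k, (a k)⁻¹ * b k * (c k)⁻¹ * d k = 1 := by
      intro k
      cases s <;> cases t <;> cases r <;> cases q <;>
        simp only [ne_eq, not_true_eq_false] at hst htr hrq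
      · have := hcon k
        simpa [mul_assoc] using this
      · have := hcon k⁻¹
        simpa [mul_assoc] using this
    rcases alt_four hP ha key with h | h
    · exact hab h
    · exact hbc h

variable {ι : Type*} [DecidableEq ι]

theorem upd_upd (y : ι → G) (v : ι) (k l : G) : upd (upd y v k) v l = upd y v (k * l) := by
  unfold upd
  rw [Function.update_idem, Function.update_self, mul_assoc]

theorem adm_self_upd (y : ι → G) (v : ι) (k : H) : Adm H y (upd y v k) := by
  intro i
  by_cases hi : i = v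
  · subst hi
    rw [upd, Function.update_self]
    simp
  · rw [upd, Function.update_of_ne hi]
    simp

theorem NB.upd {v : ι} {y : ι → G} {φ : H →* Q} {L : List (ι × Bool)} (h : NB v y φ L) (k : H) :
    NB v (CI.upd y v k) φ L := by
  intro u l b l' w h1 h2 h3 h4 h5
  have ho := (adm_self_upd (H := H) y v k).orb_evL (u ++ [l]) φ
  rw [evL_upd_ne h4] at h5
  exact h u l b l' w h1 h2 h3 h4 (ho.fix_iff.2 h5)

theorem fix_eq (hP : PrimeGrp Q) [Infinite Q] {v : ι} {y : ι → G} {φ : H →* Q}
    (hφ : Function.Surjective φ) {L : List (ι × Bool)} {k₀ : H}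
    (h : act (evL (upd y v k₀) L) φ = φ) (k : H) :
    act (evL (upd y v k) L) φ = φ ↔ pr (psis v (upd y v k₀) φ L) (k₀⁻¹ * k) = 1 := by
  rw [← fix_upd_iff hP hφ h, upd_upd, ← Subgroup.coe_mul, mul_inv_cancel_left]

theorem fix_small (hP : PrimeGrp Q) [Infinite Q] {v : ι} {y : ι → G} {φ : H →* Q}
    (hφ : Function.Surjective φ) {L : List (ι × Bool)} (hA : Alt v L) (hN : NB v y φ L)
    (h1 : 1 ≤ L.countP (fun l => l.1 = v)) (h2 : L.countP (fun l => l.1 = v) ≤ 2) :
    Small {k : H | act (evL (upd y v k) L) φ = φ} := by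
  by_cases hne : ∃ k₀ : H, act (evL (upd y v k₀) L) φ = φ
  · obtain ⟨k₀, hk⟩ := hne
    have hR := red_psis hA (hN.upd k₀)
    have hsm := (small_pr hP hR (psis_surj hφ) (by rw [psis_length]; exact h1)
      (by rw [psis_length]; exact h2)).smul k₀
    refine hsm.mono ?_
    intro k hk'
    rw [Set.mem_smul_set_iff_inv_smul_mem]
    exact (fix_eq hP hφ hk k).1 hk'
  · refine small_empty.mono ?_
    intro k hk
    exact absurd ⟨k, hk⟩ hne

theorem fix_three (hP : PrimeGrp Q) [Infinite Q] [Infinite H] {v : ι} {y : ι → G} {φ : H →* Q}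
    (hφ : Function.Surjective φ) {L : List (ι × Bool)} (hA : Alt v L) (hN : NB v y φ L)
    (h3 : L.countP (fun l => l.1 = v) = 3) {T : Set H} (hT : Small T) :
    ∃ k : H, k ∉ T ∧ act (evL (upd y v k) L) φ ≠ φ := by
  by_cases hne : ∃ k₀ : H, act (evL (upd y v k₀) L) φ = φ
  · obtain ⟨k₀, hk⟩ := hne
    have hR := red_psis hA (hN.upd k₀)
    obtain ⟨k, hkT, hk1⟩ := three_pr hP hR (psis_surj hφ) (by rw [psis_length]; exact h3)
      (hT.smul k₀⁻¹)
    refine ⟨k₀ * k, ?_, ?_⟩
    · intro h
      apply hkT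
      rw [Set.mem_smul_set_iff_inv_smul_mem, inv_inv]
      exact h
    · intro h
      apply hk1
      have := (fix_eq hP hφ hk (k₀ * k)).1 h
      rwa [inv_mul_cancel_left] at this
  · have : ∃ k, k ∉ T := by
      by_contra hcon
      push Not at hcon
      exact not_small_univ (hT.mono (fun k _ => hcon k))
    obtain ⟨k, hk⟩ := this
    exact ⟨k, hk, fun h => hne ⟨k, h⟩⟩

theorem fix_four (hP : PrimeGrp Q) [Infinite Q] {v : ι} {y : ι → G} {φ : H →* Q}
    (hφ : Function.Surjective φ) {L : List (ι × Bool)} (hA : Alt v L) (hN : NB v y φ L)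
    (h4 : L.countP (fun l => l.1 = v) = 4) :
    ∃ k : H, act (evL (upd y v k) L) φ ≠ φ := by
  by_cases hne : ∃ k₀ : H, act (evL (upd y v k₀) L) φ = φ
  · obtain ⟨k₀, hk⟩ := hne
    have hR := red_psis hA (hN.upd k₀)
    obtain ⟨k, hk1⟩ := four_pr hP hR (psis_surj hφ) (by rw [psis_length]; exact h4)
    refine ⟨k₀ * k, ?_⟩
    intro h
    apply hk1
    have := (fix_eq hP hφ hk (k₀ * k)).1 h
    rwa [inv_mul_cancel_left] at this
  · exact ⟨1, fun h => hne ⟨1, h⟩⟩

end

end Pool.Agent.H32.CI
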