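import Mathlib
import Pool.Agent.H32.CI.Sets

/-!
Choosing the variables one at a time: alternating words with at most four occurrences of each
variable move the starting point (MP_551747_al, coset identities).
-/

set_option autoImplicit false
set_option linter.unusedSectionVars false
set_option linter.unusedSimpArgs false

namespace Pool.Agent.H32.CI

section blocks
variable {α : Type*} (p : α → Bool)

/-- split a list at the letters satisfying `p` (the separators are dropped) -/
def blocks : List α → List (List α)
  | [] => [[]]
  | x :: L => if p x then [] :: blocks L else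
      match blocks L with
      | [] => [[x]]
      | b :: bs => (x :: b) :: bs

theorem blocks_ne_nil (L : List α) : blocks p L ≠ [] := by
  cases L with
  | nil => simp [blocks]
  | cons x L =>
    rw [blocks]
    split_ifs
    · simp
    · split <;> simp

theorem blocks_cons_of_not {x : α} (h : ¬ p x = true) (L : List α) :
    ∃ b bs, blocks p L = b :: bs ∧ blocks p (x :: L) = (x :: b) :: bs := by
  rcases hb : blocks p L with _ | ⟨b, bs⟩
  · exact absurd hb (blocks_ne_nil p L)
  · exact ⟨b, bs, rfl, by rw [blocks, if_neg h, hb]⟩

theorem blocks_cons_of_pos {x : α} (h : p x = true) (L : List α) :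
    blocks p (x :: L) = [] :: blocks p L := by rw [blocks, if_pos h]

theorem blocks_head_append {b w : List α} {l : α} (hb : ∀ x ∈ b, ¬ p x = true)
    (hl : p l = true) : blocks p (b ++ l :: w) = b :: blocks p w := by
  induction b with
  | nil => rw [List.nil_append, blocks_cons_of_pos p hl]
  | cons x b ih =>
    have ih' := ih (fun z hz => hb z (by simp [hz]))
    obtain ⟨b', bs, h1, h2⟩ := blocks_cons_of_not p (hb x (by simp)) (b ++ l :: w)
    rw [ih'] at h1
    simp only [List.cons.injEq] at h1
    rw [List.cons_append, h2, ← h1.1, ← h1.2]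

theorem mem_blocks_tail {u b w : List α} {l l' : α} (hb : ∀ x ∈ b, ¬ p x = true)
    (hl : p l = true) (hl' : p l' = true) :
    b ∈ (blocks p (u ++ l :: (b ++ l' :: w))).tail := by
  induction u with
  | nil =>
    rw [List.nil_append, blocks_cons_of_pos p hl, blocks_head_append p hb hl']
    simp
  | cons x u ih =>
    rw [List.cons_append]
    by_cases hx : p x = true
    · rw [blocks_cons_of_pos p hx, List.tail_cons]
      exact List.mem_of_mem_tail ih
    · obtain ⟨b', bs, h1, h2⟩ := blocks_cons_of_not p hx (u ++ l :: (b ++ l' :: w))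
      rw [h2, List.tail_cons]
      rw [h1, List.tail_cons] at ih
      exact ih

theorem mem_blocks {u b w : List α} {l l' : α} (hb : ∀ x ∈ b, ¬ p x = true)
    (hl : p l = true) (hl' : p l' = true) :
    b ∈ blocks p (u ++ l :: (b ++ l' :: w)) :=
  List.mem_of_mem_tail (mem_blocks_tail p hb hl hl')

theorem blocks_of_not {L : List α} (h : ∀ x ∈ L, ¬ p x = true) : blocks p L = [L] := by
  induction L with
  | nil => rw [blocks]
  | cons x L ih =>
    obtain ⟨b, bs, h1, h2⟩ := blocks_cons_of_not p (h x (by simp)) L
    rw [ih (fun z hz => h z (by simp [hz]))] at h1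
    simp only [List.cons.injEq] at h1
    rw [h2, ← h1.1, ← h1.2]

theorem blocks_infix (L : List α) :
    (∀ b bs, blocks p L = b :: bs → b <+: L) ∧ ∀ b ∈ blocks p L, b <:+: L := by
  induction L with
  | nil =>
    constructor
    · intro b bs h
      rw [blocks] at h
      simp only [List.cons.injEq] at h
      rw [← h.1]
    · intro b hb
      rw [blocks] at hb
      rw [List.mem_singleton.1 hb]
  | cons x L ih =>
    by_cases hx : p x = true
    · rw [blocks_cons_of_pos p hx]
      constructor
      · intro b bs h
        simp only [List.cons.injEq] at h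
        rw [← h.1]
        exact List.nil_prefix
      · intro b hb
        rcases List.mem_cons.1 hb with rfl | hb
        · exact List.nil_infix
        · exact (ih.2 b hb).trans (List.suffix_cons x L).isInfix
    · obtain ⟨b', bs', h1, h2⟩ := blocks_cons_of_not p hx L
      have hp := ih.1 b' bs' h1
      rw [h2]
      constructor
      · intro b bs h
        simp only [List.cons.injEq] at h
        rw [← h.1]
        exact (List.prefix_cons_inj x).2 hp
      · intro b hb
        rcases List.mem_cons.1 hb with rfl | hb
        · exact ((List.prefix_cons_inj x).2 hp).isInfix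
        · exact (ih.2 b (by rw [h1]; simp [hb])).trans (List.suffix_cons x L).isInfix

theorem blocks_not (L : List α) : ∀ b ∈ blocks p L, ∀ x ∈ b, ¬ p x = true := by
  induction L with
  | nil =>
    intro b hb
    rw [blocks] at hb
    rw [List.mem_singleton.1 hb]
    simp
  | cons y L ih =>
    by_cases hy : p y = true
    · rw [blocks_cons_of_pos p hy]
      intro b hb
      rcases List.mem_cons.1 hb with rfl | hb
      · simp
      · exact ih b hb
    · obtain ⟨b', bs', h1, h2⟩ := blocks_cons_of_not p hy L
      rw [h2]
      intro b hb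
      rcases List.mem_cons.1 hb with rfl | hb
      · intro x hx
        rcases List.mem_cons.1 hx with rfl | hx
        · exact hy
        · exact ih b' (by rw [h1]; simp) x hx
      · exact ih b (by rw [h1]; simp [hb])

theorem blocks_count (q : α → Bool) (L : List α) :
    ((blocks p L).map (fun b => b.countP q)).sum ≤ L.countP q := by
  induction L with
  | nil => rw [blocks]; simp
  | cons y L ih =>
    by_cases hy : p y = true
    · rw [blocks_cons_of_pos p hy, List.map_cons, List.sum_cons, List.countP_nil, zero_add]
      exact ih.trans (List.Sublist.countP_le (List.sublist_cons_self y L))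
    · obtain ⟨b', bs', h1, h2⟩ := blocks_cons_of_not p hy L
      rw [h1, List.map_cons, List.sum_cons] at ih
      rw [h2, List.map_cons, List.sum_cons, List.countP_cons, List.countP_cons]
      omega

/-- the nonempty blocks of all the members of a family -/
def fam (A : List (List α)) : List (List α) :=
  A.flatMap (fun a => (blocks p a).filter (fun b => !b.isEmpty))

theorem mem_fam {A : List (List α)} {b : List α} :
    b ∈ fam p A ↔ ∃ a ∈ A, b ∈ blocks p a ∧ b ≠ [] := by
  simp [fam, List.mem_flatMap, List.isEmpty_iff]

theorem sum_filter_le (q : α → Bool) (r : List α → Bool) (B : List (List α)) :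
    ((B.filter r).map (fun b => b.countP q)).sum ≤ (B.map (fun b => b.countP q)).sum := by
  induction B with
  | nil => simp
  | cons b B ih =>
    rw [List.filter_cons]
    split_ifs
    · rw [List.map_cons, List.map_cons, List.sum_cons, List.sum_cons]
      omega
    · rw [List.map_cons, List.sum_cons]
      omega

theorem fam_count (q : α → Bool) (A : List (List α)) :
    ((fam p A).map (fun b => b.countP q)).sum ≤ (A.map (fun b => b.countP q)).sum := by
  induction A with
  | nil => simp [fam]
  | cons a A ih =>
    have h1 : fam p (a :: A) = (blocks p a).filter (fun b => !b.isEmpty) ++ fam p A := by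
      simp [fam]
    rw [h1, List.map_append, List.sum_append, List.map_cons, List.sum_cons]
    have h2 := sum_filter_le q (fun b => !b.isEmpty) (blocks p a)
    have h3 := blocks_count p q a
    omega

end blocks

section
variable {G Q : Type*} [Group G] [Group Q] {H : Subgroup G} [H.Normal]
variable {ι : Type*} [DecidableEq ι]

/-- consecutive letters do not cancel, and the attached points are coherent up to `H` -/
def Rel (H : Subgroup G) [H.Normal] (g : ι → G) (x y : (ι × Bool) × (H →* Q)) : Prop :=
  (x.1.1 = y.1.1 → x.1.2 = y.1.2) ∧ Orb (act (ev g x.1)⁻¹ x.2) y.2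

/-- the member `a` of a family moves its starting point -/
def Moves (y : ι → G) (a : List ((ι × Bool) × (H →* Q))) : Prop :=
  ∀ x t, a = x :: t → act (evL y (a.map Prod.fst)) x.2 ≠ x.2

/-- conditions on a member of a family -/
structure Mem (g : ι → G) (a : List ((ι × Bool) × (H →* Q))) : Prop where
  ne : a ≠ []
  chain : a.IsChain (Rel H g)
  surj : ∀ x ∈ a, Function.Surjective x.2
  alt : ∀ v, Alt v (a.map Prod.fst)

theorem chain_inf {α : Type*} {R : α → α → Prop} {L M : List α} (h : M.IsChain R)
    (h' : L <:+: M) : L.IsChain R := by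
  rcases h' with ⟨s, t, rfl⟩
  exact h.left_of_append.right_of_append

theorem red_inf {α : Type*} {L M : List (α × Bool)} (h : FreeGroup.IsReduced M)
    (h' : L <:+: M) : FreeGroup.IsReduced L := chain_inf h h'

theorem Alt.inf {v : ι} {L M : List (ι × Bool)} (h : Alt v M) (hLM : L <:+: M) : Alt v L := by
  unfold Alt at h ⊢
  exact chain_inf h ((hLM.filter _).map _)

theorem Mem.inf {g : ι → G} {a b : List ((ι × Bool) × (H →* Q))} (h : Mem g a)
    (hb : b <:+: a) (hne : b ≠ []) : Mem g b :=
  ⟨hne, chain_inf h.chain hb, fun x hx => h.surj x (hb.subset hx),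
    fun v => (h.alt v).inf (hb.map _)⟩

theorem coherent {g y : ι → G} (hy : Adm H g y) {u w : List ((ι × Bool) × (H →* Q))}
    {x z : (ι × Bool) × (H →* Q)} {t : List ((ι × Bool) × (H →* Q))}
    (h : (x :: t).IsChain (Rel H g)) (he : x :: t = u ++ z :: w) :
    Orb (act (evL y (u.map Prod.fst))⁻¹ x.2) z.2 := by
  induction u generalizing x t with
  | nil =>
    rw [List.nil_append] at he
    simp only [List.cons.injEq] at he
    rw [he.1]
    simpa using Orb.refl z.2
  | cons x' u ih =>
    rw [List.cons_append] at he
    simp only [List.cons.injEq] at he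
    obtain ⟨h1, h2⟩ := he
    subst h1
    rcases t with _ | ⟨x1, t1⟩
    · exact absurd h2 (by simp)
    · have h3 := List.isChain_cons_cons.1 h
      have h4 := ih h3.2 h2
      rw [List.map_cons, evL_cons, mul_inv_rev, act_mul]
      have h5 : Orb (act (ev y x.1)⁻¹ x.2) x1.2 := (hy.orb_ev x.1 x.2).symm.trans h3.1.2
      exact (h5.mact _).trans h4

/-- the number of occurrences of `v` -/
abbrev cn (v : ι) (a : List ((ι × Bool) × (H →* Q))) : ℕ := a.countP (fun x => x.1.1 = v)

theorem cn_eq (v : ι) (a : List ((ι × Bool) × (H →* Q))) :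
    (a.map Prod.fst).countP (fun l => l.1 = v) = cn v a := by
  rw [List.countP_map]
  rfl

theorem nb_of_fam {g y : ι → G} (hy : Adm H g y) {v : ι} {x : (ι × Bool) × (H →* Q)}
    {t : List ((ι × Bool) × (H →* Q))} (hm : Mem g (x :: t))
    (h : ∀ b ∈ blocks (fun x : (ι × Bool) × (H →* Q) => decide (x.1.1 = v)) (x :: t),
      b ≠ [] → Moves y b) : NB v y x.2 ((x :: t).map Prod.fst) := by
  intro u l b l' w h1 h2 h3 h4 h5
  obtain ⟨U, R1, e1, rfl, e2⟩ := List.map_eq_append_iff.1 h1
  obtain ⟨ell, R2, e3, rfl, e4⟩ := List.map_eq_cons_iff.1 e2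
  obtain ⟨B, R3, e5, rfl, e6⟩ := List.map_eq_append_iff.1 e4
  obtain ⟨ell', W, e7, rfl, rfl⟩ := List.map_eq_cons_iff.1 e6
  subst e7 e5 e3
  have hmem := mem_blocks (fun x : (ι × Bool) × (H →* Q) => decide (x.1.1 = v)) (u := U) (b := B)
    (w := W) (l := ell) (l' := ell') (fun z hz => by
      simpa using h4 z.1 (List.mem_map_of_mem hz)) (by simpa using h2) (by simpa using h3)
  rw [← e1] at hmem
  have hB : B ≠ [] := by
    rintro rfl
    have hinf : [ell, ell'] <:+: x :: t := ⟨U, W, by rw [e1]; simp⟩
    have hc := List.isChain_cons_cons.1 (chain_inf hm.chain hinf)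
    have ha := (hm.alt v).inf (hinf.map Prod.fst)
    unfold Alt at ha
    rw [List.map_cons, List.map_cons, List.map_nil, List.filter_cons_of_pos (by simpa using h2),
      List.filter_cons_of_pos (by simpa using h3), List.filter_nil, List.map_cons, List.map_cons,
      List.isChain_cons_cons] at ha
    exact ha.1 (hc.1.1 (h2.trans h3.symm))
  have hmv := h B hmem hB
  obtain ⟨b0, B', rfl⟩ := List.exists_cons_of_ne_nil hB
  have hco := coherent (y := y) hy (u := U ++ [ell]) (z := b0) (w := B' ++ ell' :: W) hm.chain
    (by rw [e1]; simp)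
  rw [List.map_append, List.map_cons, List.map_nil] at hco
  exact hmv b0 B' rfl (hco.fix h5)

/-- all members of a finite family with few occurrences of each variable can be moved at once -/
theorem claimD (hP : PrimeGrp Q) [Infinite Q] [Infinite H] (g : ι → G) (vs : List ι) :
    ∀ (A : List (List ((ι × Bool) × (H →* Q)))), (∀ a ∈ A, Mem g a) →
      (∀ a ∈ A, ∀ x ∈ a, x.1.1 ∈ vs) → (∀ v, (A.map (cn v)).sum ≤ 4) →
      ∃ y, Adm H g y ∧ ∀ a ∈ A, Moves y a := by
  induction vs with
  | nil =>
    intro A h1 h2 _
    refine ⟨g, fun i => by simp, ?_⟩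
    intro a ha x t hx
    have := h2 a ha x (by rw [hx]; simp)
    simp at this
  | cons v vs ih =>
    intro A h1 h2 h3
    set p : (ι × Bool) × (H →* Q) → Bool := fun x => decide (x.1.1 = v) with hp
    obtain ⟨y, hy, hmv⟩ := ih (fam p A) (by
      intro b hb
      obtain ⟨a, ha, hba, hne⟩ := (mem_fam p).1 hb
      exact (h1 a ha).inf ((blocks_infix p a).2 b hba) hne) (by
      intro b hb x hx
      obtain ⟨a, ha, hba, hne⟩ := (mem_fam p).1 hb
      have h4 := blocks_not p a b hba x hx
      have h5 := h2 a ha x (((blocks_infix p a).2 b hba).subset hx)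
      rcases List.mem_cons.1 h5 with h6 | h6
      · exact absurd (by simpa [hp] using h6) h4
      · exact h6) (fun u => (fam_count p _ A).trans (h3 u))
    have hmv' : ∀ a ∈ A, ∀ b ∈ blocks p a, b ≠ [] → Moves y b := fun a ha b hb hne =>
      hmv b ((mem_fam p).2 ⟨a, ha, hb, hne⟩)
    -- bad sets
    have hS0 : ∀ a ∈ A, cn v a = 0 → ∀ k : H, Moves (upd y v k) a := by
      intro a ha hc k
      have hnv : ∀ x ∈ a, ¬ p x = true := by
        intro x hx
        exact List.countP_eq_zero.1 hc x hx
      have hb := hmv' a ha a (by rw [blocks_of_not p hnv]; simp) (h1 a ha).ne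
      intro x t hx
      have := hb x t hx
      rwa [evL_upd_ne (fun l hl => by
        obtain ⟨z, hz, rfl⟩ := List.mem_map.1 hl
        simpa [hp] using hnv z hz)]
    have hS : ∀ a ∈ A, ∃ x t, a = x :: t ∧ Function.Surjective x.2 ∧
        Alt v (a.map Prod.fst) ∧ NB v y x.2 (a.map Prod.fst) := by
      intro a ha
      obtain ⟨x, t, rfl⟩ := List.exists_cons_of_ne_nil (h1 a ha).ne
      exact ⟨x, t, rfl, (h1 _ ha).surj x (by simp), (h1 _ ha).alt v,
        nb_of_fam hy (h1 _ ha) (hmv' _ ha)⟩
    have hS12 : ∀ a ∈ A, cn v a ≤ 2 → Small {k : H | ¬ Moves (upd y v k) a} := by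
      intro a ha hc
      rcases Nat.eq_zero_or_pos (cn v a) with h0 | h0
      · refine small_empty.mono ?_
        intro k hk
        exact absurd (hS0 a ha h0 k) hk
      · obtain ⟨x, t, hxt, hs, hA, hN⟩ := hS a ha
        have := fix_small hP hs hA hN (by rw [cn_eq]; exact h0) (by rw [cn_eq]; exact hc)
        refine this.mono ?_
        intro k hk
        by_contra hcon
        apply hk
        intro x' t' hx'
        rw [hxt] at hx'
        simp only [List.cons.injEq] at hx'
        rw [← hx'.1]
        exact hcon
    have hsmall : ∀ B : List (List ((ι × Bool) × (H →* Q))), (∀ a ∈ B, a ∈ A ∧ cn v a ≤ 2) →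
        Small {k : H | ∃ a ∈ B, ¬ Moves (upd y v k) a} := by
      intro B
      induction B with
      | nil =>
        intro _
        refine small_empty.mono ?_
        rintro k ⟨a, ha, _⟩
        simp at ha
      | cons a B ihB =>
        intro hB
        refine ((hS12 a (hB a (by simp)).1 (hB a (by simp)).2).union
          (ihB (fun a' ha' => hB a' (by simp [ha'])))).mono ?_
        rintro k ⟨a', ha', hk⟩
        rcases List.mem_cons.1 ha' with rfl | ha'
        · exact Or.inl hk
        · exact Or.inr ⟨a', ha', hk⟩
    have hexk : ∃ k : H, ∀ a ∈ A, Moves (upd y v k) a := by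
      by_cases hbig : ∃ a ∈ A, 3 ≤ cn v a
      · obtain ⟨a, ha, hca⟩ := hbig
        obtain ⟨A1, A2, rfl⟩ := List.append_of_mem ha
        have hsum := h3 v
        rw [List.map_append, List.map_cons, List.sum_append, List.sum_cons] at hsum
        have hrest : ∀ a' ∈ A1 ++ A2, cn v a' + cn v a ≤ 4 := by
          intro a' ha'
          rcases List.mem_append.1 ha' with h | h
          · have := List.single_le_sum (l := A1.map (cn v)) (fun _ _ => Nat.zero_le _) _
              (List.mem_map_of_mem h)
            omega
          · have := List.single_le_sum (l := A2.map (cn v)) (fun _ _ => Nat.zero_le _) _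
              (List.mem_map_of_mem h)
            omega
        have hmemA : ∀ a' ∈ A1 ++ A2, a' ∈ A1 ++ a :: A2 := by
          intro a' ha'
          rcases List.mem_append.1 ha' with h | h
          · exact List.mem_append_left _ h
          · exact List.mem_append_right _ (List.mem_cons_of_mem _ h)
        obtain ⟨x, t, hxt, hs, hA, hN⟩ := hS a ha
        have hmoves : ∀ k : H, act (evL (upd y v k) (a.map Prod.fst)) x.2 ≠ x.2 →
            Moves (upd y v k) a := by
          intro k hk x' t' hx'
          rw [hxt] at hx'
          simp only [List.cons.injEq] at hx'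
          rw [← hx'.1]
          exact hk
        have hall : ∀ k : H, Moves (upd y v k) a → (∀ a' ∈ A1 ++ A2, Moves (upd y v k) a') →
            ∀ a' ∈ A1 ++ a :: A2, Moves (upd y v k) a' := by
          intro k hk1 hk2 a' ha'
          rcases List.mem_append.1 ha' with h | h
          · exact hk2 a' (List.mem_append_left _ h)
          · rcases List.mem_cons.1 h with rfl | h
            · exact hk1
            · exact hk2 a' (List.mem_append_right _ h)
        have hle4 : cn v a ≤ 4 := by omega
        rcases Nat.lt_or_ge (cn v a) 4 with h34 | h34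
        · obtain ⟨k, hk1, hk2⟩ := fix_three hP hs hA hN (by rw [cn_eq]; omega)
            (hsmall (A1 ++ A2) (fun a' ha' => ⟨hmemA a' ha', by have := hrest a' ha'; omega⟩))
          refine ⟨k, hall k (hmoves k hk2) ?_⟩
          intro a' ha'
          by_contra hcon
          exact hk1 ⟨a', ha', hcon⟩
        · obtain ⟨k, hk⟩ := fix_four hP hs hA hN (by rw [cn_eq]; omega)
          refine ⟨k, hall k (hmoves k hk) ?_⟩
          intro a' ha'
          exact hS0 a' (hmemA a' ha') (by have := hrest a' ha'; omega) k
      · push Not at hbig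
        have := hsmall A (fun a ha => ⟨ha, by have := hbig a ha; omega⟩)
        by_contra hcon
        push Not at hcon
        exact not_small_univ (this.mono (fun k _ => hcon k))
    obtain ⟨k, hk⟩ := hexk
    exact ⟨upd y v k, hy.updk v k, hk⟩

end

end Pool.Agent.H32.CI
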