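import Mathlib
import Pool.Agent.H32.CI.Act

/-!
Sign patterns that do not alternate (MP_551747_al, coset identities).
-/

set_option autoImplicit false
set_option linter.unusedSectionVars false
set_option linter.unusedSimpArgs false

namespace Pool.Agent.H32.CI

section
variable {G Q : Type*} [Group G] [Group Q] {H : Subgroup G} [H.Normal]

/-- all first components are surjective -/
def Sj (P : List ((H →* Q) × Bool)) : Prop := ∀ x ∈ P, Function.Surjective x.1

/-- the product of `P` is trivial at every `k` only if the entries `j` and `j+1`, of opposite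
signs, carry the same homomorphism; or it is never trivial -/
def Concl (Q : Type*) [Group Q] (H : Subgroup G) (σ : List Bool) : Prop :=
  (∀ P : List ((H →* Q) × Bool), P.map Prod.snd = σ → Sj P → ¬ ∀ k, pr P k = 1) ∨
  ∃ (j : ℕ) (s : Bool), σ[j]? = some s ∧ σ[j + 1]? = some (!s) ∧
    ∀ P : List ((H →* Q) × Bool), P.map Prod.snd = σ → Sj P → (∀ k, pr P k = 1) →
      ∃ a, P[j]? = some (a, s) ∧ P[j + 1]? = some (a, !s)

theorem map_snd_two {P : List ((H →* Q) × Bool)} {s t : Bool} (h : P.map Prod.snd = [s, t]) :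
    ∃ a b, P = [(a, s), (b, t)] := by
  match P, h with
  | [(a, s'), (b, t')], h =>
    simp only [List.map_cons, List.map_nil, List.cons.injEq, and_true] at h
    obtain ⟨rfl, rfl⟩ := h
    exact ⟨a, b, rfl⟩

theorem map_snd_three {P : List ((H →* Q) × Bool)} {s t r : Bool}
    (h : P.map Prod.snd = [s, t, r]) : ∃ a b c, P = [(a, s), (b, t), (c, r)] := by
  match P, h with
  | [(a, s'), (b, t'), (c, r')], h =>
    simp only [List.map_cons, List.map_nil, List.cons.injEq, and_true] at h
    obtain ⟨rfl, rfl, rfl⟩ := h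
    exact ⟨a, b, c, rfl⟩

theorem map_snd_four {P : List ((H →* Q) × Bool)} {s t r q : Bool}
    (h : P.map Prod.snd = [s, t, r, q]) : ∃ a b c d, P = [(a, s), (b, t), (c, r), (d, q)] := by
  match P, h with
  | [(a, s'), (b, t'), (c, r'), (d, q')], h =>
    simp only [List.map_cons, List.map_nil, List.cons.injEq, and_true] at h
    obtain ⟨rfl, rfl, rfl, rfl⟩ := h
    exact ⟨a, b, c, d, rfl⟩

theorem eq_of_mul_inv {a b c : Q} (h : a * b * c⁻¹ = 1) : a * b = c := mul_inv_eq_one.1 h

theorem nonalt_two (hP : PrimeGrp Q) [Nontrivial Q] (s : Bool) :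
    Concl Q H [s, s] := by
  left
  intro P h hs hk
  obtain ⟨a, b, rfl⟩ := map_snd_two h
  have ha := hs (a, s) (by simp)
  have hb := hs (b, s) (by simp)
  cases s
  · refine no_two hP (ψ₁ := b) (ψ₂ := a) hb (fun k => ?_)
    have := hk k
    simp only [pr_cons, pr_nil, Bool.false_eq_true, if_false, mul_one] at this
    rw [← mul_inv_rev] at this
    exact inv_eq_one.1 this
  · refine no_two hP (ψ₁ := a) (ψ₂ := b) ha (fun k => ?_)
    have := hk k
    simpa only [pr_cons, pr_nil, if_true, mul_one] using this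

theorem nonalt_three_never (hP : PrimeGrp Q) [Nontrivial Q] (s t r : Bool)
    (hna : ¬ (s ≠ t ∧ t ≠ r)) (P : List ((H →* Q) × Bool)) (h : P.map Prod.snd = [s, t, r])
    (hs : Sj P) (hk : ∀ k, pr P k = 1) : False := by
  obtain ⟨a, b, c, rfl⟩ := map_snd_three h
  have ha : Function.Surjective a := hs (a, s) (by simp)
  have hb : Function.Surjective b := hs (b, t) (by simp)
  have hc : Function.Surjective c := hs (c, r) (by simp)
  simp only [pr_cons, pr_nil, mul_one] at hk
  clear h hs
  cases s <;> cases t <;> cases r <;> first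
    | (exfalso; apply hna; decide)
    | skip
  all_goals simp only [Bool.false_eq_true, if_true, if_false] at hk
  · -- fff : c b a = 1
    refine no_three_one hP (ψ₁ := c) (ψ₂ := b) (ψ₃ := a) hc (fun k => ?_)
    have := hk k
    rw [← inv_inj, inv_one]
    rw [← this]
    group
  · -- fft : a⁻¹ b⁻¹ c = 1
    refine no_prod_two hP (ψ₁ := b) (ψ₂ := a) (ψ₃ := c) hb ha (fun k => ?_)
    have := hk k
    have e : c k = (b k * a k) * ((a k)⁻¹ * ((b k)⁻¹ * c k)) := by group
    rw [e, this, mul_one]
  · -- ftt : a⁻¹ b c = 1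
    refine no_prod_two hP (ψ₁ := b) (ψ₂ := c) (ψ₃ := a) hb hc (fun k => ?_)
    have := hk k
    exact (inv_mul_eq_one.1 this).symm
  · -- tff : a b⁻¹ c⁻¹ = 1
    refine no_prod_two hP (ψ₁ := c) (ψ₂ := b) (ψ₃ := a) hc hb (fun k => ?_)
    have := hk k
    have e : c k * b k = (a k * ((b k)⁻¹ * (c k)⁻¹))⁻¹ * a k := by group
    rw [e, this, inv_one, one_mul]
  · -- ttf
    refine no_prod_two hP (ψ₁ := a) (ψ₂ := b) (ψ₃ := c) ha hb (fun k => ?_)
    have := hk k
    have e : a k * b k = (a k * (b k * (c k)⁻¹)) * c k := by group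
    rw [e, this, one_mul]
  · -- ttt
    refine no_three_one hP (ψ₁ := a) (ψ₂ := b) (ψ₃ := c) ha (fun k => ?_)
    have := hk k
    rw [mul_assoc]
    exact this

theorem nonalt_three (hP : PrimeGrp Q) [Nontrivial Q] (s t r : Bool)
    (hna : ¬ (s ≠ t ∧ t ≠ r)) : Concl Q H [s, t, r] :=
  Or.inl (fun P h hs hk => nonalt_three_never hP s t r hna P h hs hk)

theorem never_three_alt (hP : PrimeGrp Q) [Nontrivial Q] (s : Bool)
    (P : List ((H →* Q) × Bool)) (h : P.map Prod.snd = [s, !s, s]) (hs : Sj P)
    (hk : ∀ k, pr P k = 1) : False := by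
  obtain ⟨a, b, c, rfl⟩ := map_snd_three h
  have ha : Function.Surjective a := hs (a, s) (by simp)
  have hb : Function.Surjective b := hs (b, !s) (by simp)
  have hc : Function.Surjective c := hs (c, s) (by simp)
  simp only [pr_cons, pr_nil, mul_one] at hk
  cases s <;> simp only [Bool.false_eq_true, if_true, if_false, Bool.not_false,
    Bool.not_true] at hk
  · -- a⁻¹ b c⁻¹ = 1 : b = a c
    refine no_prod_two hP (ψ₁ := a) (ψ₂ := c) (ψ₃ := b) ha hc (fun k => ?_)
    have := hk k
    have e : b k = a k * ((a k)⁻¹ * (b k * (c k)⁻¹)) * c k := by group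
    rw [e, this, mul_one]
  · -- a b⁻¹ c = 1 : b = c a
    refine no_prod_two hP (ψ₁ := c) (ψ₂ := a) (ψ₃ := b) hc ha (fun k => ?_)
    have := hk k
    have e : c k * a k = b k * (a k)⁻¹ * (a k * ((b k)⁻¹ * c k)) * a k := by group
    rw [e, this]
    group

/-- patterns with three equal signs and one different sign -/
theorem never_four (hP : PrimeGrp Q) [Nontrivial Q] (s t r q : Bool)
    (h31 : [s, t, r, q].count true = 3 ∨ [s, t, r, q].count true = 1)
    (P : List ((H →* Q) × Bool)) (h : P.map Prod.snd = [s, t, r, q]) (hs : Sj P)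
    (hk : ∀ k, pr P k = 1) : False := by
  obtain ⟨a, b, c, d, rfl⟩ := map_snd_four h
  have ha : Function.Surjective a := hs (a, s) (by simp)
  have hb : Function.Surjective b := hs (b, t) (by simp)
  have hc : Function.Surjective c := hs (c, r) (by simp)
  have hd' : Function.Surjective d := hs (d, q) (by simp)
  simp only [pr_cons, pr_nil, mul_one] at hk
  cases s <;> cases t <;> cases r <;> cases q <;> first
    | (exfalso; revert h31; decide)
    | skip
  all_goals simp only [Bool.false_eq_true, if_true, if_false] at hk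
  · -- ffft : d = c b a
    refine no_prod_three hP (ψ₁ := c) (ψ₂ := b) (ψ₃ := a) (ψ₄ := d) hc hb (fun k => ?_)
    have := hk k
    have e : d k = (c k * b k * a k) * ((a k)⁻¹ * ((b k)⁻¹ * ((c k)⁻¹ * d k))) := by group
    rw [e, this, mul_one]
  · -- fftf : c = b a d
    refine no_prod_three hP (ψ₁ := b) (ψ₂ := a) (ψ₃ := d) (ψ₄ := c) hb ha (fun k => ?_)
    have := hk k
    have e : c k = (b k * a k) * ((a k)⁻¹ * ((b k)⁻¹ * (c k * (d k)⁻¹))) * d k := by group
    rw [e, this, mul_one]
  · -- ftff : b = a d c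
    refine no_prod_three hP (ψ₁ := a) (ψ₂ := d) (ψ₃ := c) (ψ₄ := b) ha hd' (fun k => ?_)
    have := hk k
    have e : b k = a k * ((a k)⁻¹ * (b k * ((c k)⁻¹ * (d k)⁻¹))) * d k * c k := by group
    rw [e, this, mul_one]
  · -- fttt : b c d = a
    refine no_prod_three hP (ψ₁ := b) (ψ₂ := c) (ψ₃ := d) (ψ₄ := a) hb hc (fun k => ?_)
    have := hk k
    have e : b k * c k * d k = a k * ((a k)⁻¹ * (b k * (c k * d k))) := by group
    rw [e, this, mul_one]
  · -- tfff : a = d c b
    refine no_prod_three hP (ψ₁ := d) (ψ₂ := c) (ψ₃ := b) (ψ₄ := a) hd' hc (fun k => ?_)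
    have := hk k
    have e : a k = (a k * ((b k)⁻¹ * ((c k)⁻¹ * (d k)⁻¹))) * (d k * c k * b k) := by group
    rw [e, this, one_mul]
  · -- tftt : c d a = b
    refine no_prod_three hP (ψ₁ := c) (ψ₂ := d) (ψ₃ := a) (ψ₄ := b) hc hd' (fun k => ?_)
    have := hk k
    have e : c k * d k * a k = b k * (a k)⁻¹ * (a k * ((b k)⁻¹ * (c k * d k))) * a k := by group
    rw [e, this]
    group
  · -- ttft : d a b = c
    refine no_prod_three hP (ψ₁ := d) (ψ₂ := a) (ψ₃ := b) (ψ₄ := c) hd' ha (fun k => ?_)
    have := hk k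
    have e : d k * a k * b k = d k * (a k * (b k * ((c k)⁻¹ * d k))) * (d k)⁻¹ * c k := by group
    rw [e, this]
    group
  · -- tttf : a b c = d
    refine no_prod_three hP (ψ₁ := a) (ψ₂ := b) (ψ₃ := c) (ψ₄ := d) ha hb (fun k => ?_)
    have := hk k
    have e : a k * b k * c k = (a k * (b k * (c k * (d k)⁻¹))) * d k := by group
    rw [e, this, one_mul]

theorem nonalt_four (hP : PrimeGrp Q) [Nontrivial Q] (s t r q : Bool)
    (hna : ¬ (s ≠ t ∧ t ≠ r ∧ r ≠ q)) (hsame : ¬ (s = t ∧ t = r ∧ r = q)) :
    Concl Q H [s, t, r, q] := by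
  by_cases h31 : [s, t, r, q].count true = 3 ∨ [s, t, r, q].count true = 1
  · left
    intro P h hs hk
    exact never_four hP s t r q h31 P h hs hk
  have hd : ∀ P : List ((H →* Q) × Bool), P.map Prod.snd = [s, t, r, q] → Sj P →
      (∀ k, pr P k = 1) → ∃ a b c d : H →* Q, P = [(a, s), (b, t), (c, r), (d, q)] ∧
        Function.Surjective a ∧ Function.Surjective b ∧ Function.Surjective c ∧
        Function.Surjective d ∧
        ∀ k, (if s then a k else (a k)⁻¹) * ((if t then b k else (b k)⁻¹) *
          ((if r then c k else (c k)⁻¹) * (if q then d k else (d k)⁻¹))) = 1 := by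
    intro P h hs hk
    obtain ⟨a, b, c, d, rfl⟩ := map_snd_four h
    refine ⟨a, b, c, d, rfl, hs (a, s) (by simp), hs (b, t) (by simp), hs (c, r) (by simp),
      hs (d, q) (by simp), ?_⟩
    simpa only [pr_cons, pr_nil, mul_one] using hk
  cases s <;> cases t <;> cases r <;> cases q <;> first
    | (exfalso; apply hna; decide)
    | (exfalso; apply hsame; decide)
    | (exfalso; apply h31; decide)
    | skip
  all_goals simp only [Bool.false_eq_true, if_true, if_false] at hd
  · -- fftt : c d = b a
    right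
    refine ⟨1, false, rfl, rfl, ?_⟩
    intro P h hs hk
    obtain ⟨a, b, c, d, rfl, ha, hb, hc, hd', h1⟩ := hd P h hs hk
    have h2 := (two_two hP (ψ₁ := c) (ψ₂ := d) (ψ₃ := b) (ψ₄ := a) hc hd' (fun k => by
      have := h1 k
      have e : c k * d k = (b k * a k) * ((a k)⁻¹ * ((b k)⁻¹ * (c k * d k))) := by group
      rw [e, this, mul_one])).1
    subst h2
    exact ⟨c, rfl, rfl⟩
  · -- fttf : b c = a d
    right
    refine ⟨0, false, rfl, rfl, ?_⟩
    intro P h hs hk
    obtain ⟨a, b, c, d, rfl, ha, hb, hc, hd', h1⟩ := hd P h hs hk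
    have h2 := (two_two hP (ψ₁ := b) (ψ₂ := c) (ψ₃ := a) (ψ₄ := d) hb hc (fun k => by
      have := h1 k
      have e : b k * c k = a k * ((a k)⁻¹ * (b k * (c k * (d k)⁻¹))) * d k := by group
      rw [e, this, mul_one])).1
    subst h2
    exact ⟨b, rfl, rfl⟩
  · -- tfft : d a = c b
    right
    refine ⟨0, true, rfl, rfl, ?_⟩
    intro P h hs hk
    obtain ⟨a, b, c, d, rfl, ha, hb, hc, hd', h1⟩ := hd P h hs hk
    have h2 := (two_two hP (ψ₁ := d) (ψ₂ := a) (ψ₃ := c) (ψ₄ := b) hd' ha (fun k => by
      have := h1 k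
      have e : d k * a k = d k * (a k * ((b k)⁻¹ * ((c k)⁻¹ * d k))) * (d k)⁻¹ * (c k * b k) := by
        group
      rw [e, this]
      group)).2
    subst h2
    exact ⟨a, rfl, rfl⟩
  · -- ttff : a b = d c
    right
    refine ⟨1, true, rfl, rfl, ?_⟩
    intro P h hs hk
    obtain ⟨a, b, c, d, rfl, ha, hb, hc, hd', h1⟩ := hd P h hs hk
    have h2 := (two_two hP (ψ₁ := a) (ψ₂ := b) (ψ₃ := d) (ψ₄ := c) ha hb (fun k => by
      have := h1 k
      have e : a k * b k = (a k * (b k * ((c k)⁻¹ * (d k)⁻¹))) * (d k * c k) := by group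
      rw [e, this, one_mul])).2
    subst h2
    exact ⟨b, rfl, rfl⟩

/-- a product of at most four signed surjections with unequally many plus and minus signs, not
four equal signs, is not identically trivial -/
theorem never (hP : PrimeGrp Q) [Nontrivial Q] (σ : List Bool) (h4 : σ.length ≤ 4)
    (hcnt : ∀ b, σ.count b ≤ 3) (hne : σ.count true ≠ σ.count false)
    (P : List ((H →* Q) × Bool)) (h : P.map Prod.snd = σ) (hs : Sj P)
    (hk : ∀ k, pr P k = 1) : False := by
  match σ, h4, hcnt, hne, h with
  | [], _, _, hne, _ => exact hne rfl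
  | [s], _, _, _, h =>
    match P, h, hs, hk with
    | [(a, s')], _, hs, hk =>
      have ha : Function.Surjective a := hs (a, s') (by simp)
      obtain ⟨q, hq⟩ := exists_ne (1 : Q)
      obtain ⟨k, rfl⟩ := ha q
      apply hq
      have := hk k
      rw [pr_cons, pr_nil, mul_one] at this
      cases s'
      · simpa using this
      · simpa using this
  | [s, t], _, _, hne, h =>
    have hst : s = t := by
      revert hne
      cases s <;> cases t <;> simp
    subst hst
    rcases nonalt_two (H := H) hP s with h1 | ⟨j, s', h1, h2, -⟩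
    · exact h1 P h hs hk
    · rcases j with _ | j
      · simp only [List.getElem?_cons_zero, zero_add, List.getElem?_cons_succ,
          Option.some.injEq] at h1 h2
        subst h1
        cases s <;> simp at h2
      · simp at h2
  | [s, t, r], _, _, _, h =>
    by_cases halt : s ≠ t ∧ t ≠ r
    · have h1 : t = !s := by
        revert halt
        cases s <;> cases t <;> simp
      have h2 : r = s := by
        revert halt
        cases s <;> cases t <;> cases r <;> simp
      subst h1
      subst h2
      exact never_three_alt hP r P h hs hk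
    · obtain ⟨a, b, c, rfl⟩ := map_snd_three h
      exact nonalt_three_never hP s t r halt _ h hs hk
  | [s, t, r, q], _, hcnt, hne, h =>
    refine never_four hP s t r q ?_ P h hs hk
    have h1 := hcnt true
    have h2 := hcnt false
    revert hne h1 h2
    cases s <;> cases t <;> cases r <;> cases q <;> decide

theorem nonalt (hP : PrimeGrp Q) [Nontrivial Q] (σ : List Bool) (h4 : σ.length ≤ 4)
    (hcnt : ∀ b, σ.count b ≤ 3) (hna : ¬ σ.IsChain (· ≠ ·)) : Concl Q H σ := by
  match σ, h4, hcnt, hna with
  | [], _, _, hna => exact absurd List.isChain_nil hna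
  | [s], _, _, hna => exact absurd (List.isChain_singleton s) hna
  | [s, t], _, _, hna =>
    have : s = t := by
      by_contra hst
      exact hna (by simpa using hst)
    subst this
    exact nonalt_two hP s
  | [s, t, r], _, _, hna =>
    exact nonalt_three hP s t r (fun h => hna (by simpa using h))
  | [s, t, r, q], _, hcnt, hna =>
    refine nonalt_four hP s t r q (fun h => hna (by simpa using h)) ?_
    rintro ⟨rfl, rfl, rfl⟩
    have := hcnt s
    simp at this

end

end Pool.Agent.H32.CI
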