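import Mathlib
import Pool.Agent.H32.CI.Claim
import Pool.Agent.H32.CI.NonAlt

/-!
No coset identity (in the sense of acting trivially on a surjection onto an infinite prime group)
with few occurrences of each variable (MP_551747_al).
-/

set_option autoImplicit false
set_option linter.unusedSectionVars false
set_option linter.unusedSimpArgs false

namespace Pool.Agent.H32.CI

section
variable {G Q : Type*} [Group G] [Group Q] {H : Subgroup G} [H.Normal]
variable {ι : Type*} [DecidableEq ι]

/-- attach to each letter the point reached before it -/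
def aug (g : ι → G) : (H →* Q) → List (ι × Bool) → List ((ι × Bool) × (H →* Q))
  | _, [] => []
  | φ, l :: L => (l, φ) :: aug g (act (ev g l)⁻¹ φ) L

theorem aug_map_fst (g : ι → G) (φ : H →* Q) (L : List (ι × Bool)) :
    (aug g φ L).map Prod.fst = L := by
  induction L generalizing φ with
  | nil => rfl
  | cons l L ih => rw [aug, List.map_cons, ih]

theorem aug_surj (g : ι → G) {φ : H →* Q} (hφ : Function.Surjective φ) (L : List (ι × Bool)) :
    ∀ x ∈ aug g φ L, Function.Surjective x.2 := by
  induction L generalizing φ with
  | nil => simp [aug]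
  | cons l L ih =>
    intro x hx
    rw [aug] at hx
    rcases List.mem_cons.1 hx with rfl | hx
    · exact hφ
    · exact ih (act_surj _ hφ) x hx

theorem aug_chain (g : ι → G) {φ : H →* Q} {L : List (ι × Bool)} (hL : FreeGroup.IsReduced L) :
    (aug g φ L).IsChain (Rel H g) := by
  induction L generalizing φ with
  | nil => rw [aug]; exact List.isChain_nil
  | cons l L ih =>
    rw [aug]
    rcases L with _ | ⟨l', L⟩
    · rw [aug]; exact List.isChain_singleton _
    · have h1 := FreeGroup.isReduced_cons_cons.1 hL
      have h2 := ih (φ := act (ev g l)⁻¹ φ) h1.2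
      rw [aug] at h2 ⊢
      refine List.IsChain.cons_cons ?_ h2
      exact ⟨h1.1, Orb.refl _⟩

/-- locate the block between the occurrences `j` and `j+1` of `v` -/
theorem locate (v : ι) (L : List (ι × Bool)) (j : ℕ)
    (hj : j + 1 < L.countP (fun l => l.1 = v)) :
    ∃ (u : List (ι × Bool)) (l : ι × Bool) (b : List (ι × Bool)) (l' : ι × Bool)
      (w : List (ι × Bool)), L = u ++ l :: (b ++ l' :: w) ∧ l.1 = v ∧ l'.1 = v ∧
      (∀ x ∈ b, x.1 ≠ v) ∧ ∀ (y : ι → G) (φ : H →* Q),
        (psis v y φ L)[j]? = some (entry y (act (evL y u)⁻¹ φ) l) ∧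
        (psis v y φ L)[j + 1]? = some (entry y (act (evL y (u ++ l :: b))⁻¹ φ) l') := by
  induction L generalizing j with
  | nil => simp at hj
  | cons l L ih =>
    by_cases hl : l.1 = v
    · rcases j with _ | j
      · rcases first_occ v L with h | ⟨b, l', w, h1, h2, h3⟩
        · exfalso
          have h0 : L.countP (fun l => l.1 = v) = 0 := by
            rw [List.countP_eq_zero]
            intro x hx
            simpa using h x hx
          rw [List.countP_cons, h0] at hj
          split_ifs at hj <;> omega
        · refine ⟨[], l, b, l', w, by rw [h1]; rfl, hl, h3, h2, ?_⟩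
          intro y φ
          rw [psis, if_pos hl, h1, psis_append_of_ne h2, psis, if_pos h3]
          refine ⟨by simp, ?_⟩
          simp only [zero_add, List.getElem?_cons_succ, List.getElem?_cons_zero, List.nil_append,
            evL_cons, mul_inv_rev, act_mul]
      · have hj' : j + 1 < L.countP (fun l => l.1 = v) := by
          rw [List.countP_cons] at hj
          split_ifs at hj <;> omega
        obtain ⟨u, l1, b, l2, w, h1, h2, h3, h4, h5⟩ := ih j hj'
        refine ⟨l :: u, l1, b, l2, w, by rw [h1]; rfl, h2, h3, h4, ?_⟩
        intro y φ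
        rw [psis, if_pos hl, List.getElem?_cons_succ, List.getElem?_cons_succ]
        have := h5 y (act (ev y l)⁻¹ φ)
        simpa only [List.cons_append, evL_cons, mul_inv_rev, act_mul] using this
    · have hj' : j + 1 < L.countP (fun l => l.1 = v) := by
        rw [List.countP_cons, if_neg (by simpa using hl)] at hj
        simpa using hj
      obtain ⟨u, l1, b, l2, w, h1, h2, h3, h4, h5⟩ := ih j hj'
      refine ⟨l :: u, l1, b, l2, w, by rw [h1]; rfl, h2, h3, h4, ?_⟩
      intro y φ
      rw [psis, if_neg hl]
      have := h5 y (act (ev y l)⁻¹ φ)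
      simpa only [List.cons_append, evL_cons, mul_inv_rev, act_mul] using this

/-- if two consecutive entries of opposite signs carry the same homomorphism, then the block
between them fixes the point at its start -/
theorem block_fix {y : ι → G} {φ : H →* Q} {u b : List (ι × Bool)} {l l' : ι × Bool}
    (hv : l.1 = l'.1) {a : H →* Q} {s : Bool}
    (h1 : entry y (act (evL y u)⁻¹ φ) l = (a, s))
    (h2 : entry y (act (evL y (u ++ l :: b))⁻¹ φ) l' = (a, !s)) :
    act (evL y b) (act (evL y (u ++ [l]))⁻¹ φ) = act (evL y (u ++ [l]))⁻¹ φ := by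
  set χ := act (evL y (u ++ [l]))⁻¹ φ with hχ
  have e1 : act (evL y (u ++ l :: b))⁻¹ φ = act (evL y b)⁻¹ χ := by
    rw [hχ, ← act_mul]
    congr 1
    simp [mul_assoc]
  have e2 : act (evL y u)⁻¹ φ = act (ev y l) χ := by
    rw [hχ, ← act_mul]
    congr 1
    simp
  rw [e1] at h2
  rw [e2] at h1
  rcases l with ⟨i, c⟩
  rcases l' with ⟨i', c'⟩
  simp only at hv
  subst hv
  cases c <;> cases c' <;> simp only [entry, if_true, Bool.false_eq_true, if_false,
    Prod.mk.injEq] at h1 h2
  · exfalso
    obtain ⟨-, rfl⟩ := h1
    simp at h2
  · -- l = v⁻¹, l' = v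
    have h3 := h1.1.trans h2.1.symm
    have e3 : (ev y (i, true))⁻¹ = ev y (i, false) := by simp [ev]
    rw [e3, act_inj] at h3
    exact (act_inv_eq_iff.1 h3.symm).symm
  · have h3 := h1.1.trans h2.1.symm
    rw [← act_mul, inv_mul_cancel, act_one] at h3
    exact (act_inv_eq_iff.1 h3.symm).symm
  · exfalso
    obtain ⟨-, rfl⟩ := h1
    simp at h2

theorem core (hP : PrimeGrp Q) [Infinite Q] [Infinite H] (g : ι → G) :
    ∀ (n : ℕ) (L : List (ι × Bool)), L.length ≤ n → L ≠ [] → FreeGroup.IsReduced L →
      (∀ v, L.countP (fun l => l.1 = v) ≤ 4) → (∀ l, L.count l ≤ 3) →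
      ∀ φ : H →* Q, Function.Surjective φ → ∃ y, Adm H g y ∧ act (evL y L) φ ≠ φ := by
  intro n
  induction n with
  | zero =>
    intro L h1 h2
    exact absurd (List.length_eq_zero_iff.1 (Nat.le_zero.1 h1)) h2
  | succ n ih =>
    intro L hn hne hred h4 h3 φ hφ
    by_cases hA : ∀ v, Alt v L
    · have hmem : Mem g (aug g φ L) := by
        refine ⟨?_, aug_chain g hred, aug_surj g hφ L, ?_⟩
        · intro h
          apply hne
          have := congrArg (List.map Prod.fst) h
          rwa [aug_map_fst] at this
        · intro v
          rw [aug_map_fst]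
          exact hA v
      obtain ⟨y, hy, hmv⟩ := claimD hP g (L.map Prod.fst) [aug g φ L] (by
        intro a ha
        rw [List.mem_singleton.1 ha]
        exact hmem) (by
        intro a ha x hx
        rw [List.mem_singleton.1 ha] at hx
        rw [← aug_map_fst g φ L]
        exact List.mem_map_of_mem (List.mem_map_of_mem hx)) (by
        intro v
        rw [List.map_cons, List.map_nil, List.sum_singleton, ← cn_eq, aug_map_fst]
        exact h4 v)
      refine ⟨y, hy, ?_⟩
      obtain ⟨l, L', rfl⟩ := List.exists_cons_of_ne_nil hne
      have := hmv _ (List.mem_singleton.2 rfl) (l, φ) (aug g (act (ev g l)⁻¹ φ) L') rfl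
      rwa [aug_map_fst] at this
    · push Not at hA
      obtain ⟨v, hv⟩ := hA
      set σ := (L.filter (fun l => l.1 = v)).map Prod.snd with hσ
      have hlen : σ.length = L.countP (fun l => l.1 = v) := by
        rw [hσ, List.length_map, ← List.countP_eq_length_filter]
      have hcnt : ∀ b, σ.count b ≤ 3 := by
        intro b
        refine le_trans ?_ (h3 (v, b))
        rw [hσ, List.count, List.countP_map, List.countP_filter, List.count]
        apply List.countP_mono_left
        intro x hx hxb
        simp only [Function.comp_apply, Bool.and_eq_true, beq_iff_eq, decide_eq_true_eq] at hxb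
        rcases x with ⟨x1, x2⟩
        simp only at hxb
        simp [hxb.1, hxb.2]
      by_contra hcon
      push Not at hcon
      have hpr : ∀ y, Adm H g y → ∀ k, pr (psis v y φ L) k = 1 := by
        intro y hy k
        exact (fix_upd_iff hP hφ (hcon y hy) k).1 (hcon _ (hy.updk v k))
      rcases nonalt (H := H) hP σ (by rw [hlen]; exact h4 v) hcnt hv with h | ⟨j, s, h5, h6, h7⟩
      · exact h (psis v g φ L) psis_snd (psis_surj hφ) (hpr g (fun i => by simp))
      · have hj : j + 1 < L.countP (fun l => l.1 = v) := by
          rw [← hlen]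
          exact (List.getElem?_eq_some_iff.1 h6).1
        obtain ⟨u, l, b, l', w, e1, e2, e3, e4, e5⟩ := locate (G := G) (Q := Q) (H := H) v L j hj
        have hfix : ∀ y, Adm H g y →
            act (evL y b) (act (evL y (u ++ [l]))⁻¹ φ) = act (evL y (u ++ [l]))⁻¹ φ := by
          intro y hy
          obtain ⟨a, ha1, ha2⟩ := h7 (psis v y φ L) psis_snd (psis_surj hφ) (hpr y hy)
          obtain ⟨f1, f2⟩ := e5 y φ
          rw [f1] at ha1
          rw [f2] at ha2
          exact block_fix (e2.trans e3.symm) (Option.some.inj ha1) (Option.some.inj ha2)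
        have hs : l.2 ≠ l'.2 := by
          obtain ⟨a, ha1, ha2⟩ := h7 (psis v g φ L) psis_snd (psis_surj hφ)
            (hpr g (fun i => by simp))
          obtain ⟨f1, f2⟩ := e5 g φ
          rw [f1] at ha1
          rw [f2] at ha2
          have g1 := congrArg Prod.snd (Option.some.inj ha1)
          have g2 := congrArg Prod.snd (Option.some.inj ha2)
          have hen : ∀ (ψ : H →* Q) (x : ι × Bool), (entry g ψ x).2 = x.2 := by
            intro ψ x
            rw [entry]
            split_ifs with hx
            · exact hx.symm
            · simpa using hx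
          rw [hen] at g1 g2
          rw [g1, g2]
          simp
        have hb : b ≠ [] := by
          rintro rfl
          have hinf : [l, l'] <:+: L := ⟨u, w, by rw [e1]; simp⟩
          have := FreeGroup.isReduced_cons_cons.1 (red_inf hred hinf)
          exact hs (this.1 (e2.trans e3.symm))
        have hbinf : b <:+: L := ⟨u ++ [l], l' :: w, by rw [e1]; simp⟩
        have hblen : b.length ≤ n := by
          have := congrArg List.length e1
          simp only [List.length_append, List.length_cons] at this
          omega
        obtain ⟨y, hy, hmove⟩ := ih b hblen hb (red_inf hred hbinf)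
          (fun v => (hbinf.sublist.countP_le).trans (h4 v))
          (fun x => (hbinf.sublist.count_le x).trans (h3 x))
          (act (evL g (u ++ [l]))⁻¹ φ) (act_surj _ hφ)
        apply hmove
        exact ((hy.orb_evL (u ++ [l]) φ).fix_iff).2 (hfix y hy)

end

end Pool.Agent.H32.CI
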