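import Mathlib

/-!
Coset identities, and a class of words (MP_551747_al). A word in `n` variables is an element `w`
of `FreeGroup (Fin n)`; its reduced form is the list `w.toWord` of pairs `(i, b)`, where `(i, true)`
stands for the `i`-th variable and `(i, false)` for its inverse.
-/

set_option autoImplicit false

namespace Pool.Agent.H32.CI

/-- `w` is a coset identity of `G` on the cosets `g₁H, ..., gₙH` -/
def CosetId {n : ℕ} (w : FreeGroup (Fin n)) (G : Type) [Group G] (H : Subgroup G)
    (g : Fin n → G) : Prop :=
  ∀ y : Fin n → G, (∀ i, (g i)⁻¹ * y i ∈ H) → FreeGroup.lift y w = 1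

/-- the exponent sum of the variable `i` in `w` -/
def expSum {n : ℕ} (i : Fin n) (w : FreeGroup (Fin n)) : ℤ :=
  Multiplicative.toAdd
    (FreeGroup.lift (fun j => Multiplicative.ofAdd (if j = i then (1 : ℤ) else 0)) w)

/-- `w ≠ 1`, every variable occurs at most four times in `w` (with either exponent), and none
occurs four times with the same exponent -/
def Few {n : ℕ} (w : FreeGroup (Fin n)) : Prop :=
  w ≠ 1 ∧ (∀ i, w.toWord.countP (fun l => l.1 = i) ≤ 4) ∧ ∀ l, w.toWord.count l ≤ 3

/-- some variable occurs at most four times in `w`, does not occur four times with the same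
exponent, and does not occur equally often with the exponents `1` and `-1` -/
def Skew {n : ℕ} (w : FreeGroup (Fin n)) : Prop :=
  ∃ i, w.toWord.countP (fun l => l.1 = i) ≤ 4 ∧ (∀ b, w.toWord.count (i, b) ≤ 3) ∧
    w.toWord.count (i, true) ≠ w.toWord.count (i, false)

/-- the commutator `u v u⁻¹ v⁻¹`, where `u` and `v` are read in disjoint sets of variables -/
def dcomm {a b : ℕ} (u : FreeGroup (Fin a)) (v : FreeGroup (Fin b)) : FreeGroup (Fin (a + b)) :=
  FreeGroup.map (Fin.castAdd b) u * FreeGroup.map (Fin.natAdd a) v *
    (FreeGroup.map (Fin.castAdd b) u)⁻¹ * (FreeGroup.map (Fin.natAdd a) v)⁻¹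

/-- The least class of words such that
* `few`, `skew`, `unit` : it contains `w` if `Few w`, if `Skew w`, and if the exponent sum of some
  variable in `w` satisfies `U`;
* `comm` : it is closed under commutators of words in disjoint sets of variables;
* `cons` : it contains `w` if it contains a word `w'` in the subgroup generated by the words
  `τ w`, where `τ` runs through the homomorphic sections of a homomorphism `ρ` of free groups. -/
inductive Tame (U : ℤ → Prop) : ∀ n : ℕ, FreeGroup (Fin n) → Prop
  | few {n : ℕ} (w : FreeGroup (Fin n)) : Few w → Tame U n w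
  | skew {n : ℕ} (w : FreeGroup (Fin n)) : Skew w → Tame U n w
  | unit {n : ℕ} (w : FreeGroup (Fin n)) (i : Fin n) : U (expSum i w) → Tame U n w
  | comm {a b : ℕ} (u : FreeGroup (Fin a)) (v : FreeGroup (Fin b)) :
      Tame U a u → Tame U b v → Tame U (a + b) (dcomm u v)
  | cons {n m : ℕ} (w : FreeGroup (Fin n)) (w' : FreeGroup (Fin m))
      (ρ : FreeGroup (Fin m) →* FreeGroup (Fin n)) :
      w' ∈ Subgroup.closure {u | ∃ τ : FreeGroup (Fin n) →* FreeGroup (Fin m),
        ρ.comp τ = MonoidHom.id _ ∧ u = τ w} → Tame U m w' → Tame U n w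

end Pool.Agent.H32.CI
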