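import Mathlib
import Pool.Agent.H32.CI.Prime

/-!
A prime quotient of a group containing a free group of infinite rank (MP_551747_al).
-/

set_option autoImplicit false

namespace Pool.Agent.H32.CI

open FreeGroup hiding map_mul map_one map_inv

theorem red_append {α : Type*} {L M : List (α × Bool)} (hL : FreeGroup.IsReduced L) (hM : FreeGroup.IsReduced M)
    (h : ∀ x ∈ L.getLast?, ∀ y ∈ M.head?, x.1 = y.1 → x.2 = y.2) : FreeGroup.IsReduced (L ++ M) := by
  unfold FreeGroup.IsReduced at *
  exact List.isChain_append.2 ⟨hL, hM, h⟩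

theorem free_not_comm {a b : FreeGroup ℕ} (ha : a ≠ 1) (hb : b ≠ 1) {n : ℕ}
    (hna : ∀ l ∈ a.toWord, l.1 ≠ n) (hnb : ∀ l ∈ b.toWord, l.1 ≠ n) :
    a * ((of n)⁻¹ * b * of n) ≠ ((of n)⁻¹ * b * of n) * a := by
  intro h
  have hla : a.toWord ≠ [] := fun h0 => ha (toWord_eq_nil_iff.1 h0)
  have hlb : b.toWord ≠ [] := fun h0 => hb (toWord_eq_nil_iff.1 h0)
  have e1 : a * ((of n)⁻¹ * b * of n)
      = mk (a.toWord ++ ([(n, false)] ++ (b.toWord ++ [(n, true)]))) := by
    rw [← mul_mk, ← mul_mk, ← mul_mk, mk_toWord, mk_toWord]
    simp [of, inv_mk, invRev, mul_assoc]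
  have e2 : ((of n)⁻¹ * b * of n) * a
      = mk ([(n, false)] ++ (b.toWord ++ ([(n, true)] ++ a.toWord))) := by
    rw [← mul_mk, ← mul_mk, ← mul_mk, mk_toWord, mk_toWord]
    simp [of, inv_mk, invRev, mul_assoc]
  have r1 : FreeGroup.IsReduced (a.toWord ++ ([(n, false)] ++ (b.toWord ++ [(n, true)]))) := by
    apply red_append isReduced_toWord
    · apply red_append FreeGroup.IsReduced.singleton
      · apply red_append isReduced_toWord FreeGroup.IsReduced.singleton
        intro x hx y hy hxy
        have hx' := List.mem_of_mem_getLast? hx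
        simp only [List.head?_cons, Option.mem_def, Option.some.injEq] at hy
        rw [← hy] at hxy
        exact absurd hxy (hnb x hx')
      · intro x hx y hy hxy
        simp only [List.getLast?_singleton, Option.mem_def, Option.some.injEq] at hx
        have hy' : y ∈ b.toWord := by
          rcases hb' : b.toWord with _ | ⟨z, L⟩
          · exact absurd hb' hlb
          · rw [hb'] at hy
            simp only [List.cons_append, List.head?_cons, Option.mem_def, Option.some.injEq] at hy
            rw [hy]
            simp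
        rw [← hx] at hxy
        exact absurd hxy.symm (hnb y hy')
    · intro x hx y hy hxy
      have hx' := List.mem_of_mem_getLast? hx
      simp only [List.singleton_append, List.head?_cons, Option.mem_def, Option.some.injEq] at hy
      rw [← hy] at hxy
      exact absurd hxy (hna x hx')
  have r2 : FreeGroup.IsReduced ([(n, false)] ++ (b.toWord ++ ([(n, true)] ++ a.toWord))) := by
    apply red_append FreeGroup.IsReduced.singleton
    · apply red_append isReduced_toWord
      · apply red_append FreeGroup.IsReduced.singleton isReduced_toWord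
        intro x hx y hy hxy
        simp only [List.getLast?_singleton, Option.mem_def, Option.some.injEq] at hx
        have hy' := List.mem_of_mem_head? hy
        rw [← hx] at hxy
        exact absurd hxy.symm (hna y hy')
      · intro x hx y hy hxy
        have hx' := List.mem_of_mem_getLast? hx
        simp only [List.singleton_append, List.head?_cons, Option.mem_def,
          Option.some.injEq] at hy
        rw [← hy] at hxy
        exact absurd hxy (hnb x hx')
    · intro x hx y hy hxy
      simp only [List.getLast?_singleton, Option.mem_def, Option.some.injEq] at hx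
      have hy' : y ∈ b.toWord := by
        rcases hb' : b.toWord with _ | ⟨z, L⟩
        · exact absurd hb' hlb
        · rw [hb'] at hy
          simp only [List.cons_append, List.head?_cons, Option.mem_def, Option.some.injEq] at hy
          rw [hy]
          simp
      rw [← hx] at hxy
      exact absurd hxy.symm (hnb y hy')
  rw [e1, e2] at h
  have h2 := congrArg toWord h
  rw [toWord_mk, toWord_mk, r1.reduce_eq, r2.reduce_eq] at h2
  rcases ha' : a.toWord with _ | ⟨z, L⟩
  · exact hla ha'
  · rw [ha'] at h2
    simp only [List.cons_append, List.nil_append, List.cons.injEq] at h2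
    exact hna z (by rw [ha']; simp) (by rw [h2.1])

theorem exists_new (a b : FreeGroup ℕ) :
    ∃ n, (∀ l ∈ a.toWord, l.1 ≠ n) ∧ (∀ l ∈ b.toWord, l.1 ≠ n) := by
  classical
  obtain ⟨n, hn⟩ := Infinite.exists_notMem_finset
    ((a.toWord ++ b.toWord).map Prod.fst).toFinset
  rw [List.mem_toFinset, List.mem_map] at hn
  push Not at hn
  exact ⟨n, fun l hl => hn l (List.mem_append_left _ hl),
    fun l hl => hn l (List.mem_append_right _ hl)⟩

theorem exists_prime_quotient {K : Type*} [Group K] (θ : FreeGroup ℕ →* K)
    (hθ : Function.Injective θ) :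
    ∃ N : Subgroup K, ∃ _ : N.Normal, PrimeGrp (K ⧸ N) ∧ Infinite (K ⧸ N) := by
  classical
  obtain ⟨N, hN⟩ := zorn_le₀ {N : Subgroup K | N.Normal ∧ ∀ a, θ a ∈ N → a = 1} (by
    intro c hc hch
    rcases c.eq_empty_or_nonempty with rfl | hne
    · refine ⟨⊥, ⟨inferInstance, ?_⟩, by simp⟩
      intro a ha
      rw [Subgroup.mem_bot] at ha
      exact hθ (by rw [ha, map_one])
    · refine ⟨sSup c, ⟨⟨?_⟩, ?_⟩, fun z hz => le_sSup hz⟩
      · intro x hx g
        rw [Subgroup.mem_sSup_of_directedOn hne hch.directedOn] at hx ⊢
        obtain ⟨M, hM, hx⟩ := hx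
        exact ⟨M, hM, (hc hM).1.conj_mem x hx g⟩
      · intro a ha
        rw [Subgroup.mem_sSup_of_directedOn hne hch.directedOn] at ha
        obtain ⟨M, hM, ha⟩ := ha
        exact (hc hM).2 a ha)
  have hNn : N.Normal := hN.prop.1
  have hN1 : ∀ a, θ a ∈ N → a = 1 := hN.prop.2
  refine ⟨N, hNn, ?_, ?_⟩
  · intro a b hab
    by_contra hcon
    push Not at hcon
    obtain ⟨ha, hb⟩ := hcon
    have hmeet : ∀ a : K ⧸ N, a ≠ 1 → ∃ f : FreeGroup ℕ, f ≠ 1 ∧
        QuotientGroup.mk' N (θ f) ∈ Subgroup.normalClosure {a} := by
      intro a ha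
      by_contra hcon
      push Not at hcon
      have hmem : (Subgroup.normalClosure {a}).comap (QuotientGroup.mk' N) ∈
          {N : Subgroup K | N.Normal ∧ ∀ a, θ a ∈ N → a = 1} := by
        refine ⟨inferInstance, ?_⟩
        intro f hf
        by_contra hf1
        exact hcon f hf1 hf
      have hle : N ≤ (Subgroup.normalClosure {a}).comap (QuotientGroup.mk' N) := by
        intro x hx
        rw [Subgroup.mem_comap]
        have : QuotientGroup.mk' N x = 1 := (QuotientGroup.eq_one_iff x).2 hx
        rw [this]
        exact Subgroup.one_mem _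
      have heq := hN.eq_of_le hmem hle
      obtain ⟨x, rfl⟩ := QuotientGroup.mk'_surjective N a
      apply ha
      have hx : x ∈ (Subgroup.normalClosure {QuotientGroup.mk' N x}).comap
          (QuotientGroup.mk' N) :=
        Subgroup.subset_normalClosure (by simp)
      rw [← heq] at hx
      exact (QuotientGroup.eq_one_iff x).2 hx
    obtain ⟨f1, hf1, hm1⟩ := hmeet a ha
    obtain ⟨f2, hf2, hm2⟩ := hmeet b hb
    have hcl : Subgroup.normalClosure {b} ≤ Subgroup.centralizer {a} := by
      rw [Subgroup.normalClosure, Subgroup.closure_le]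
      intro x hx
      rw [Group.mem_conjugatesOfSet_iff] at hx
      obtain ⟨b', hb', hconj⟩ := hx
      rw [Set.mem_singleton_iff.1 hb', isConj_iff] at hconj
      obtain ⟨q, rfl⟩ := hconj
      rw [SetLike.mem_coe, Subgroup.mem_centralizer_singleton_iff]
      exact (hab q).symm
    have hcl2 : Subgroup.normalClosure {a} ≤
        Subgroup.centralizer (Subgroup.normalClosure {b} : Set (K ⧸ N)) := by
      apply Subgroup.normalClosure_le_normal
      rw [Set.singleton_subset_iff, SetLike.mem_coe, Subgroup.mem_centralizer_iff]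
      intro h hh
      have := hcl hh
      rw [Subgroup.mem_centralizer_singleton_iff] at this
      exact this
    obtain ⟨n, hn1, hn2⟩ := exists_new f1 f2
    set t : FreeGroup ℕ := of n with ht
    have h3 : QuotientGroup.mk' N (θ (t⁻¹ * f2 * t)) ∈ Subgroup.normalClosure {b} := by
      rw [map_mul, map_mul, map_mul, map_mul, map_inv, map_inv]
      have := Subgroup.normalClosure_normal.conj_mem _ hm2 (QuotientGroup.mk' N (θ t))⁻¹
      rwa [inv_inv] at this
    have h4 := Subgroup.mem_centralizer_iff.1 (hcl2 hm1) _ h3
    have hgen : ∀ T : FreeGroup ℕ, QuotientGroup.mk' N (θ T) * QuotientGroup.mk' N (θ f1)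
        = QuotientGroup.mk' N (θ f1) * QuotientGroup.mk' N (θ T) →
        θ ((f1 * T) * (T * f1)⁻¹) ∈ N := by
      intro T hT
      rw [← QuotientGroup.eq_one_iff]
      change QuotientGroup.mk' N _ = 1
      simp only [map_mul, map_inv]
      rw [hT, mul_inv_cancel]
    have h5 := hgen _ h4
    have h6 := hN1 _ h5
    exact free_not_comm hf1 hf2 hn1 hn2 (mul_inv_eq_one.1 h6)
  · have hinf : Infinite (FreeGroup ℕ) := Infinite.of_injective _ of_injective
    apply Infinite.of_injective (fun a : FreeGroup ℕ => QuotientGroup.mk' N (θ a))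
    intro a b hab
    have h1 : QuotientGroup.mk' N (θ (a * b⁻¹)) = 1 := by
      rw [map_mul, map_mul, map_inv, map_inv]
      exact mul_inv_eq_one.2 hab
    have h2 := hN1 _ ((QuotientGroup.eq_one_iff _).1 h1)
    exact mul_inv_eq_one.1 h2

end Pool.Agent.H32.CI
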