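import Mathlib
import Pool.Agent.H32.CI.Core
import Pool.Agent.H32.CI.Defs
import Pool.Agent.H32.CI.Msys

/-!
Words that cannot act trivially on a surjection onto an infinite prime group, closure properties,
and the passage to laws (MP_551747_al, coset identities).
-/

set_option autoImplicit false
set_option linter.unusedSectionVars false
set_option linter.unusedSimpArgs false

namespace Pool.Agent.H32.CI

open FreeGroup hiding map_mul map_one map_inv

/-- for words whose exponent sum in the variable `i` satisfies `U`, multiplying the variable `i`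
by elements of `H` multiplies the value by all elements of `H` -/
def Unip (U : ℤ → Prop) (G : Type) [Group G] (H : Subgroup G) : Prop :=
  ∀ (n : ℕ) (w : FreeGroup (Fin n)) (i : Fin n), U (expSum i w) → ∀ (y : Fin n → G),
    ∀ h ∈ H, ∃ k ∈ H, FreeGroup.lift (upd y i k) w = h * FreeGroup.lift y w

theorem unip_false (G : Type) [Group G] (H : Subgroup G) : Unip (fun _ => False) G H :=
  fun _ _ _ h => h.elim

/-- prime-free words -/
def PF (U : ℤ → Prop) {n : ℕ} (w : FreeGroup (Fin n)) : Prop :=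
  ∀ (G : Type) [Group G] (H : Subgroup G) [H.Normal], Unip U G H →
    ∀ (Q : Type) [Group Q] [Infinite Q], PrimeGrp Q → ∀ φ : H →* Q, Function.Surjective φ →
      ∀ g : Fin n → G, ∃ y : Fin n → G, Adm H g y ∧ act (FreeGroup.lift y w) φ ≠ φ

theorem evL_toWord {ι G : Type*} [DecidableEq ι] [Group G] (y : ι → G) (w : FreeGroup ι) :
    evL y w.toWord = FreeGroup.lift y w := by
  conv_rhs => rw [← FreeGroup.mk_toWord (x := w)]
  rw [FreeGroup.lift_mk, evL]
  congr 1
  apply List.map_congr_left
  rintro ⟨i, b⟩ _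
  cases b <;> simp [ev]

theorem infinite_of_surj {G Q : Type} [Group G] [Group Q] [Infinite Q] {H : Subgroup G}
    {φ : H →* Q} (h : Function.Surjective φ) : Infinite H := Infinite.of_surjective φ h

theorem PF.few (U : ℤ → Prop) {n : ℕ} {w : FreeGroup (Fin n)} (hw : Few w) : PF U w := by
  intro G _ H _ _ Q _ _ hP φ hφ g
  have := infinite_of_surj hφ
  obtain ⟨y, hy, hne⟩ := core hP g w.toWord.length w.toWord le_rfl
    (fun h0 => hw.1 (FreeGroup.toWord_eq_nil_iff.1 h0)) FreeGroup.isReduced_toWord hw.2.1 hw.2.2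
    φ hφ
  exact ⟨y, hy, by rwa [evL_toWord] at hne⟩

theorem PF.skew (U : ℤ → Prop) {n : ℕ} {w : FreeGroup (Fin n)} (hw : Skew w) : PF U w := by
  intro G _ H _ _ Q _ _ hP φ hφ g
  obtain ⟨i, h4, h3, hne⟩ := hw
  by_contra hcon
  push Not at hcon
  have hg : Adm H g g := fun i => by simp
  have hb := hcon g hg
  rw [← evL_toWord] at hb
  have hcount : ∀ b, ((w.toWord.filter (fun l => l.1 = i)).map Prod.snd).count b
      = w.toWord.count (i, b) := by
    intro b
    rw [List.count, List.countP_map, List.countP_filter, List.count]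
    apply List.countP_congr
    rintro ⟨x1, x2⟩ _
    simp only [Function.comp_apply, Bool.and_eq_true, beq_iff_eq, decide_eq_true_eq,
      Prod.mk.injEq]
    tauto
  refine never (H := H) hP ((w.toWord.filter (fun l => l.1 = i)).map Prod.snd) ?_ ?_ ?_
    (psis i g φ w.toWord) psis_snd (psis_surj hφ) ?_
  · rw [List.length_map, ← List.countP_eq_length_filter]
    exact h4
  · intro b
    rw [hcount]
    exact h3 b
  · rw [hcount, hcount]
    exact hne
  · intro k
    have h1 := hcon _ (hg.updk i k)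
    rw [← evL_toWord] at h1
    exact (fix_upd_iff hP hφ hb k).1 h1

theorem PF.unit (U : ℤ → Prop) {n : ℕ} {w : FreeGroup (Fin n)} {i : Fin n}
    (hw : U (expSum i w)) : PF U w := by
  intro G _ H _ hU Q _ _ hP φ hφ g
  by_contra hcon
  push Not at hcon
  have hg : Adm H g g := fun i => by simp
  have hb := hcon g hg
  obtain ⟨q, hq⟩ := exists_ne (1 : Q)
  obtain ⟨h, rfl⟩ := hφ q
  obtain ⟨k, hk, hke⟩ := hU n w i hw g h h.2
  have h1 := hcon _ (hg.updk i ⟨k, hk⟩)
  rw [hke, act_mul, hb] at h1
  exact hq ((act_coe_eq_iff hP hφ h).1 h1)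

theorem Adm.lift {G : Type} [Group G] {H : Subgroup G} [H.Normal] {n : ℕ} {g y : Fin n → G}
    (h : Adm H g y) (w : FreeGroup (Fin n)) :
    (FreeGroup.lift g w)⁻¹ * FreeGroup.lift y w ∈ H := by
  have h1 : (QuotientGroup.mk' H).comp (FreeGroup.lift g)
      = (QuotientGroup.mk' H).comp (FreeGroup.lift y) := by
    ext i
    simp only [MonoidHom.comp_apply, FreeGroup.lift_apply_of, QuotientGroup.mk'_apply]
    exact QuotientGroup.eq.2 (h i)
  have h2 := DFunLike.congr_fun h1 w
  simp only [MonoidHom.comp_apply, QuotientGroup.mk'_apply] at h2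
  exact QuotientGroup.eq.1 h2

/-- consequences inherit prime-freeness upwards -/
theorem PF.cons (U : ℤ → Prop) {n m : ℕ} {w : FreeGroup (Fin n)} {w' : FreeGroup (Fin m)}
    (ρ : FreeGroup (Fin m) →* FreeGroup (Fin n))
    (hw' : w' ∈ Subgroup.closure {u | ∃ τ : FreeGroup (Fin n) →* FreeGroup (Fin m),
      ρ.comp τ = MonoidHom.id _ ∧ u = τ w})
    (h : PF U w') : PF U w := by
  intro G _ H _ hU Q _ _ hP φ hφ g
  by_contra hcon
  push Not at hcon
  obtain ⟨y, hy, hne⟩ := h G H hU Q hP φ hφ (fun i => FreeGroup.lift g (ρ (FreeGroup.of i)))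
  apply hne
  let S : Subgroup G :=
    { carrier := {x | act x φ = φ}
      mul_mem' := by
        intro a b ha hb
        change act (a * b) φ = φ
        rw [act_mul, show act b φ = φ from hb]
        exact ha
      one_mem' := act_one φ
      inv_mem' := by
        intro a ha
        exact act_inv_eq_iff.2 (show φ = act a φ from (show act a φ = φ from ha).symm) }
  have hle : Subgroup.closure {u | ∃ τ : FreeGroup (Fin n) →* FreeGroup (Fin m),
      ρ.comp τ = MonoidHom.id _ ∧ u = τ w} ≤ S.comap (FreeGroup.lift y) := by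
    rw [Subgroup.closure_le]
    rintro u ⟨τ, hτ, rfl⟩
    change act (FreeGroup.lift y (τ w)) φ = φ
    have e1 : FreeGroup.lift y (τ w)
        = FreeGroup.lift (fun j => FreeGroup.lift y (τ (FreeGroup.of j))) w := by
      have : (FreeGroup.lift y).comp τ
          = FreeGroup.lift (fun j => FreeGroup.lift y (τ (FreeGroup.of j))) := by
        ext j
        simp
      exact DFunLike.congr_fun this w
    rw [e1]
    apply hcon
    intro j
    have h1 := hy.lift (τ (FreeGroup.of j))
    have h2 : FreeGroup.lift (fun i => FreeGroup.lift g (ρ (FreeGroup.of i))) (τ (FreeGroup.of j))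
        = g j := by
      have e2 : FreeGroup.lift (fun i => FreeGroup.lift g (ρ (FreeGroup.of i)))
          = (FreeGroup.lift g).comp ρ := by
        ext i
        simp
      rw [e2, MonoidHom.comp_apply]
      have e3 := DFunLike.congr_fun hτ (FreeGroup.of j)
      simp only [MonoidHom.comp_apply, MonoidHom.id_apply] at e3
      rw [e3, FreeGroup.lift_apply_of]
    rwa [h2] at h1
  exact hle hw'

/-- two elements of `G` whose conjugates by `H` commute at a point : one of them fixes the point
reached by the other -/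
theorem comm_point {G Q : Type*} [Group G] [Group Q] {H : Subgroup G} [H.Normal]
    (hP : PrimeGrp Q) [Nontrivial Q] {φ : H →* Q} (hφ : Function.Surjective φ) (U V : G)
    (h : ∀ h : H, act ((h : G)⁻¹ * U * h * V) φ = act (V * ((h : G)⁻¹ * U * h)) φ) :
    act U (act V φ) = act V φ ∨ act V (act U φ) = act U φ := by
  set Φ : H →* Q := act (U * V) φ with hΦ
  have hΦs : Function.Surjective Φ := act_surj _ hφ
  have hΦ2 : Φ = act (V * U) φ := by
    have := h 1
    simpa using this
  set Ψ : H →* Q := act U φ with hΨ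
  have hΨ2 : Ψ = act V⁻¹ Φ := by
    rw [hΦ2, ← act_mul, inv_mul_cancel_left]
  -- n h = h⁻¹ U h U⁻¹
  let n : H → H := fun h => h⁻¹ * MulAut.conjNormal U h
  have hn : ∀ h : H, ((n h : H) : G) = (h : G)⁻¹ * U * h * U⁻¹ := by
    intro h
    simp [n, MulAut.conjNormal_apply, mul_assoc]
  have hagree : ∀ h : H, Φ (n h) = Ψ (n h) := by
    intro k
    have h1 := h k
    have e1 : (k : G)⁻¹ * U * k * V = (n k : G) * (U * V) := by
      rw [hn]; group
    have e2 : V * ((k : G)⁻¹ * U * k) = ((MulAut.conjNormal V (n k) : H) : G) * (V * U) := by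
      rw [MulAut.conjNormal_apply, hn]; group
    rw [e1, e2, act_mul, act_mul _ (V * U), ← hΦ2] at h1
    rw [← hΦ] at h1
    have h2 : act (((MulAut.conjNormal V (n k))⁻¹ * n k : H) : G) Φ = Φ := by
      rw [Subgroup.coe_mul, Subgroup.coe_inv, act_mul, h1, ← act_mul, inv_mul_cancel, act_one]
    rw [act_coe_eq_iff hP hΦs, map_mul, map_inv, inv_mul_eq_one] at h2
    rw [hΨ2, act_inv_apply]
    exact h2.symm
  have hconj : ∀ h q : H, Φ (q⁻¹ * n h * q) = Ψ (q⁻¹ * n h * q) := by
    intro h q
    have e : q⁻¹ * n h * q = n (h * q) * (n q)⁻¹ := by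
      simp only [n, map_mul, mul_inv_rev]
      group
    rw [e, map_mul Φ (n (h * q)) (n q)⁻¹, map_mul Ψ (n (h * q)) (n q)⁻¹, map_inv Φ (n q),
      map_inv Ψ (n q), hagree (h * q), hagree q]
  by_cases hall : ∀ h, Φ (n h) = 1
  · left
    have h1 : act U⁻¹ Φ = Φ := by
      ext k
      have := hall k
      simp only [n, map_mul, map_inv] at this
      rw [act_inv_apply]
      exact (inv_mul_eq_one.1 this).symm
    have h2 : act V φ = Φ := by
      rw [← h1, hΦ, ← act_mul, inv_mul_cancel_left]
    rw [h2]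
    exact (act_inv_eq_iff.1 h1).symm
  · right
    push Not at hall
    obtain ⟨h0, hd⟩ := hall
    have hΨΦ : Ψ = Φ := by
      ext q
      have hcomm : ∀ p : H, (Ψ q * (Φ q)⁻¹) * (Φ (p⁻¹ * n h0 * p))
          = (Φ (p⁻¹ * n h0 * p)) * (Ψ q * (Φ q)⁻¹) := by
        intro p
        have h1 := hconj h0 (p * q)
        have h2 := hconj h0 p
        have e : (p * q)⁻¹ * n h0 * (p * q) = q⁻¹ * (p⁻¹ * n h0 * p) * q := by group
        rw [e, map_mul, map_mul, map_mul Ψ, map_mul Ψ, ← h2, map_inv, map_inv] at h1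
        generalize Φ (p⁻¹ * n h0 * p) = d at *
        have h3 := congrArg (fun z => Ψ q * z * (Φ q)⁻¹) h1
        have e1 : Ψ q * ((Φ q)⁻¹ * d * Φ q) * (Φ q)⁻¹ = Ψ q * (Φ q)⁻¹ * d := by group
        have e2 : Ψ q * ((Ψ q)⁻¹ * d * Ψ q) * (Φ q)⁻¹ = d * (Ψ q * (Φ q)⁻¹) := by group
        simp only [e1, e2] at h3
        exact h3
      rcases hP (Ψ q * (Φ q)⁻¹) (Φ (n h0)) (fun r => by
        obtain ⟨p, hp⟩ := hΦs r⁻¹
        have := hcomm p
        rw [map_mul, map_mul, map_inv, hp, inv_inv] at this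
        exact this) with h' | h'
      · exact mul_inv_eq_one.1 h'
      · exact absurd h' hd
    change act V Ψ = Ψ
    have h3 : act V Ψ = Φ := by rw [hΨ2, ← act_mul, mul_inv_cancel, act_one]
    rw [h3, hΨΦ]

/-- disjoint commutators -/
theorem PF.comm (U : ℤ → Prop) {a b : ℕ} {u : FreeGroup (Fin a)} {v : FreeGroup (Fin b)}
    (hu : PF U u) (hv : PF U v) : PF U (dcomm u v) := by
  intro G _ H _ hU Q _ _ hP φ hφ g
  by_contra hcon
  push Not at hcon
  set gx : Fin a → G := fun i => g (Fin.castAdd b i) with hgx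
  set gz : Fin b → G := fun i => g (Fin.natAdd a i) with hgz
  have key : ∀ (x : Fin a → G) (z : Fin b → G), Adm H gx x → Adm H gz z →
      act ((FreeGroup.lift x u)⁻¹ * (FreeGroup.lift z v)⁻¹) φ
        = act ((FreeGroup.lift z v)⁻¹ * (FreeGroup.lift x u)⁻¹) φ := by
    intro x z hx hz
    have h1 := hcon (Fin.append x z) (by
      intro i
      refine Fin.addCases (fun j => ?_) (fun j => ?_) i
      · rw [Fin.append_left]; exact hx j
      · rw [Fin.append_right]; exact hz j)
    have e1 : FreeGroup.lift (Fin.append x z) (FreeGroup.map (Fin.castAdd b) u)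
        = FreeGroup.lift x u := by
      have : (FreeGroup.lift (Fin.append x z)).comp (FreeGroup.map (Fin.castAdd b))
          = FreeGroup.lift x := by
        ext i
        simp
      exact DFunLike.congr_fun this u
    have e2 : FreeGroup.lift (Fin.append x z) (FreeGroup.map (Fin.natAdd a) v)
        = FreeGroup.lift z v := by
      have : (FreeGroup.lift (Fin.append x z)).comp (FreeGroup.map (Fin.natAdd a))
          = FreeGroup.lift z := by
        ext i
        simp
      exact DFunLike.congr_fun this v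
    rw [dcomm, map_mul, map_mul, map_mul, map_inv, map_inv, e1, e2, mul_assoc, act_mul] at h1
    have h2 : act (FreeGroup.lift x u * FreeGroup.lift z v)⁻¹ φ
        = act ((FreeGroup.lift x u)⁻¹ * (FreeGroup.lift z v)⁻¹) φ := act_inv_eq_iff.2 h1.symm
    rw [mul_inv_rev] at h2
    exact h2.symm
  have hadm_conj : ∀ (x : Fin a → G) (h : H), Adm H gx x →
      Adm H gx (fun i => (h : G)⁻¹ * x i * h) := by
    intro x h hx i
    have h1 : (gx i)⁻¹ * (h : G)⁻¹ * gx i ∈ H := by
      have := Subgroup.Normal.conj_mem (inferInstance : H.Normal) _ (H.inv_mem h.2) (gx i)⁻¹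
      rwa [inv_inv] at this
    have e : (gx i)⁻¹ * ((h : G)⁻¹ * x i * h)
        = ((gx i)⁻¹ * (h : G)⁻¹ * gx i) * ((gx i)⁻¹ * x i) * h := by group
    rw [e]
    exact H.mul_mem (H.mul_mem h1 (hx i)) h.2
  have hlift_conj : ∀ (x : Fin a → G) (h : H),
      FreeGroup.lift (fun i => (h : G)⁻¹ * x i * h) u = (h : G)⁻¹ * FreeGroup.lift x u * h := by
    intro x h
    have : FreeGroup.lift (fun i => (h : G)⁻¹ * x i * h)
        = (MulAut.conj (h : G)⁻¹).toMonoidHom.comp (FreeGroup.lift x) := by
      ext i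
      simp
    rw [this]
    simp
  have hgxx : Adm H gx gx := fun i => by simp
  have hgzz : Adm H gz gz := fun i => by simp
  obtain ⟨x, hx, hxne⟩ := hu G H hU Q hP (act (FreeGroup.lift gz v)⁻¹ φ) (act_surj _ hφ) gx
  obtain ⟨z, hz, hzne⟩ := hv G H hU Q hP (act (FreeGroup.lift gx u)⁻¹ φ) (act_surj _ hφ) gz
  have horb1 : Orb (act (FreeGroup.lift gz v)⁻¹ φ) (act (FreeGroup.lift z v)⁻¹ φ) := by
    have h1 := hz.lift v
    refine ⟨⟨_, H.inv_mem h1⟩, ?_⟩
    rw [← act_mul]
    congr 1
    change _ = ((FreeGroup.lift gz v)⁻¹ * FreeGroup.lift z v)⁻¹ * (FreeGroup.lift gz v)⁻¹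
    group
  have horb2 : Orb (act (FreeGroup.lift gx u)⁻¹ φ) (act (FreeGroup.lift x u)⁻¹ φ) := by
    have h1 := hx.lift u
    refine ⟨⟨_, H.inv_mem h1⟩, ?_⟩
    rw [← act_mul]
    congr 1
    change _ = ((FreeGroup.lift gx u)⁻¹ * FreeGroup.lift x u)⁻¹ * (FreeGroup.lift gx u)⁻¹
    group
  rcases comm_point hP hφ (FreeGroup.lift x u)⁻¹ (FreeGroup.lift z v)⁻¹ (by
    intro h
    have h1 := key _ z (hadm_conj x h hx) hz
    rw [hlift_conj] at h1
    have e : ((h : G)⁻¹ * FreeGroup.lift x u * h)⁻¹ = (h : G)⁻¹ * (FreeGroup.lift x u)⁻¹ * h := by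
      group
    rwa [e] at h1) with h1 | h1
  · apply hxne
    have h2 := (act_inv_eq_iff.1 h1)
    exact (horb1.fix_iff).2 h2.symm
  · apply hzne
    have h2 := (act_inv_eq_iff.1 h1)
    exact (horb2.fix_iff).2 h2.symm

end Pool.Agent.H32.CI
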