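import Mathlib
import Pool.Agent.H32.CI.PF

/-!
A variable occurring at most three times and unequally often with the two signs
(MP_551747_al, coset identities).
-/

set_option autoImplicit false
set_option linter.unusedSectionVars false
set_option linter.unusedSimpArgs false

namespace Pool.Agent.H32.CI

open FreeGroup hiding map_mul map_one map_inv

theorem ab_of_prod {K Q : Type*} [Group K] [Group Q] {α β γ : K →* Q}
    (hα : Function.Surjective α) (hβ : Function.Surjective β)
    (h : ∀ k, α k * β k = γ k) (a b : Q) : a * b = b * a := by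
  obtain ⟨l, rfl⟩ := hα a
  obtain ⟨k, rfl⟩ := hβ b
  have e1 := h (k * l)
  rw [map_mul, map_mul, map_mul, ← h k, ← h l] at e1
  have e2 := congrArg (fun z => (α k)⁻¹ * z * (β l)⁻¹) e1
  simpa [mul_assoc] using e2

theorem ab_of_inv {K Q : Type*} [Group K] [Group Q] {α β : K →* Q}
    (hα : Function.Surjective α) (h : ∀ k, α k * β k = 1) (a b : Q) : a * b = b * a := by
  obtain ⟨k, rfl⟩ := hα a
  obtain ⟨l, rfl⟩ := hα b
  have e1 := h (k * l)
  rw [map_mul, map_mul, eq_inv_of_mul_eq_one_right (h k), eq_inv_of_mul_eq_one_right (h l)] at e1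
  calc α k * α l = (α k * α l * ((α k)⁻¹ * (α l)⁻¹)) * (α l * α k) := by group
    _ = α l * α k := by rw [e1, one_mul]

theorem engel {n : ℕ} {w : FreeGroup (Fin n)} (i : Fin n)
    (h3 : w.toWord.countP (fun l => l.1 = i) ≤ 3)
    (hne : w.toWord.count (i, true) ≠ w.toWord.count (i, false))
    (G : Type) [Group G] (H : Subgroup G) [H.Normal] (g : Fin n → G) (hid : CosetId w G H g)
    (x y : G) (hx : x ∈ H) (hy : y ∈ H) :
    x * (y⁻¹ * x * y) = (y⁻¹ * x * y) * x := by
  set φ : H →* H := MonoidHom.id H with hφ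
  have hφs : Function.Surjective φ := fun q => ⟨q, rfl⟩
  set P := psis i g φ w.toWord with hPdef
  have hpr : ∀ k : H, pr P k = 1 := by
    intro k
    obtain ⟨E, h1, h2⟩ := insertion i g k w.toWord φ
    have hg : Adm H g g := fun j => by simp
    rw [evL_toWord, evL_toWord, hid _ (hg.updk i k), hid _ hg, mul_one] at h1
    have hE : E = 1 := Subtype.ext h1.symm
    rw [← h2, hE, map_one]
  have hsurj : ∀ q ∈ P, Function.Surjective q.1 := psis_surj hφs
  have hlen : P.length ≤ 3 := by
    rw [hPdef, psis_length]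
    exact h3
  have hcount : ∀ b, (P.map Prod.snd).count b = w.toWord.count (i, b) := by
    intro b
    rw [hPdef, psis_snd, List.count, List.countP_map, List.countP_filter, List.count]
    apply List.countP_congr
    rintro ⟨x1, x2⟩ _
    simp only [Function.comp_apply, Bool.and_eq_true, beq_iff_eq, decide_eq_true_eq,
      Prod.mk.injEq]
    tauto
  have hne' : (P.map Prod.snd).count true ≠ (P.map Prod.snd).count false := by
    rw [hcount, hcount]
    exact hne
  clear_value P
  have hab : (∀ a b : H, a * b = b * a) → x * (y⁻¹ * x * y) = (y⁻¹ * x * y) * x := by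
    intro hc
    have h1 := congrArg Subtype.val (hc ⟨x, hx⟩ ⟨y, hy⟩)
    simp only [Subgroup.coe_mul] at h1
    have h2 : y⁻¹ * x * y = x := by
      rw [mul_assoc, h1, inv_mul_cancel_left]
    rw [h2]
  have hfin : (∀ a b : H, a * (b⁻¹ * a * b) = (b⁻¹ * a * b) * a) →
      x * (y⁻¹ * x * y) = (y⁻¹ * x * y) * x := by
    intro hc
    have h1 := congrArg Subtype.val (hc ⟨x, hx⟩ ⟨y, hy⟩)
    simpa using h1
  have hthree : ∀ ψ₁ ψ₂ ψ₃ : H →* H, Function.Surjective ψ₁ → (∀ k, ψ₁ k * ψ₂ k * ψ₃ k = 1) →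
      ∀ a b : H, a * (b⁻¹ * a * b) = (b⁻¹ * a * b) * a := by
    intro ψ₁ ψ₂ ψ₃ hs h a b
    obtain ⟨k, rfl⟩ := hs a
    obtain ⟨l, rfl⟩ := hs b
    exact comm_conj_of_three h k l
  rcases P with _ | ⟨⟨ψ₁, b₁⟩, P⟩
  · exact absurd rfl hne'
  rcases P with _ | ⟨⟨ψ₂, b₂⟩, P⟩
  · apply hab
    have h1 : ∀ k, ψ₁ k = 1 := by
      intro k
      have := hpr k
      cases b₁ <;> simpa using this
    intro a b
    obtain ⟨k, rfl⟩ := hsurj (ψ₁, b₁) (by simp) a
    obtain ⟨l, rfl⟩ := hsurj (ψ₁, b₁) (by simp) b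
    simp [h1]
  rcases P with _ | ⟨⟨ψ₃, b₃⟩, P⟩
  · apply hab
    cases b₁ <;> cases b₂
    · apply ab_of_inv (α := ψ₂) (β := ψ₁) (hsurj (ψ₂, false) (by simp))
      intro k
      have := hpr k
      simp only [pr_cons, pr_nil, mul_one] at this
      rw [← inv_inj, mul_inv_rev, inv_one]
      exact this
    · exact absurd rfl hne'
    · exact absurd rfl hne'
    · apply ab_of_inv (α := ψ₁) (β := ψ₂) (hsurj (ψ₁, true) (by simp))
      intro k
      have := hpr k
      simpa only [pr_cons, pr_nil, mul_one, if_true] using this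
  rcases P with _ | ⟨q, P⟩
  · have s1 := hsurj (ψ₁, b₁) (by simp)
    have s2 := hsurj (ψ₂, b₂) (by simp)
    have s3 := hsurj (ψ₃, b₃) (by simp)
    simp only at s1 s2 s3
    cases b₁ <;> cases b₂ <;> cases b₃ <;>
      simp only [pr_cons, pr_nil, mul_one, if_true, Bool.false_eq_true, if_false] at hpr
    · apply hfin
      refine hthree ψ₃ ψ₂ ψ₁ s3 (fun k => ?_)
      rw [← inv_inj, mul_inv_rev, mul_inv_rev, inv_one]
      exact hpr k
    · apply hab
      refine ab_of_prod (α := ψ₂) (β := ψ₁) (γ := ψ₃) s2 s1 (fun k => ?_)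
      have := hpr k
      rw [← mul_assoc, ← mul_inv_rev, inv_mul_eq_one] at this
      exact this
    · apply hab
      refine ab_of_prod (α := ψ₁) (β := ψ₃) (γ := ψ₂) s1 s3 (fun k => ?_)
      have := hpr k
      rw [inv_mul_eq_one, eq_mul_inv_iff_mul_eq] at this
      exact this
    · apply hab
      refine ab_of_prod (α := ψ₂) (β := ψ₃) (γ := ψ₁) s2 s3 (fun k => ?_)
      have := hpr k
      rw [inv_mul_eq_one] at this
      exact this.symm
    · apply hab
      refine ab_of_prod (α := ψ₃) (β := ψ₂) (γ := ψ₁) s3 s2 (fun k => ?_)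
      have := hpr k
      rw [← mul_inv_rev, mul_inv_eq_one] at this
      exact this.symm
    · apply hab
      refine ab_of_prod (α := ψ₃) (β := ψ₁) (γ := ψ₂) s3 s1 (fun k => ?_)
      have := hpr k
      rw [mul_eq_one_iff_eq_inv, mul_inv_rev, inv_inv] at this
      rw [this]
      group
    · apply hab
      refine ab_of_prod (α := ψ₁) (β := ψ₂) (γ := ψ₃) s1 s2 (fun k => ?_)
      have := hpr k
      rw [← mul_assoc, mul_inv_eq_one] at this
      exact this
    · apply hfin
      refine hthree ψ₁ ψ₂ ψ₃ s1 (fun k => ?_)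
      have := hpr k
      rw [mul_assoc]
      exact this
  · simp only [List.length_cons] at hlen
    omega

end Pool.Agent.H32.CI
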