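import Mathlib
import Pool.Agent.H32.CI.Engel

/-!
Explicit law for coset identities in which some variable occurs at most four times, unequally often
with the two signs and not four times with the same sign, or in which every variable occurs at most
three times (MP_551747_al, coset identities). The first argument is due to helper15.
-/

set_option autoImplicit false
set_option linter.unusedSectionVars false
set_option linter.unusedSimpArgs false

namespace Pool.Agent.H32.CI

open FreeGroup hiding map_mul map_one map_inv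

/-- a homomorphism that is a product of three homomorphisms, two of them onto -/
theorem comm_conj_of_four {K Q : Type*} [Group K] [Group Q] {α β γ δ : K →* Q}
    (hβ : Function.Surjective β) (hγ : Function.Surjective γ)
    (h : ∀ k, α k * β k * γ k = δ k) (u d : Q) :
    u * (d⁻¹ * u * d) = (d⁻¹ * u * d) * u := by
  have hR : ∀ k l, α l * β k * β l * γ k = β k * γ k * α l * β l := by
    intro k l
    have e1 := h (k * l)
    rw [map_mul, map_mul, map_mul, map_mul, ← h k, ← h l] at e1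
    have e2 := congrArg (fun z => (α k)⁻¹ * z * (γ l)⁻¹) e1
    simpa [mul_assoc] using e2
  obtain ⟨k, hk⟩ := hγ u⁻¹
  obtain ⟨l, hl⟩ := hβ u
  obtain ⟨m, hm⟩ := hβ d⁻¹
  have e1 := hR k l
  have e2 := hR k m
  have e3 := hR k (l * m)
  simp only [map_mul] at e3
  rw [hk] at e1 e2 e3
  rw [hl] at e1 e3
  rw [hm] at e2 e3
  generalize β k = a at *
  generalize α l = A at *
  generalize α m = A' at *
  -- e1 : A * a * u * u⁻¹ = a * u⁻¹ * A * u
  have f1 : A * a = a * u⁻¹ * A * u := by
    rw [← e1]; group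
  have f2 : A' * a = a * u⁻¹ * A' * d⁻¹ * u * d := by
    have : A' * a = (A' * a * d⁻¹ * u⁻¹) * u * d := by group
    rw [this, e2]
  have f3 : A * A' * a * (u * d⁻¹) * u⁻¹
      = a * u⁻¹ * A * A' * (d⁻¹ * u * d * u * d⁻¹ * u⁻¹) := by
    calc A * A' * a * (u * d⁻¹) * u⁻¹
        = A * (A' * a) * u * d⁻¹ * u⁻¹ := by group
      _ = A * (a * u⁻¹ * A' * d⁻¹ * u * d) * u * d⁻¹ * u⁻¹ := by rw [f2]
      _ = (A * a) * (u⁻¹ * A' * d⁻¹ * u * d * u * d⁻¹ * u⁻¹) := by group
      _ = (a * u⁻¹ * A * u) * (u⁻¹ * A' * d⁻¹ * u * d * u * d⁻¹ * u⁻¹) := by rw [f1]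
      _ = a * u⁻¹ * A * A' * (d⁻¹ * u * d * u * d⁻¹ * u⁻¹) := by group
  have f4 : a * u⁻¹ * A * A' * (d⁻¹ * u * d * u * d⁻¹ * u⁻¹)
      = a * u⁻¹ * A * A' * (u * d⁻¹) := by
    rw [← f3, e3]; group
  have f5 := mul_left_cancel f4
  have f6 : d⁻¹ * u * d * u = (d⁻¹ * u * d * u * d⁻¹ * u⁻¹) * u * d := by group
  rw [f6, f5]
  group

theorem psis_count {n : ℕ} {G : Type} [Group G] {H : Subgroup G} [H.Normal] (i : Fin n)
    (g : Fin n → G) (L : List (Fin n × Bool)) (b : Bool) :
    ((psis i g (MonoidHom.id H) L).map Prod.snd).count b = L.count (i, b) := by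
  rw [psis_snd, List.count, List.countP_map, List.countP_filter, List.count]
  apply List.countP_congr
  rintro ⟨x1, x2⟩ _
  simp only [Function.comp_apply, Bool.and_eq_true, beq_iff_eq, decide_eq_true_eq,
    Prod.mk.injEq]
  tauto

theorem engel4 {n : ℕ} {w : FreeGroup (Fin n)} (i : Fin n)
    (h4 : w.toWord.countP (fun l => l.1 = i) ≤ 4)
    (h3 : ∀ b, w.toWord.count (i, b) ≤ 3)
    (hne : w.toWord.count (i, true) ≠ w.toWord.count (i, false))
    (G : Type) [Group G] (H : Subgroup G) [H.Normal] (g : Fin n → G) (hid : CosetId w G H g)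
    (x y : G) (hx : x ∈ H) (hy : y ∈ H) :
    x * (y⁻¹ * x * y) = (y⁻¹ * x * y) * x := by
  by_cases hc3 : w.toWord.countP (fun l => l.1 = i) ≤ 3
  · exact engel i hc3 hne G H g hid x y hx hy
  have hc4 : w.toWord.countP (fun l => l.1 = i) = 4 := by omega
  set P := psis i g (MonoidHom.id H) w.toWord with hPdef
  have hpr : ∀ k : H, pr P k = 1 := by
    intro k
    obtain ⟨E, h1, h2⟩ := insertion i g k w.toWord (MonoidHom.id H)
    have hg : Adm H g g := fun j => by simp
    rw [evL_toWord, evL_toWord, hid _ (hg.updk i k), hid _ hg, mul_one] at h1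
    have hE : E = 1 := Subtype.ext h1.symm
    rw [← h2, hE, map_one]
  have hsurj : ∀ q ∈ P, Function.Surjective q.1 := psis_surj fun q => ⟨q, rfl⟩
  have hlen : P.length = 4 := by
    rw [hPdef, psis_length]
    exact hc4
  have hcount : ∀ b, (P.map Prod.snd).count b = w.toWord.count (i, b) := fun b =>
    psis_count i g w.toWord b
  have hne' : (P.map Prod.snd).count true ≠ (P.map Prod.snd).count false := by
    rw [hcount, hcount]
    exact hne
  have h3' : ∀ b, (P.map Prod.snd).count b ≤ 3 := fun b => by rw [hcount]; exact h3 b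
  clear_value P
  have hfour : ∀ α β γ δ : H →* H, Function.Surjective β → Function.Surjective γ →
      (∀ k, α k * β k * γ k = δ k) → x * (y⁻¹ * x * y) = (y⁻¹ * x * y) * x := by
    intro α β γ δ hb hc h
    have h1 := congrArg Subtype.val (comm_conj_of_four hb hc h ⟨x, hx⟩ ⟨y, hy⟩)
    simpa using h1
  rcases P with _ | ⟨⟨ψ₁, b₁⟩, P⟩
  · simp at hlen
  rcases P with _ | ⟨⟨ψ₂, b₂⟩, P⟩
  · simp at hlen
  rcases P with _ | ⟨⟨ψ₃, b₃⟩, P⟩
  · simp at hlen
  rcases P with _ | ⟨⟨ψ₄, b₄⟩, P⟩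
  · simp at hlen
  rcases P with _ | ⟨q, P⟩
  · have s1 := hsurj (ψ₁, b₁) (by simp)
    have s2 := hsurj (ψ₂, b₂) (by simp)
    have s3 := hsurj (ψ₃, b₃) (by simp)
    have s4 := hsurj (ψ₄, b₄) (by simp)
    simp only at s1 s2 s3 s4
    have ht := h3' true
    have hf := h3' false
    clear h3' hcount hsurj hlen
    cases b₁ <;> cases b₂ <;> cases b₃ <;> cases b₄ <;>
      simp only [pr_cons, pr_nil, mul_one, if_true, Bool.false_eq_true, if_false] at hpr <;>
      first
        | (exfalso; simp at hf; done)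
        | (exfalso; simp at ht; done)
        | (exfalso; exact hne' rfl)
        | skip
    · -- FFFT
      refine hfour ψ₃ ψ₂ ψ₁ ψ₄ s2 s1 (fun k => ?_)
      have := hpr k
      rw [← mul_assoc, ← mul_assoc, ← mul_inv_rev, ← mul_inv_rev, inv_mul_eq_one] at this
      rw [mul_assoc]
      exact this
    · -- FFTF
      refine hfour ψ₂ ψ₁ ψ₄ ψ₃ s1 s4 (fun k => ?_)
      have := hpr k
      rw [← mul_assoc, ← mul_inv_rev, inv_mul_eq_one] at this
      rw [this]
      group
    · -- FTFF
      refine hfour ψ₁ ψ₄ ψ₃ ψ₂ s4 s3 (fun k => ?_)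
      have := hpr k
      rw [inv_mul_eq_one, ← mul_inv_rev, eq_mul_inv_iff_mul_eq] at this
      rw [mul_assoc]
      exact this
    · -- FTTT
      refine hfour ψ₂ ψ₃ ψ₄ ψ₁ s3 s4 (fun k => ?_)
      have := hpr k
      rw [inv_mul_eq_one] at this
      rw [mul_assoc]
      exact this.symm
    · -- TFFF
      refine hfour ψ₄ ψ₃ ψ₂ ψ₁ s3 s2 (fun k => ?_)
      have := hpr k
      rw [← mul_inv_rev, ← mul_inv_rev, mul_inv_eq_one] at this
      exact this.symm
    · -- TFTT
      refine hfour ψ₃ ψ₄ ψ₁ ψ₂ s4 s1 (fun k => ?_)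
      have := hpr k
      have e : ψ₁ k = (ψ₄ k)⁻¹ * (ψ₃ k)⁻¹ * ψ₂ k := by
        rw [mul_eq_one_iff_eq_inv, mul_inv_rev, mul_inv_rev, inv_inv] at this
        exact this
      rw [e]
      group
    · -- TTFT
      refine hfour ψ₄ ψ₁ ψ₂ ψ₃ s1 s2 (fun k => ?_)
      have := hpr k
      have e : ψ₄ k = ψ₃ k * ((ψ₂ k)⁻¹ * (ψ₁ k)⁻¹) := by
        rw [← mul_assoc, ← mul_assoc, mul_eq_one_iff_inv_eq, mul_inv_rev, mul_inv_rev,
          inv_inv] at this
        exact this.symm
      rw [e]
      group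
    · -- TTTF
      refine hfour ψ₁ ψ₂ ψ₃ ψ₄ s2 s3 (fun k => ?_)
      have := hpr k
      rw [← mul_assoc, ← mul_assoc, mul_inv_eq_one] at this
      exact this
  · simp only [List.length_cons] at hlen
    omega

end Pool.Agent.H32.CI
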