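import Mathlib
import Pool.Agent.H32.CI.Engel4

/-!
Explicit law for coset identities in which every variable occurs at most three times
(MP_551747_al, coset identities).
-/

set_option autoImplicit false
set_option linter.unusedSectionVars false
set_option linter.unusedSimpArgs false

namespace Pool.Agent.H32.CI

open FreeGroup hiding map_mul map_one map_inv

section
variable {ι : Type*} [DecidableEq ι]

theorem countP_fst (i : ι) (L : List (ι × Bool)) :
    L.countP (fun l => l.1 = i) = L.count (i, true) + L.count (i, false) := by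
  induction L with
  | nil => simp
  | cons l L ih =>
    rcases l with ⟨j, b⟩
    rw [List.countP_cons, List.count_cons, List.count_cons, ih]
    by_cases hj : j = i
    · subst hj
      cases b <;> simp <;> omega
    · simp [hj]

/-- a pair of letters with the same variable and no repeated variable strictly between them -/
theorem exists_inner {L : List (ι × Bool)}
    (h : ∃ A x B x' C, L = A ++ x :: (B ++ x' :: C) ∧ x.1 = x'.1) :
    ∃ A x B x' C, L = A ++ x :: (B ++ x' :: C) ∧ x.1 = x'.1 ∧
      (∀ z ∈ B, z.1 ≠ x.1) ∧
      ∀ B₁ z B₂, B = B₁ ++ z :: B₂ → (∀ t ∈ B₁, t.1 ≠ z.1) ∧ ∀ t ∈ B₂, t.1 ≠ z.1 := by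
  classical
  have hex : ∃ m, ∃ (A : List (ι × Bool)) (x : ι × Bool) (B : List (ι × Bool)) (x' : ι × Bool)
      (C : List (ι × Bool)), L = A ++ x :: (B ++ x' :: C) ∧ x.1 = x'.1 ∧ B.length = m := by
    obtain ⟨A, x, B, x', C, h1, h2⟩ := h
    exact ⟨B.length, A, x, B, x', C, h1, h2, rfl⟩
  obtain ⟨A, x, B, x', C, h1, h2, h3⟩ := Nat.find_spec hex
  have hmin : ∀ (A' : List (ι × Bool)) (y : ι × Bool) (B' : List (ι × Bool)) (y' : ι × Bool)
      (C' : List (ι × Bool)), L = A' ++ y :: (B' ++ y' :: C') → y.1 = y'.1 →
      B.length ≤ B'.length := by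
    intro A' y B' y' C' e1 e2
    rw [h3]
    exact Nat.find_min' hex ⟨A', y, B', y', C', e1, e2, rfl⟩
  refine ⟨A, x, B, x', C, h1, h2, ?_, ?_⟩
  · intro z hz hzx
    obtain ⟨B₁, B₂, rfl⟩ := List.append_of_mem hz
    have := hmin A x B₁ z (B₂ ++ x' :: C) (by rw [h1]; simp) hzx.symm
    simp at this
  · intro B₁ z B₂ hB
    constructor
    · intro t ht htz
      obtain ⟨B₁₁, B₁₂, rfl⟩ := List.append_of_mem ht
      have := hmin (A ++ x :: B₁₁) t B₁₂ z (B₂ ++ x' :: C) (by rw [h1, hB]; simp) htz
      rw [hB] at this
      simp at this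
      omega
    · intro t ht htz
      obtain ⟨B₂₁, B₂₂, rfl⟩ := List.append_of_mem ht
      have := hmin (A ++ x :: B₁) z B₂₁ t (B₂₂ ++ x' :: C) (by rw [h1, hB]; simp) htz.symm
      rw [hB] at this
      simp at this
      omega

end

theorem comm_of_pairs {n : ℕ} {w : FreeGroup (Fin n)} (hw : w ≠ 1)
    (h3 : ∀ i, w.toWord.countP (fun l => l.1 = i) ≤ 3)
    (heq : ∀ i, w.toWord.count (i, true) = w.toWord.count (i, false))
    (G : Type) [Group G] (H : Subgroup G) [H.Normal] (g : Fin n → G) (hid : CosetId w G H g)
    (x y : G) (hx : x ∈ H) (hy : y ∈ H) : x * y = y * x := by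
  have hL : w.toWord ≠ [] := fun h0 => hw (FreeGroup.toWord_eq_nil_iff.1 h0)
  have hred : FreeGroup.IsReduced w.toWord := FreeGroup.isReduced_toWord
  have hev : ∀ z : Fin n → G, Adm H g z → evL z w.toWord = 1 := by
    intro z hz
    rw [evL_toWord]
    exact hid z hz
  have hle : ∀ l, w.toWord.count l ≤ 1 := by
    rintro ⟨i, b⟩
    have h1 := h3 i
    rw [countP_fst] at h1
    have h2 := heq i
    cases b <;> omega
  generalize w.toWord = L at *
  have hex : ∃ A x B x' C, L = A ++ x :: (B ++ x' :: C) ∧ x.1 = x'.1 := by
    rcases L with _ | ⟨⟨i, b⟩, L⟩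
    · exact absurd rfl hL
    · have h1 : (i, !b) ∈ L := by
        have h2 := heq i
        have h4 : 0 < List.count (i, !b) ((i, b) :: L) := by
          have h5 : 0 < List.count (i, b) ((i, b) :: L) := by simp
          cases b
          · simp only [Bool.not_false]
            omega
          · simp only [Bool.not_true]
            omega
        rw [List.count_pos_iff] at h4
        rcases List.mem_cons.1 h4 with h6 | h6
        · simp at h6
        · exact h6
      obtain ⟨B, C, rfl⟩ := List.append_of_mem h1
      exact ⟨[], (i, b), B, (i, !b), C, by simp, rfl⟩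
  obtain ⟨A, ⟨i, b⟩, B, ⟨i', b'⟩, C, h1, h2, hB, hBB⟩ := exists_inner hex
  simp only at h2 hB
  subst h2
  have hb' : b' = !b := by
    by_contra hcon
    have hbb : b' = b := by
      cases b <;> cases b' <;> simp_all
    subst hbb
    have := hle (i, b')
    rw [h1] at this
    simp [List.count_append, List.count_cons] at this
    omega
  subst hb'
  have hBne : B ≠ [] := by
    rintro rfl
    rw [h1, FreeGroup.IsReduced] at hred
    have h4 : List.IsChain (fun a b : Fin n × Bool => a.1 = b.1 → a.2 = b.2)
        ((i, b) :: ([] ++ (i, !b) :: C)) := hred.right_of_append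
    rw [List.nil_append, List.isChain_cons_cons] at h4
    have := h4.1 rfl
    simp at this
  have hAC : (∀ l ∈ A, l.1 ≠ i) ∧ (∀ l ∈ C, l.1 ≠ i) := by
    have h4 : List.countP (fun l : Fin n × Bool => decide (l.1 = i)) L ≤ 2 := by
      rw [countP_fst]
      have := hle (i, true)
      have := hle (i, false)
      omega
    rw [h1] at h4
    simp only [List.countP_append, List.countP_cons, decide_true, if_true] at h4
    constructor
    · have h5 : List.countP (fun l : Fin n × Bool => decide (l.1 = i)) A = 0 := by omega
      rw [List.countP_eq_zero] at h5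
      intro l hl
      simpa using h5 l hl
    · have h5 : List.countP (fun l : Fin n × Bool => decide (l.1 = i)) C = 0 := by omega
      rw [List.countP_eq_zero] at h5
      intro l hl
      simpa using h5 l hl
  -- the block `B` centralises `H`
  have hcen : ∀ z : Fin n → G, Adm H g z → evL z B ∈ Subgroup.centralizer (H : Set G) := by
    intro z hz
    have e1 := hev z hz
    have key : ∀ h ∈ H, ev z (i, b) * evL z B * ev z (i, !b)
        = ev (upd z i h) (i, b) * evL z B * ev (upd z i h) (i, !b) := by
      intro h hh
      have e2 := hev _ (hz.updk i ⟨h, hh⟩)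
      rw [h1] at e1 e2
      simp only [evL_append, evL_cons] at e1 e2
      rw [evL_upd_ne hAC.1, evL_upd_ne hAC.2, evL_upd_ne hB] at e2
      rw [← e2] at e1
      have e3 := mul_left_cancel e1
      have e4 : ev z (i, b) * evL z B * ev z (i, !b) * evL z C
          = ev (upd z i h) (i, b) * evL z B * ev (upd z i h) (i, !b) * evL z C := by
        simpa [mul_assoc] using e3
      exact mul_right_cancel e4
    cases b
    · -- `z i⁻¹ β z i`
      have hc : (z i)⁻¹ * evL z B * z i ∈ Subgroup.centralizer (H : Set G) := by
        rw [Subgroup.mem_centralizer_iff]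
        intro h hh
        have := key h hh
        simp only [ev, upd, Function.update_self, Bool.not_false, if_true, Bool.false_eq_true,
          if_false, mul_inv_rev] at this
        have e5 : h * ((z i)⁻¹ * evL z B * z i) = h * (h⁻¹ * (z i)⁻¹ * evL z B * (z i * h)) := by
          rw [← this]
        rw [e5]
        group
      have := (Subgroup.normal_centralizer (H := H)).conj_mem _ hc (z i)
      have e : z i * ((z i)⁻¹ * evL z B * z i) * (z i)⁻¹ = evL z B := by group
      rwa [e] at this
    · rw [Subgroup.mem_centralizer_iff]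
      intro h hh
      have := key h hh
      simp only [ev, upd, Function.update_self, Bool.not_true, if_true, Bool.false_eq_true,
        if_false, mul_inv_rev] at this
      have e5 : evL z B = h * evL z B * h⁻¹ := by
        have := congrArg (fun t => (z i)⁻¹ * t * z i) this
        simpa [mul_assoc] using this
      have e6 : evL z B * h = h * evL z B * h⁻¹ * h := by rw [← e5]
      rw [e6]
      group
  obtain ⟨⟨j, c⟩, B₂, rfl⟩ := List.exists_cons_of_ne_nil hBne
  obtain ⟨-, hj⟩ := hBB [] (j, c) B₂ rfl
  have hxc : x ∈ Subgroup.centralizer (H : Set G) := by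
    have hg : Adm H g g := fun j => by simp
    have e1 := hcen g hg
    cases c
    · have e2 := hcen _ (hg.updk j ⟨x, hx⟩)
      rw [evL_cons, evL_upd_ne hj] at e2
      rw [evL_cons] at e1
      have e3 := Subgroup.mul_mem _ e2 (Subgroup.inv_mem _ e1)
      have e4 : ev (upd g j x) (j, false) * evL g B₂ * (ev g (j, false) * evL g B₂)⁻¹ = x⁻¹ := by
        simp only [ev, upd, Function.update_self, Bool.false_eq_true, if_false, mul_inv_rev]
        group
      have e5 : x⁻¹ ∈ Subgroup.centralizer (H : Set G) := by
        rw [← e4]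
        exact e3
      simpa using Subgroup.inv_mem _ e5
    · have e2 := hcen _ (hg.updk j ⟨x, hx⟩)
      rw [evL_cons, evL_upd_ne hj] at e2
      rw [evL_cons] at e1
      have e3 := Subgroup.mul_mem _ (Subgroup.inv_mem _ e1) e2
      have e4 : (ev g (j, true) * evL g B₂)⁻¹ * (ev (upd g j x) (j, true) * evL g B₂)
          = (evL g B₂)⁻¹ * x * evL g B₂ := by
        simp only [ev, upd, Function.update_self, if_true, mul_inv_rev]
        group
      have e5 : (evL g B₂)⁻¹ * x * evL g B₂ ∈ Subgroup.centralizer (H : Set G) := by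
        rw [← e4]
        exact e3
      have := (Subgroup.normal_centralizer (H := H)).conj_mem _ e5 (evL g B₂)
      have e : evL g B₂ * ((evL g B₂)⁻¹ * x * evL g B₂) * (evL g B₂)⁻¹ = x := by group
      rwa [e] at this
  exact ((Subgroup.mem_centralizer_iff.1 hxc) y hy).symm

end Pool.Agent.H32.CI
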