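import Mathlib
import Pool.Agent.H32.CI.PF

/-!
Prime-free words give laws (MP_551747_al, coset identities).
-/

set_option autoImplicit false
set_option linter.unusedSectionVars false
set_option linter.unusedSimpArgs false

namespace Pool.Agent.H32.CI

theorem exists_fin (v : FreeGroup ℕ) (hv : v ≠ 1) :
    ∃ (m : ℕ) (f : ℕ → Fin m), FreeGroup.map f v ≠ 1 := by
  classical
  obtain ⟨m, hm0, hlt⟩ : ∃ m : ℕ, 0 < m ∧ ∀ l ∈ v.toWord, l.1 < m := by
    refine ⟨((v.toWord.map Prod.fst).toFinset).sup id + 1, by omega, ?_⟩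
    intro l hl
    have h1 : l.1 ∈ (v.toWord.map Prod.fst).toFinset := by
      rw [List.mem_toFinset]
      exact List.mem_map_of_mem hl
    have h2 : id l.1 ≤ ((v.toWord.map Prod.fst).toFinset).sup id := Finset.le_sup (f := id) h1
    have h3 : l.1 ≤ ((v.toWord.map Prod.fst).toFinset).sup id := h2
    omega
  refine ⟨m, fun i => if h : i < m then ⟨i, h⟩ else ⟨0, hm0⟩, ?_⟩
  intro h0
  apply hv
  have h1 := congrArg (FreeGroup.map (fun i : Fin m => (i : ℕ))) h0
  rw [map_one, FreeGroup.map.comp] at h1
  rw [← h1]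
  conv_lhs => rw [← FreeGroup.mk_toWord (x := v)]
  conv_rhs => rw [← FreeGroup.mk_toWord (x := v)]
  rw [FreeGroup.map.mk]
  congr 1
  conv_lhs => rw [← List.map_id v.toWord]
  apply List.map_congr_left
  intro l hl
  simp [hlt l hl]

/-- a coset identity for a prime-free word forces a law depending only on the word -/
theorem law_of_PF (U : ℤ → Prop) {n : ℕ} (w : FreeGroup (Fin n)) (hw : PF U w) :
    ∃ (m : ℕ) (v : FreeGroup (Fin m)), v ≠ 1 ∧
      ∀ (G : Type) [Group G] (H : Subgroup G), H.Normal → Unip U G H →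
        ∀ g : Fin n → G, CosetId w G H g →
        ∀ x : Fin m → G, (∀ i, x i ∈ H) → FreeGroup.lift x v = 1 := by
  classical
  by_contra hcon
  push Not at hcon
  have hce : ∀ v : {v : FreeGroup ℕ // v ≠ 1}, ∃ (G : Type) (_ : Group G) (H : Subgroup G)
      (_ : H.Normal) (g : Fin n → G), Unip U G H ∧ CosetId w G H g ∧
      ∃ x : ℕ → G, (∀ i, x i ∈ H) ∧ FreeGroup.lift x v.1 ≠ 1 := by
    rintro ⟨v, hv⟩
    obtain ⟨m, f, hf⟩ := exists_fin v hv
    obtain ⟨G, hG, H, hH, hU, g, hid, x, hx, hne⟩ := hcon m _ hf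
    refine ⟨G, hG, H, hH, g, hU, hid, fun i => x (f i), fun i => hx _, ?_⟩
    intro h0
    apply hne
    rw [← h0]
    have : FreeGroup.lift (fun i => x (f i)) = (FreeGroup.lift x).comp (FreeGroup.map f) := by
      ext i
      simp
    rw [this]
    rfl
  choose G hG H hH g hU hid hx' using hce
  choose x hx hne using hx'
  let K : Subgroup (∀ v, G v) := Subgroup.pi Set.univ H
  have hlift : ∀ (m : ℕ) (y : Fin m → ∀ v, G v) (w : FreeGroup (Fin m))
      (v : {v : FreeGroup ℕ // v ≠ 1}),
      (FreeGroup.lift y w) v = FreeGroup.lift (fun i => y i v) w := by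
    intro m y w v
    have : (Pi.evalMonoidHom G v).comp (FreeGroup.lift y) = FreeGroup.lift (fun i => y i v) := by
      ext i
      simp
    exact DFunLike.congr_fun this w
  have hKn : K.Normal := by
    constructor
    intro a ha b
    rw [Subgroup.mem_pi] at ha ⊢
    intro v hv
    exact (hH v).conj_mem _ (ha v hv) _
  have hKU : Unip U (∀ v, G v) K := by
    intro m w' i hi y h hh
    have h1 : ∀ v, ∃ k ∈ H v, FreeGroup.lift (upd (fun j => y j v) i k) w'
        = h v * FreeGroup.lift (fun j => y j v) w' := fun v =>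
      hU v m w' i hi (fun j => y j v) (h v) ((Subgroup.mem_pi _).1 hh v (Set.mem_univ v))
    choose k hk hke using h1
    refine ⟨k, (Subgroup.mem_pi _).2 (fun v _ => hk v), ?_⟩
    funext v
    rw [Pi.mul_apply, hlift, hlift, ← hke v]
    congr 2
    funext j
    by_cases hj : j = i
    · subst hj
      rw [upd, upd, Function.update_self, Function.update_self]
      rfl
    · rw [upd, upd, Function.update_of_ne hj, Function.update_of_ne hj]
  let θ : FreeGroup ℕ →* K := FreeGroup.lift (fun i => ⟨fun v => x v i, by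
    rw [Subgroup.mem_pi]
    intro v _
    exact hx v i⟩)
  have hθv : ∀ (v : {v : FreeGroup ℕ // v ≠ 1}) (a : FreeGroup ℕ),
      ((θ a : K) : ∀ v, G v) v = FreeGroup.lift (x v) a := by
    intro v a
    have : ((Pi.evalMonoidHom G v).comp K.subtype).comp θ = FreeGroup.lift (x v) := by
      ext i
      simp [θ]
    exact DFunLike.congr_fun this a
  have hθ : Function.Injective θ := by
    rw [injective_iff_map_eq_one]
    intro a ha
    by_contra hne1
    apply hne ⟨a, hne1⟩
    have := hθv ⟨a, hne1⟩ a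
    rw [ha] at this
    exact this.symm
  obtain ⟨N, hNn, hP, hQinf⟩ := exists_prime_quotient θ hθ
  obtain ⟨y, hy, hne2⟩ := hw (∀ v, G v) K hKU (K ⧸ N) hP (QuotientGroup.mk' N)
    (QuotientGroup.mk'_surjective N) (fun i v => g v i)
  apply hne2
  have h1 : FreeGroup.lift y w = 1 := by
    funext v
    rw [hlift]
    apply hid v
    intro i
    have := hy i
    rw [Subgroup.mem_pi] at this
    exact this v (Set.mem_univ v)
  rw [h1, act_one]

theorem Tame.pf {U : ℤ → Prop} {n : ℕ} {w : FreeGroup (Fin n)} (h : Tame U n w) : PF U w := by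
  induction h with
  | few w h => exact PF.few U h
  | skew w h => exact PF.skew U h
  | unit w i h => exact PF.unit U h
  | comm u v _ _ hu hv => exact PF.comm U hu hv
  | cons w w' ρ h _ h' => exact PF.cons U ρ h h'

end Pool.Agent.H32.CI
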