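import Mathlib
import Pool.Agent.H32.CI.Law

/-!
Exponent sums prime to `p` in pro-`p` groups (MP_551747_al, coset identities).
-/

set_option autoImplicit false
set_option linter.unusedSectionVars false
set_option linter.unusedSimpArgs false

namespace Pool.Agent.H32.CI

open FreeGroup hiding map_mul map_one map_inv

/-! ### exponent sums -/

theorem expSum_one {n : ℕ} (i : Fin n) : expSum i 1 = 0 := by
  simp [expSum]

theorem expSum_mul {n : ℕ} (i : Fin n) (a b : FreeGroup (Fin n)) :
    expSum i (a * b) = expSum i a + expSum i b := by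
  simp [expSum]

theorem expSum_inv {n : ℕ} (i : Fin n) (a : FreeGroup (Fin n)) :
    expSum i a⁻¹ = - expSum i a := by
  simp [expSum]

theorem expSum_of {n : ℕ} (i j : Fin n) :
    expSum i (of j) = if j = i then 1 else 0 := by
  simp [expSum]

theorem expSum_mk {n : ℕ} (i : Fin n) (L : List (Fin n × Bool)) :
    expSum i (FreeGroup.mk L) = L.count (i, true) - L.count (i, false) := by
  induction L with
  | nil =>
    have : (FreeGroup.mk [] : FreeGroup (Fin n)) = 1 := rfl
    rw [this, expSum_one]
    simp
  | cons l L ih =>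
    rcases l with ⟨j, b⟩
    have e : FreeGroup.mk ((j, b) :: L) = FreeGroup.mk [(j, b)] * FreeGroup.mk L := by
      rw [FreeGroup.mul_mk]; rfl
    rw [e, expSum_mul, ih, List.count_cons, List.count_cons]
    cases b
    · have e1 : FreeGroup.mk [(j, false)] = (of j)⁻¹ := by
        simp [of, FreeGroup.inv_mk, FreeGroup.invRev]
      rw [e1, expSum_inv, expSum_of]
      by_cases hj : j = i
      · subst hj
        simp
        ring
      · simp [hj]
    · have e1 : FreeGroup.mk [(j, true)] = of j := rfl
      rw [e1, expSum_of]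
      by_cases hj : j = i
      · subst hj
        simp
        ring
      · simp [hj]

theorem expSum_eq {n : ℕ} (i : Fin n) (w : FreeGroup (Fin n)) :
    expSum i w = w.toWord.count (i, true) - w.toWord.count (i, false) := by
  conv_lhs => rw [← FreeGroup.mk_toWord (x := w)]
  exact expSum_mk i _

theorem lift_upd_central {G : Type} [Group G] {n : ℕ} (w : FreeGroup (Fin n)) (i : Fin n)
    (y : Fin n → G) (k z : G) (hz : ∀ g, g * z = z * g) :
    FreeGroup.lift (upd y i (k * z)) w = FreeGroup.lift (upd y i k) w * z ^ (expSum i w) := by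
  have hzm : ∀ (m : ℤ) (g : G), z ^ m * g = g * z ^ m := fun m g =>
    ((Commute.zpow_right (show Commute g z from hz g) m).eq).symm
  induction w using FreeGroup.induction_on with
  | C1 => simp [expSum_one]
  | of j =>
    rw [FreeGroup.lift_apply_of, FreeGroup.lift_apply_of, expSum_of]
    by_cases hj : j = i
    · subst hj
      rw [upd, upd, Function.update_self, Function.update_self, if_pos rfl, zpow_one, mul_assoc]
    · rw [upd, upd, Function.update_of_ne hj, Function.update_of_ne hj, if_neg hj, zpow_zero,
        mul_one]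
  | inv_of j h =>
    rw [map_inv, map_inv, h, expSum_inv, zpow_neg, mul_inv_rev, ← zpow_neg, hzm, zpow_neg]
  | mul a b ha hb =>
    rw [map_mul, map_mul, ha, hb, expSum_mul, zpow_add, mul_assoc, mul_assoc, ← mul_assoc (z ^ _),
      hzm, mul_assoc]

theorem upd_mem {G : Type} [Group G] {H : Subgroup G} [H.Normal] {n : ℕ} (w : FreeGroup (Fin n))
    (i : Fin n) (y : Fin n → G) {k : G} (hk : k ∈ H) :
    (FreeGroup.lift y w)⁻¹ * FreeGroup.lift (upd y i k) w ∈ H := by
  apply Adm.lift
  exact (show Adm H y y from fun j => by simp).updk i ⟨k, hk⟩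

/-! ### finite `p`-groups -/

theorem exists_central {p : ℕ} [Fact p.Prime] {G : Type} [Group G] [Finite G] (hG : IsPGroup p G)
    (H : Subgroup G) [H.Normal] (hH : H ≠ ⊥) : ∃ z ∈ H, z ≠ 1 ∧ ∀ g, g * z = z * g := by
  have hnt : Nontrivial H := (Subgroup.nontrivial_iff_ne_bot H).2 hH
  have hp : p ∣ Nat.card H := by
    obtain ⟨n, hn0, hn⟩ := (hG.to_subgroup H).nontrivial_iff_card.mp inferInstance
    exact hn.symm ▸ dvd_pow_self _ (ne_of_gt hn0)
  have h1 : (1 : H) ∈ MulAction.fixedPoints (ConjAct G) H := by
    intro g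
    exact smul_one g
  obtain ⟨z, hz, hz1⟩ := (hG.of_equiv ConjAct.toConjAct).exists_fixed_point_of_prime_dvd_card_of_fixed_point
    H hp h1
  refine ⟨z, z.2, fun h => hz1 (Subtype.ext h.symm), ?_⟩
  intro g
  have h2 := congrArg Subtype.val (hz (ConjAct.toConjAct g))
  rw [ConjAct.Subgroup.val_conj_smul, ConjAct.toConjAct_smul] at h2
  exact mul_inv_eq_iff_eq_mul.1 h2

theorem unip_pgroup (p : ℕ) [hp : Fact p.Prime] : ∀ (N : ℕ) (G : Type) [Group G] [Finite G],
    IsPGroup p G → Nat.card G ≤ N → ∀ (H : Subgroup G), H.Normal →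
      Unip (fun s => ¬ ((p : ℤ) ∣ s)) G H := by
  intro N
  induction N with
  | zero =>
    intro G _ _ _ hc
    have := Nat.card_pos (α := G)
    omega
  | succ N ih =>
    intro G _ _ hG hc H hH n w i hi y h hh
    by_cases hbot : H = ⊥
    · subst hbot
      rw [Subgroup.mem_bot] at hh
      subst hh
      exact ⟨1, Subgroup.one_mem _, by simp [upd]⟩
    obtain ⟨z, hzH, hz1, hz⟩ := exists_central hG H hbot
    let Z : Subgroup G := Subgroup.zpowers z
    have hZn : Z.Normal := by
      constructor
      intro a ha g
      obtain ⟨m, rfl⟩ := Subgroup.mem_zpowers_iff.1 ha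
      have : g * z ^ m * g⁻¹ = z ^ m := by
        rw [mul_inv_eq_iff_eq_mul]
        exact (Commute.zpow_right (show Commute g z from hz g) m).eq
      rw [this]
      exact ha
    have hcard : Nat.card (G ⧸ Z) ≤ N := by
      have h1 := Subgroup.card_eq_card_quotient_mul_card_subgroup Z
      have h2 : 1 < Nat.card Z := by
        rw [Nat.card_zpowers]
        have := orderOf_pos z
        have h3 : orderOf z ≠ 1 := fun h3 => hz1 (orderOf_eq_one_iff.1 h3)
        omega
      have h3 := Nat.card_pos (α := G ⧸ Z)
      have h4 : Nat.card (G ⧸ Z) * 2 ≤ Nat.card (G ⧸ Z) * Nat.card Z := Nat.mul_le_mul_left _ h2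
      omega
    obtain ⟨k, hk, hke⟩ := ih (G ⧸ Z) (hG.to_quotient Z) hcard (H.map (QuotientGroup.mk' Z))
      (hH.map _ (QuotientGroup.mk'_surjective Z)) n w i hi (fun j => QuotientGroup.mk' Z (y j))
      (QuotientGroup.mk' Z h) (Subgroup.mem_map_of_mem _ hh)
    obtain ⟨k, hkH, rfl⟩ := hk
    have hmap : ∀ x : Fin n → G, QuotientGroup.mk' Z (FreeGroup.lift x w)
        = FreeGroup.lift (fun j => QuotientGroup.mk' Z (x j)) w := by
      intro x
      have : (QuotientGroup.mk' Z).comp (FreeGroup.lift x)
          = FreeGroup.lift (fun j => QuotientGroup.mk' Z (x j)) := by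
        ext j
        simp
      exact DFunLike.congr_fun this w
    have hupd : upd (fun j => QuotientGroup.mk' Z (y j)) i (QuotientGroup.mk' Z k)
        = fun j => QuotientGroup.mk' Z (upd y i k j) := by
      funext j
      by_cases hj : j = i
      · subst hj
        rw [upd, upd, Function.update_self, Function.update_self, map_mul]
      · rw [upd, upd, Function.update_of_ne hj, Function.update_of_ne hj]
    rw [hupd, ← hmap, ← hmap, ← map_mul] at hke
    have hke' := (QuotientGroup.eq.1 hke : _ ∈ Z)
    obtain ⟨m, hm⟩ := Subgroup.mem_zpowers_iff.1 hke'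
    -- choose t with t * e ≡ m modulo the order of z
    have hcop : IsCoprime (expSum i w) (orderOf z : ℤ) := by
      obtain ⟨a, ha⟩ := (IsPGroup.iff_orderOf.1 hG) z
      rw [ha]
      push_cast
      apply IsCoprime.pow_right
      apply IsCoprime.symm
      exact (Nat.prime_iff_prime_int.1 hp.out).coprime_iff_not_dvd.2 hi
    obtain ⟨u, v, huv⟩ := hcop
    refine ⟨k * z ^ (m * u), H.mul_mem hkH (H.zpow_mem hzH _), ?_⟩
    rw [lift_upd_central w i y k (z ^ (m * u))
      (fun g => (Commute.zpow_right (show Commute g z from hz g) _).eq), ← zpow_mul]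
    have e1 : m * u * expSum i w = m - (orderOf z : ℤ) * (m * v) := by
      linear_combination m * huv
    rw [e1, zpow_sub, zpow_mul z (orderOf z : ℤ), zpow_natCast, pow_orderOf_eq_one, one_zpow,
      inv_one, mul_one, hm]
    group

/-! ### pro-`p` groups -/

theorem unip_pro (p : ℕ) (hp : p.Prime) (G : Type) [Group G] [TopologicalSpace G]
    [IsTopologicalGroup G] [CompactSpace G] [T2Space G] [TotallyDisconnectedSpace G]
    (hG : ∀ N : Subgroup G, N.Normal → IsOpen (N : Set G) → ∃ k : ℕ, N.index = p ^ k)
    (H : Subgroup G) (hH : H.Normal) (hcl : IsClosed (H : Set G)) :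
    Unip (fun s => ¬ ((p : ℤ) ∣ s)) G H := by
  intro n w i hi y h hh
  have hpf : Fact p.Prime := ⟨hp⟩
  by_contra hcon
  push Not at hcon
  have hcont : Continuous (fun k : G => FreeGroup.lift (upd y i k) w) := by
    have : ∀ u : FreeGroup (Fin n), Continuous (fun k : G => FreeGroup.lift (upd y i k) u) := by
      intro u
      induction u using FreeGroup.induction_on with
      | C1 => simpa using continuous_const
      | of j =>
        simp only [FreeGroup.lift_apply_of]
        by_cases hj : j = i
        · subst hj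
          simp only [upd, Function.update_self]
          exact continuous_const.mul continuous_id
        · simp only [upd, Function.update_of_ne hj]
          exact continuous_const
      | inv_of j h =>
        simp only [map_inv]
        exact h.inv
      | mul a b ha hb =>
        simp only [map_mul]
        exact ha.mul hb
    exact this w
  let S : Set G := (fun k : G => FreeGroup.lift (upd y i k) w) '' (H : Set G)
  have hS : IsClosed S := (hcl.isCompact.image hcont).isClosed
  have hnot : h * FreeGroup.lift y w ∉ S := by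
    rintro ⟨k, hk, hke⟩
    exact hcon k hk hke
  let V : Set G := {x | h * FreeGroup.lift y w * x ∉ S}
  have hV : IsOpen V := by
    have : Continuous (fun x : G => h * FreeGroup.lift y w * x) :=
      continuous_const.mul continuous_id
    exact hS.isOpen_compl.preimage this
  have h1V : (1 : G) ∈ V := by
    change h * FreeGroup.lift y w * 1 ∉ S
    rwa [mul_one]
  obtain ⟨M, hM⟩ := ProfiniteGrp.exist_openNormalSubgroup_sub_open_nhds_of_one hV h1V
  let M' : Subgroup G := M.toSubgroup
  have hMn : M'.Normal := M.isNormal'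
  have hMo : IsOpen (M' : Set G) := M.isOpen'
  obtain ⟨a, ha⟩ := hG M' hMn hMo
  have hidx : M'.index ≠ 0 := by
    rw [ha]
    exact pow_ne_zero _ hp.ne_zero
  have hfi : M'.FiniteIndex := ⟨hidx⟩
  have hpg : IsPGroup p (G ⧸ M') := IsPGroup.of_card (by rw [← ha]; rfl)
  obtain ⟨k, hk, hke⟩ := unip_pgroup p (Nat.card (G ⧸ M')) (G ⧸ M') hpg le_rfl
    (H.map (QuotientGroup.mk' M')) (hH.map _ (QuotientGroup.mk'_surjective M')) n w i hi
    (fun j => QuotientGroup.mk' M' (y j)) (QuotientGroup.mk' M' h) (Subgroup.mem_map_of_mem _ hh)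
  obtain ⟨k, hkH, rfl⟩ := hk
  have hmap : ∀ x : Fin n → G, QuotientGroup.mk' M' (FreeGroup.lift x w)
      = FreeGroup.lift (fun j => QuotientGroup.mk' M' (x j)) w := by
    intro x
    have : (QuotientGroup.mk' M').comp (FreeGroup.lift x)
        = FreeGroup.lift (fun j => QuotientGroup.mk' M' (x j)) := by
      ext j
      simp
    exact DFunLike.congr_fun this w
  have hupd : upd (fun j => QuotientGroup.mk' M' (y j)) i (QuotientGroup.mk' M' k)
      = fun j => QuotientGroup.mk' M' (upd y i k j) := by
    funext j
    by_cases hj : j = i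
    · subst hj
      rw [upd, upd, Function.update_self, Function.update_self, map_mul]
    · rw [upd, upd, Function.update_of_ne hj, Function.update_of_ne hj]
  rw [hupd, ← hmap, ← hmap, ← map_mul] at hke
  have hke' : (h * FreeGroup.lift y w)⁻¹ * FreeGroup.lift (upd y i k) w ∈ M' :=
    QuotientGroup.eq.1 hke.symm
  have h2 := hM hke'
  apply h2
  refine ⟨k, hkH, ?_⟩
  simp only [mul_inv_cancel_left]

end Pool.Agent.H32.CI
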