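import Mathlib
import Pool.Agent.H32.CI.ProP

/-!
From laws on a subgroup to laws on the group (MP_551747_al, coset identities).
-/

set_option autoImplicit false
set_option linter.unusedSectionVars false
set_option linter.unusedSimpArgs false

namespace Pool.Agent.H32.CI

open FreeGroup hiding map_mul map_one map_inv

/-- replace each letter by its `D`-th power -/
def blow {α : Type*} (D : ℕ) (L : List (α × Bool)) : List (α × Bool) :=
  L.flatMap (fun l => List.replicate D l)

theorem blow_cons {α : Type*} (D : ℕ) (l : α × Bool) (L : List (α × Bool)) :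
    blow D (l :: L) = List.replicate D l ++ blow D L := by
  simp [blow]

theorem replicate_red {α : Type*} (D : ℕ) (l : α × Bool) :
    FreeGroup.IsReduced (List.replicate D l) := by
  induction D with
  | zero => exact List.isChain_nil
  | succ D ih =>
    rw [List.replicate_succ]
    unfold FreeGroup.IsReduced at *
    rw [List.isChain_cons]
    refine ⟨?_, ih⟩
    intro y hy
    have h1 := List.mem_of_mem_head? hy
    rw [List.eq_of_mem_replicate h1]
    tauto

theorem blow_red {α : Type*} {D : ℕ} (hD : D ≠ 0) {L : List (α × Bool)}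
    (hL : FreeGroup.IsReduced L) : FreeGroup.IsReduced (blow D L) := by
  induction L with
  | nil => exact hL
  | cons l L ih =>
    have h1 : FreeGroup.IsReduced L := by
      unfold FreeGroup.IsReduced at *
      rw [List.isChain_cons] at hL
      exact hL.2
    rw [blow_cons]
    apply red_append (replicate_red D l) (ih h1)
    intro x hx y hy
    have hx' := List.eq_of_mem_replicate (List.mem_of_mem_getLast? hx)
    subst hx'
    rcases L with _ | ⟨z, L⟩
    · simp [blow] at hy
    · have hz : (blow D (z :: L)).head? = some z := by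
        rw [blow_cons]
        obtain ⟨D, rfl⟩ := Nat.exists_eq_succ_of_ne_zero hD
        rw [Nat.succ_eq_add_one, List.replicate_succ]
        rfl
      rw [hz] at hy
      have hy' : z = y := by simpa using hy
      subst hy'
      unfold FreeGroup.IsReduced at hL
      rw [List.isChain_cons] at hL
      exact hL.1 z (by simp)

theorem mk_blow {α : Type*} (D : ℕ) (L : List (α × Bool)) :
    FreeGroup.mk (blow D L) = FreeGroup.lift (fun i : α => (of i) ^ D) (FreeGroup.mk L) := by
  induction L with
  | nil => rfl
  | cons l L ih =>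
    have e : FreeGroup.mk (l :: L) = FreeGroup.mk [l] * FreeGroup.mk L := by
      rw [FreeGroup.mul_mk]; rfl
    rw [blow_cons, ← FreeGroup.mul_mk, ih, e, map_mul]
    congr 1
    have h1 : FreeGroup.mk (List.replicate D l) = (FreeGroup.mk [l]) ^ D := by
      clear ih e
      induction D with
      | zero => rfl
      | succ D ih =>
        have e : List.replicate (D + 1) l = [l] ++ List.replicate D l := by
          rw [List.replicate_succ]; rfl
        rw [e, ← FreeGroup.mul_mk, ih, pow_succ']
    rw [h1]
    rcases l with ⟨i, b⟩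
    cases b
    · have e1 : FreeGroup.mk [(i, false)] = (of i)⁻¹ := by
        simp [of, FreeGroup.inv_mk, FreeGroup.invRev]
      rw [e1, map_inv, FreeGroup.lift_apply_of, inv_pow]
    · have e1 : FreeGroup.mk [(i, true)] = of i := rfl
      rw [e1, FreeGroup.lift_apply_of]

theorem lift_pow_ne_one {α : Type*} [DecidableEq α] {D : ℕ} (hD : D ≠ 0) {v : FreeGroup α}
    (hv : v ≠ 1) : FreeGroup.lift (fun i : α => (of i) ^ D) v ≠ 1 := by
  intro h
  rw [← FreeGroup.mk_toWord (x := v), ← mk_blow] at h
  have h1 := congrArg FreeGroup.toWord h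
  rw [FreeGroup.toWord_mk, (blow_red hD FreeGroup.isReduced_toWord).reduce_eq,
    FreeGroup.toWord_one] at h1
  rcases hL : v.toWord with _ | ⟨l, L⟩
  · exact hv (FreeGroup.toWord_eq_nil_iff.1 hL)
  · rw [hL, blow_cons] at h1
    obtain ⟨D, rfl⟩ := Nat.exists_eq_succ_of_ne_zero hD
    rw [Nat.succ_eq_add_one, List.replicate_succ] at h1
    simp at h1

theorem pow_mem_normalCore {G : Type*} [Group G] (H : Subgroup G) (hH : H.index ≠ 0) (a : G) :
    a ^ (H.index).factorial ∈ H.normalCore := by
  intro b
  have h1 : (b * a * b⁻¹) ^ (H.index).factorial ∈ H := by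
    apply Subgroup.pow_mem_of_index_ne_zero_of_dvd hH
    intro m hm hle
    exact Nat.dvd_factorial hm hle
  rwa [conj_pow] at h1

theorem law_of_core {m : ℕ} (v : FreeGroup (Fin m)) (hv : v ≠ 1) (d : ℕ) :
    ∃ v' : FreeGroup (Fin m), v' ≠ 1 ∧ ∀ (G : Type) [Group G] (H : Subgroup G), H.index = d →
      d ≠ 0 → (∀ x : Fin m → G, (∀ i, x i ∈ H.normalCore) → FreeGroup.lift x v = 1) →
      ∀ x : Fin m → G, FreeGroup.lift x v' = 1 := by
  refine ⟨FreeGroup.lift (fun i => (of i) ^ d.factorial) v,
    lift_pow_ne_one (Nat.factorial_ne_zero d) hv, ?_⟩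
  intro G _ H hd hd0 hl x
  have h1 := hl (fun i => x i ^ d.factorial) (fun i => by
    have := pow_mem_normalCore H (by rw [hd]; exact hd0) (x i)
    rwa [hd] at this)
  rw [← h1]
  have : (FreeGroup.lift x).comp (FreeGroup.lift (fun i => (of i) ^ d.factorial))
      = FreeGroup.lift (fun i => x i ^ d.factorial) := by
    ext i
    simp
  exact DFunLike.congr_fun this v

end Pool.Agent.H32.CI
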