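import Mathlib
import Pool.Agent.H32.CI.Power

/-!
Explicit families of tame words, and the final statements (MP_551747_al, coset identities).
-/

set_option autoImplicit false
set_option linter.unusedSectionVars false
set_option linter.unusedSimpArgs false

namespace Pool.Agent.H32.CI

theorem countP_eq_add {n : ℕ} (i : Fin n) (L : List (Fin n × Bool)) :
    L.countP (fun l => l.1 = i) = L.count (i, true) + L.count (i, false) := by
  induction L with
  | nil => rfl
  | cons l L ih =>
    rcases l with ⟨j, b⟩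
    rw [List.countP_cons, List.count_cons, List.count_cons, ih]
    by_cases hj : j = i
    · subst hj
      cases b
      · simp
        ring
      · simp
        ring
    · simp [hj]

theorem tame_of_occ {p : ℕ} (hp : p.Prime) {n : ℕ} (w : FreeGroup (Fin n)) (hw : w ≠ 1)
    (h : ∀ i, w.toWord.countP (fun l => l.1 = i) ≤ if p = 2 then 3 else if p < 7 then 4 else 5) :
    Tame (fun s => ¬ ((p : ℤ) ∣ s)) n w := by
  have h2 := hp.two_le
  by_cases hF : Few w
  · exact Tame.few w hF
  by_cases hunit : ∃ i, ¬ ((p : ℤ) ∣ expSum i w)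
  · obtain ⟨i, hi⟩ := hunit
    exact Tame.unit w i hi
  exfalso
  push Not at hunit
  apply hF
  have key : ∀ i, w.toWord.countP (fun l => l.1 = i) ≤ 4 ∧ ∀ b, w.toWord.count (i, b) ≤ 3 := by
    intro i
    have h1 := h i
    have hs := hunit i
    rw [expSum_eq] at hs
    rw [countP_eq_add] at h1 ⊢
    generalize ha : w.toWord.count (i, true) = a at *
    generalize hc : w.toWord.count (i, false) = c at *
    have hab : a + c ≤ 4 ∧ a ≤ 3 ∧ c ≤ 3 := by
      rcases (show p = 2 ∨ p = 3 ∨ p = 4 ∨ p = 5 ∨ p = 6 ∨ 7 ≤ p by omega) with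
        rfl | rfl | rfl | rfl | rfl | hp7
      · simp at h1
        omega
      · simp at h1
        omega
      · exact absurd hp (by decide)
      · simp at h1
        omega
      · exact absurd hp (by decide)
      · rw [if_neg (by omega), if_neg (by omega)] at h1
        obtain ⟨t, ht⟩ := hs
        have ht0 : t = 0 := by
          by_contra hne
          have h3 : 1 ≤ |t| := Int.one_le_abs hne
          have h4 : |(a : ℤ) - c| ≤ 5 := by
            rw [abs_le]
            constructor <;> omega
          rw [ht, abs_mul] at h4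
          have h5 : (7 : ℤ) ≤ |(p : ℤ)| := by
            rw [abs_of_nonneg (by omega)]
            omega
          nlinarith
        rw [ht0, mul_zero] at ht
        omega
    refine ⟨hab.1, ?_⟩
    intro b
    cases b
    · rw [hc]; exact hab.2.2
    · rw [ha]; exact hab.2.1
  exact ⟨hw, fun i => (key i).1, fun l => (key l.1).2 l.2⟩

/-- general groups -/
theorem law_general {n : ℕ} (w : FreeGroup (Fin n)) (hw : Tame (fun _ => False) n w) :
    (∃ (m : ℕ) (v : FreeGroup (Fin m)), v ≠ 1 ∧
      ∀ (G : Type) [Group G] (H : Subgroup G), H.Normal →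
        ∀ g : Fin n → G, CosetId w G H g →
          ∀ x : Fin m → G, (∀ i, x i ∈ H) → FreeGroup.lift x v = 1) ∧
    ∀ d : ℕ, d ≠ 0 → ∃ (m : ℕ) (v : FreeGroup (Fin m)), v ≠ 1 ∧
      ∀ (G : Type) [Group G] (H : Subgroup G), H.index = d →
        ∀ g : Fin n → G, CosetId w G H g → ∀ x : Fin m → G, FreeGroup.lift x v = 1 := by
  obtain ⟨m, v, hv, h⟩ := law_of_PF (fun _ => False) w hw.pf
  refine ⟨⟨m, v, hv, fun G _ H hH g hid => h G H hH (unip_false G H) g hid⟩, ?_⟩
  intro d hd
  obtain ⟨v', hv', h'⟩ := law_of_core v hv d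
  refine ⟨m, v', hv', ?_⟩
  intro G _ H hi g hid
  refine h' G H hi hd ?_
  exact h G H.normalCore inferInstance (unip_false G _) g
    (fun y hy => hid y (fun i => H.normalCore_le (hy i)))

/-- pro-`p` groups -/
theorem law_pro (p : ℕ) (hp : p.Prime) {n : ℕ} (w : FreeGroup (Fin n))
    (hw : Tame (fun s => ¬ ((p : ℤ) ∣ s)) n w) :
    (∃ (m : ℕ) (v : FreeGroup (Fin m)), v ≠ 1 ∧
      ∀ (G : Type) [Group G] [TopologicalSpace G] [IsTopologicalGroup G] [CompactSpace G]
        [T2Space G] [TotallyDisconnectedSpace G],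
        (∀ N : Subgroup G, N.Normal → IsOpen (N : Set G) → ∃ k : ℕ, N.index = p ^ k) →
        ∀ H : Subgroup G, H.Normal → IsClosed (H : Set G) →
        ∀ g : Fin n → G, CosetId w G H g →
          ∀ x : Fin m → G, (∀ i, x i ∈ H) → FreeGroup.lift x v = 1) ∧
    ∀ d : ℕ, ∃ (m : ℕ) (v : FreeGroup (Fin m)), v ≠ 1 ∧
      ∀ (G : Type) [Group G] [TopologicalSpace G] [IsTopologicalGroup G] [CompactSpace G]
        [T2Space G] [TotallyDisconnectedSpace G],
        (∀ N : Subgroup G, N.Normal → IsOpen (N : Set G) → ∃ k : ℕ, N.index = p ^ k) →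
        ∀ H : Subgroup G, IsOpen (H : Set G) → H.index = d →
        ∀ g : Fin n → G, CosetId w G H g → ∀ x : Fin m → G, FreeGroup.lift x v = 1 := by
  obtain ⟨m, v, hv, h⟩ := law_of_PF (fun s => ¬ ((p : ℤ) ∣ s)) w hw.pf
  refine ⟨⟨m, v, hv, fun G _ _ _ _ _ _ hG H hH hcl g hid =>
    h G H hH (unip_pro p hp G hG H hH hcl) g hid⟩, ?_⟩
  intro d
  obtain ⟨v', hv', h'⟩ := law_of_core v hv d
  refine ⟨m, v', hv', ?_⟩
  intro G _ _ _ _ _ _ hG H hop hi g hid
  have hfin : Finite (G ⧸ H) := Subgroup.quotient_finite_of_isOpen H hop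
  have hd : d ≠ 0 := by
    rw [← hi]
    exact (Subgroup.finiteIndex_iff.1 (Subgroup.finiteIndex_of_finite_quotient))
  have hcl : IsClosed (H : Set G) := Subgroup.isClosed_of_isOpen H hop
  refine h' G H hi hd ?_
  exact h G H.normalCore inferInstance
    (unip_pro p hp G hG H.normalCore inferInstance (H.normalCore_isClosed hcl)) g
    (fun y hy => hid y (fun i => H.normalCore_le (hy i)))

end Pool.Agent.H32.CI
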